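import Pool.Agent.Helper43.TZ.Src

/-!
# Project TZ: the parameter of the one-parameter group and a sequence which tends to infinity
-/

set_option autoImplicit false

open MeasureTheory Filter Topology Matrix

namespace Pool.Agent.Helper55.TZ

open Pool.Agent.Helper96.SA Pool.Agent.Helper96.FR Pool.Agent.Helper43.TA
open Pool.Agent.Helper43.TZ

variable {N : ℕ}

/-- the spectral theorem -/
private theorem spec55 {H : Mat N} (hs : Hᵀ = H) : ∃ (O : Mat N) (d : Fin N → ℝ), Oᵀ * O = 1 ∧ O * Oᵀ = 1 ∧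
    H = O * diagonal d * Oᵀ := by
  have hH : H.IsHermitian := by
    unfold Matrix.IsHermitian
    rw [Matrix.conjTranspose_eq_transpose_of_trivial, hs]
  refine ⟨hH.eigenvectorUnitary, hH.eigenvalues, ?_, ?_, ?_⟩
  · have h := Unitary.coe_star_mul_self hH.eigenvectorUnitary
    rwa [Matrix.star_eq_conjTranspose, Matrix.conjTranspose_eq_transpose_of_trivial] at h
  · have h := Unitary.coe_mul_star_self hH.eigenvectorUnitary
    rwa [Unitary.coe_star, Matrix.star_eq_conjTranspose, Matrix.conjTranspose_eq_transpose_of_trivial] at h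
  · have h := hH.spectral_theorem
    rw [Unitary.conjStarAlgAut_apply, Matrix.star_eq_conjTranspose,
      Matrix.conjTranspose_eq_transpose_of_trivial] at h
    exact h

private theorem smul_spec55 (O : Mat N) (d : Fin N → ℝ) (t : ℝ) :
    t • (O * diagonal d * Oᵀ) = O * diagonal (fun i => t * d i) * Oᵀ := by
  have e : diagonal (fun i => t * d i) = t • diagonal d := by
    rw [← Matrix.diagonal_smul]
    rfl
  rw [e, Matrix.mul_smul, Matrix.smul_mul]

/-- trace of `g` plus trace of the inverse -/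
noncomputable def trF (g : GL (Fin N) ℝ) : ℝ := (g : Mat N).trace + ((g⁻¹ : GL (Fin N) ℝ) : Mat N).trace

theorem continuous_trF : Continuous (trF (N := N)) := by
  have c1 : Continuous fun g : GL (Fin N) ℝ => (g : Mat N) := Units.continuous_val
  have c2 : Continuous fun g : GL (Fin N) ℝ => ((g⁻¹ : GL (Fin N) ℝ) : Mat N) :=
    Units.continuous_val.comp continuous_inv
  exact c1.matrix_trace.add c2.matrix_trace

/-- The lower bound of the trace on a one-parameter group of symmetric matrices. -/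
theorem trF_ge {H : Mat N} (hs : Hᵀ = H) (hH : H ≠ 0) : ∃ c : ℝ, 0 < c ∧ ∀ t : ℝ, 2 * (N : ℝ) + c * t ^ 2 ≤ trF (ex (t • H)) := by
  obtain ⟨O, d, h1, h2, hd⟩ := spec55 hs
  have hd0 : ∃ i, d i ≠ 0 := by
    by_contra hcon
    push Not at hcon
    apply hH
    have e : d = 0 := funext hcon
    rw [hd, e]
    simp
  obtain ⟨i0, hi0⟩ := hd0
  have htr : ∀ e : Fin N → ℝ, (O * diagonal e * Oᵀ).trace = ∑ i, e i := by
    intro e
    rw [Matrix.trace_mul_comm, ← Matrix.mul_assoc, h1, Matrix.one_mul, Matrix.trace_diagonal]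
  refine ⟨(d i0) ^ 2 / 2, by positivity, fun t => ?_⟩
  have e1 : ((ex (t • H) : GL (Fin N) ℝ) : Mat N) = O * diagonal (fun i => Real.exp (t * d i)) * Oᵀ := by
    rw [ex_coe, hd, smul_spec55, exp_diag O h1 h2]
  have e2 : (((ex (t • H))⁻¹ : GL (Fin N) ℝ) : Mat N) = O * diagonal (fun i => Real.exp (-t * d i)) * Oᵀ := by
    rw [← ex_neg, ← neg_smul, ex_coe, hd, smul_spec55, exp_diag O h1 h2]
  unfold trF
  rw [e1, e2, htr, htr, ← Finset.sum_add_distrib]
  have hc : ∀ x : ℝ, 2 + x ^ 2 / 2 ≤ Real.exp x + Real.exp (-x) := by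
    intro x
    rcases le_total 0 x with hx | hx
    · have h1 := Real.quadratic_le_exp_of_nonneg hx
      have h2 := Real.add_one_le_exp (-x)
      linarith
    · have h1 := Real.quadratic_le_exp_of_nonneg (neg_nonneg.2 hx)
      have h2 := Real.add_one_le_exp x
      rw [neg_sq] at h1
      linarith
  have h3 : ∑ i : Fin N, (2 + (t * d i) ^ 2 / 2) ≤ ∑ i, (Real.exp (t * d i) + Real.exp (-t * d i)) := by
    refine Finset.sum_le_sum fun i _ => ?_
    have := hc (t * d i)
    rwa [show -(t * d i) = -t * d i by ring] at this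
  refine le_trans ?_ h3
  rw [Finset.sum_add_distrib, Finset.sum_const, Finset.card_univ, Fintype.card_fin, nsmul_eq_mul]
  have h4 : (t * d i0) ^ 2 / 2 ≤ ∑ i, (t * d i) ^ 2 / 2 :=
    Finset.single_le_sum (f := fun i => (t * d i) ^ 2 / 2) (fun i _ => by positivity) (Finset.mem_univ i0)
  have : d i0 ^ 2 / 2 * t ^ 2 = (t * d i0) ^ 2 / 2 := by ring
  rw [this]
  linarith

theorem ex_smul_inj {H : Mat N} (hs : Hᵀ = H) (hH : H ≠ 0) {s t : ℝ} (h : ex (s • H) = ex (t • H)) : s = t := by
  obtain ⟨c, hc, hc2⟩ := trF_ge hs hH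
  have h1 : ex ((s - t) • H) = 1 := by
    rw [sub_eq_add_neg, ex_add_smul, neg_smul, ex_neg, h, mul_inv_cancel]
  have h2 := hc2 (s - t)
  rw [h1] at h2
  unfold trF at h2
  rw [inv_one, Units.val_one, Matrix.trace_one, Fintype.card_fin] at h2
  have h3 : c * (s - t) ^ 2 ≤ 0 := by linarith
  have h4 : (s - t) ^ 2 ≤ 0 := by
    by_contra h5
    push Not at h5
    have := mul_pos hc h5
    linarith
  have h5 : s - t = 0 := by
    have := sq_nonneg (s - t)
    exact pow_eq_zero_iff (two_ne_zero) |>.1 (le_antisymm h4 this)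
  linarith

theorem H_ne_zero {G : Subgroup (GL (Fin N) ℝ)} {m d : ℕ} (s : VSrc G m d) (hm : 0 < m) : s.H ≠ 0 := by
  intro h
  have h1 := s.sumE
  rw [h] at h1
  simp only [Matrix.mul_zero, add_zero, smul_zero] at h1
  have h2 : s.E ⟨0, hm⟩ * ∑ i, s.E i = s.E ⟨0, hm⟩ := by
    rw [Finset.mul_sum]
    simp only [s.EE]
    rw [Finset.sum_ite_eq Finset.univ (⟨0, hm⟩ : Fin m) (fun _ => s.E ⟨0, hm⟩)]
    simp
  rw [h1, Matrix.mul_zero] at h2
  exact s.E0 _ h2.symm

/-- The parameter on the one-parameter group, and a sequence which tends to infinity. -/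
theorem exists_par {M : ℕ} {G : Subgroup (GL (Fin M) ℝ)} {m d : ℕ} (s : VSrc G m d) (hm : 0 < m) :
    ∃ par : G → ℝ, (∀ f ∈ opg G s.H, (f : GL (Fin M) ℝ) = ex (par f • s.H)) ∧ (∀ f ∈ opg G s.H, par f⁻¹ = -par f) ∧
      ∃ f : ℕ → G, (∀ n, f n ∈ opg G s.H) ∧ Tendsto f atTop (cocompact G) ∧ Tendsto (fun n => par (f n)) atTop atTop := by
  classical
  have hH0 := H_ne_zero s hm
  let par : G → ℝ := fun f => if h : ∃ τ : ℝ, (f : GL (Fin M) ℝ) = ex (τ • s.H) then h.choose else 0
  have hpar : ∀ f ∈ opg G s.H, (f : GL (Fin M) ℝ) = ex (par f • s.H) := by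
    intro f hf
    have h : ∃ τ : ℝ, (f : GL (Fin M) ℝ) = ex (τ • s.H) := hf
    have e : par f = h.choose := dif_pos h
    rw [e]
    exact h.choose_spec
  have huniq : ∀ (f : G) (t : ℝ), (f : GL (Fin M) ℝ) = ex (t • s.H) → par f = t := by
    intro f t ht
    have h := hpar f ⟨t, ht⟩
    rw [ht] at h
    exact (ex_smul_inj s.symm hH0 h).symm
  refine ⟨par, hpar, ?_, ?_⟩
  · intro f hf
    apply huniq
    rw [Subgroup.coe_inv, hpar f hf, neg_smul, ex_neg]
  · let f : ℕ → G := fun n => ⟨ex ((n : ℝ) • s.H), mem_lie.1 s.hH n⟩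
    have hf : ∀ n, f n ∈ opg G s.H := fun n => ⟨n, rfl⟩
    have hfp : ∀ n, par (f n) = n := fun n => huniq (f n) n rfl
    refine ⟨f, hf, ?_, ?_⟩
    · obtain ⟨c, hc, hc2⟩ := trF_ge s.symm hH0
      have hcont : Continuous fun g : G => trF (g : GL (Fin M) ℝ) := continuous_trF.comp continuous_subtype_val
      have hlim : Tendsto (fun n : ℕ => trF ((f n : G) : GL (Fin M) ℝ)) atTop atTop := by
        refine tendsto_atTop_mono (f := fun n : ℕ => c * (n : ℝ)) (fun n => ?_) ?_
        · have h := hc2 (n : ℝ)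
          change c * (n : ℝ) ≤ trF (ex ((n : ℝ) • s.H))
          have h2 : (n : ℝ) ≤ (n : ℝ) ^ 2 := by
            rcases Nat.eq_zero_or_pos n with h0 | h0
            · subst h0
              simp
            · have h1 : (1 : ℝ) ≤ n := by exact_mod_cast h0
              nlinarith
          have h3 : (0 : ℝ) ≤ 2 * (M : ℝ) := by positivity
          have h4 := mul_le_mul_of_nonneg_left h2 hc.le
          linarith
        · exact Tendsto.const_mul_atTop hc tendsto_natCast_atTop_atTop
      rw [Filter.tendsto_def]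
      intro t ht
      obtain ⟨K, hK, hKs⟩ := mem_cocompact.1 ht
      obtain ⟨B, hB⟩ := (hK.image hcont).bddAbove
      filter_upwards [hlim.eventually (eventually_gt_atTop B)] with n hn
      refine hKs fun hnK => ?_
      exact absurd (hB ⟨f n, hnK, rfl⟩) (not_le.2 hn)
    · simp only [hfp]
      exact tendsto_natCast_atTop_atTop

end Pool.Agent.Helper55.TZ
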