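import Pool.Agent.Helper55.TZ.AdRep
import Pool.Agent.Helper42.TZ.C.SlR
import Pool.Agent.Helper78.BI.Tgt

/-!
# Project TZ: discrete subgroups of the adjoint groups of `sl(n, ℝ)` and `sl(n, ℂ)`, the statements for the final theorem
-/

set_option autoImplicit false

open MeasureTheory Filter Topology Matrix

namespace Pool.Agent.Helper55.TZ

open Pool.Agent.Helper96.SA Pool.Agent.Helper96.FR Pool.Agent.Helper42.TZ
open Pool.Agent.Helper66.RKS (PRep)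
open Pool.Agent.Helper90.RK Pool.Agent.Helper84.NI Pool.Agent.Helper66.RKS Pool.Agent.Helper9.Fra
open Pool.Agent.Helper9.QH Pool.Agent.Helper43.TH Pool.Agent.Helper96.RK Pool.Agent.Helper9.Lin

attribute [local instance 100] LieRing.ofAssociativeRing

variable {L : Type} [LieRing L] [LieAlgebra ℝ L] {n N : ℕ}

/-- the map of an isomorphism with `slR n 𝕜` -/
noncomputable def mapSl {𝕜 : Type} [RCLike 𝕜] (f : L ≃ₗ⁅ℝ⁆ slR n 𝕜) : L →ₗ[ℝ] Matrix (Fin n) (Fin n) 𝕜 :=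
  (slR n 𝕜).toSubmodule.subtype ∘ₗ (f : L →ₗ⁅ℝ⁆ slR n 𝕜).toLinearMap

theorem slId {𝕜 : Type} [RCLike 𝕜] (f : L ≃ₗ⁅ℝ⁆ slR n 𝕜) : SlId (mapSl f) where
  inj x y hxy := f.injective (Subtype.ext hxy)
  lie x y := by
    change ((f ⁅x, y⁆ : slR n 𝕜) : Matrix (Fin n) (Fin n) 𝕜) = _
    rw [LieEquiv.map_lie]
    rfl
  range X := by
    constructor
    · intro hX
      obtain ⟨x, hx⟩ := f.surjective ⟨X, hX⟩
      exact ⟨x, congrArg Subtype.val hx⟩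
    · rintro ⟨x, rfl⟩
      exact (f x).2

theorem rep_slR {𝕜 : Type} [RCLike 𝕜] (φ : 𝕜 →+* ℂ) (hφ : ∀ x, ‖φ x‖ = ‖x‖) (hn : 2 ≤ n) (f : L ≃ₗ⁅ℝ⁆ slR n 𝕜)
    (b : Module.Basis (Fin N) ℝ L) {G : Subgroup (GL (Fin N) ℝ)} (hGc : IsClosed (G : Set (GL (Fin N) ℝ)))
    (hG : G ≤ (Subgroup.closure (Set.range fun x : L => ex (LinearMap.toMatrix b b (LieAlgebra.ad ℝ L x)))).topologicalClosure)
    (Γ : Subgroup G) (hΓ : DiscreteTopology Γ) :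
    ∃ ρ : PRep Γ n, ∀ g, ∃ A : Matrix (Fin n) (Fin n) 𝕜, ρ.ι g = A.map φ := rep_adj φ hφ hn (slId f) b hGc hG Γ hΓ

/-- The adjoint group of `sl(n, ℂ)`. -/
theorem rep_adjC (hn : 2 ≤ n) (f : L ≃ₗ⁅ℝ⁆ slR n ℂ)
    (b : Module.Basis (Fin N) ℝ L) {G : Subgroup (GL (Fin N) ℝ)} (hGc : IsClosed (G : Set (GL (Fin N) ℝ)))
    (hG : G ≤ (Subgroup.closure (Set.range fun x : L => ex (LinearMap.toMatrix b b (LieAlgebra.ad ℝ L x)))).topologicalClosure)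
    (Γ : Subgroup G) (hΓ : DiscreteTopology Γ) : Nonempty (PRep Γ n) := by
  obtain ⟨ρ, -⟩ := rep_slR (RingHom.id ℂ) (fun x => by simp) hn f b hGc hG Γ hΓ
  exact ⟨ρ⟩

/-- The adjoint group of `sl(n, ℝ)`. -/
theorem rep_adjR (hn : 2 ≤ n) (f : L ≃ₗ⁅ℝ⁆ LieAlgebra.SpecialLinear.sl (Fin n) ℝ)
    (b : Module.Basis (Fin N) ℝ L) {G : Subgroup (GL (Fin N) ℝ)} (hGc : IsClosed (G : Set (GL (Fin N) ℝ)))
    (hG : G ≤ (Subgroup.closure (Set.range fun x : L => ex (LinearMap.toMatrix b b (LieAlgebra.ad ℝ L x)))).topologicalClosure)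
    (Γ : Subgroup G) (hΓ : DiscreteTopology Γ) :
    ∃ ρ : PRep Γ n, ∀ g, cjM (ρ.ph.ι g) = ρ.ph.ι g := by
  obtain ⟨ρ, hρ⟩ := rep_slR (algebraMap ℝ ℂ) (fun x => by simp) hn (f.trans (slR_equiv n).symm) b hGc hG Γ hΓ
  refine ⟨ρ, fun g => ?_⟩
  obtain ⟨A, hA⟩ := hρ g
  change cjM (ρ.ι g) = ρ.ι g
  rw [hA]
  ext i j
  rw [cjM_apply, map_apply]
  exact Complex.conj_ofReal _

end Pool.Agent.Helper55.TZ
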