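import Pool.Agent.Helper9.FP.Fr1

/-!
# Project TZ (MP_0f6f3f_an): the lower right block of the parabolic subgroup is unitary up to a scalar

`hU_one`: blocks of size one (real and complex matrices, `q + 2 = N`); `hU_H`: quaternionic matrices, `q + 3 = N`.
-/

set_option autoImplicit false
set_option linter.unusedSectionVars false

open Filter Topology Matrix
open scoped ComplexOrder

namespace Pool.Agent.Helper55.TZ

open Pool.Agent.Helper90.RK Pool.Agent.Helper84.NI Pool.Agent.Helper78.BI Pool.Agent.Helper9.Fra Pool.Agent.Helper9.Lin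

variable {N : ℕ} {q : Fin N}

theorem EE_apply (A : MN N) (i j : Fin N) : (Ee q * A * Ee q) i j = if j ≤ q then 0 else if i ≤ q then 0 else A i j := by
  rw [mul_Ee_apply, Ee_mul_apply]

theorem EE_mul {A B : MN N} (hA : Lb q A) (h : A * B = 1) : (Ee q * A * Ee q) * (Ee q * B * Ee q) = Ee q := by
  have h1 : Ef q * B * Ee q = 0 := hA.inv h
  calc (Ee q * A * Ee q) * (Ee q * B * Ee q) = Ee q * A * (Ee q * Ee q) * B * Ee q := by simp only [Matrix.mul_assoc]
    _ = Ee q * A * (1 - Ef q) * B * Ee q := by rw [Ee_Ee, ← Ee_eq]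
    _ = Ee q * (A * B) * Ee q - Ee q * A * (Ef q * B * Ee q) := by
        rw [Matrix.mul_sub, Matrix.mul_one, Matrix.sub_mul, Matrix.sub_mul]
        simp only [Matrix.mul_assoc]
    _ = Ee q := by rw [h, h1, Matrix.mul_one, Matrix.mul_zero, sub_zero, Ee_Ee]

theorem pos_e {Y Y' : MN N} {e : ℝ} (he : 0 ≤ e) (h : Yᴴ * Y = (e : ℂ) • Ee q) (h' : Y * Y' = Ee q) {i : Fin N} (hi : q < i) :
    0 < e := by
  refine lt_of_le_of_ne he fun h0 => ?_
  rw [← h0, Complex.ofReal_zero, zero_smul, Matrix.conjTranspose_mul_self_eq_zero] at h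
  rw [h, Matrix.zero_mul] at h'
  have h1 := congrFun (congrFun h' i) i
  unfold Ee at h1
  rw [diagonal_apply_eq, if_neg (not_le.2 hi)] at h1
  exact zero_ne_one h1

/-- Blocks of size one. -/
theorem hU_one (s : Sg N q) (hq : (q : ℕ) + 2 = N) (g : s.M) (hg : Lb q (s.mt g)) :
    ∃ e : ℝ, 0 < e ∧ (Ee q * s.mt g * Ee q)ᴴ * (Ee q * s.mt g * Ee q) = (e : ℂ) • Ee q := by
  obtain ⟨i0, hi0⟩ : ∃ i0 : Fin N, (i0 : ℕ) = q + 1 := ⟨⟨q + 1, by omega⟩, rfl⟩
  have hlt : q < i0 := by
    rw [Fin.lt_def]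
    omega
  have huniq : ∀ i : Fin N, ¬ i ≤ q → i = i0 := by
    intro i hi
    have := i.2
    rw [Fin.le_def] at hi
    exact Fin.ext (by omega)
  have h1 : (Ee q * s.mt g * Ee q)ᴴ * (Ee q * s.mt g * Ee q) = ((‖s.mt g i0 i0‖ ^ 2 : ℝ) : ℂ) • Ee q := by
    ext i j
    rw [Matrix.mul_apply, Matrix.smul_apply, smul_eq_mul]
    simp only [Matrix.conjTranspose_apply, EE_apply]
    unfold Ee
    rw [diagonal_apply]
    by_cases hj : j ≤ q
    · simp only [if_pos hj, mul_zero, Finset.sum_const_zero]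
      split_ifs with h2 h3
      · rw [mul_zero]
      · exact absurd (by rw [h2]; exact hj) h3
      · rw [mul_zero]
    · by_cases hi : i ≤ q
      · simp only [if_pos hi, star_zero, zero_mul, Finset.sum_const_zero]
        rw [if_neg (fun h2 : i = j => hj (by rw [← h2]; exact hi)), mul_zero]
      · have hij : i = j := (huniq i hi).trans (huniq j hj).symm
        subst hij
        rw [if_pos rfl, if_neg hi, mul_one, Finset.sum_eq_single i0]
        · simp only [if_neg hi, if_neg (not_le.2 hlt)]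
          rw [huniq i hi, RCLike.star_def, Complex.conj_mul']
          push_cast
          rfl
        · intro k _ hk
          have h2 : k ≤ q := by
            by_contra h2
            exact hk (huniq k h2)
          simp only [if_neg hi, if_pos h2, mul_zero]
        · intro h2
          exact absurd (Finset.mem_univ _) h2
  exact ⟨_, pos_e (sq_nonneg _) h1 (EE_mul hg (s.mt_mul_inv g)) hlt, h1⟩

/-- Quaternionic matrices. -/
theorem hU_H (hN : Even N) (hq : Odd (q : ℕ)) (hq' : (q : ℕ) + 3 = N) (g : (sgH N q hN hq).M) (hg : Lb q ((sgH N q hN hq).mt g)) :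
    ∃ e : ℝ, 0 < e ∧ (Ee q * (sgH N q hN hq).mt g * Ee q)ᴴ * (Ee q * (sgH N q hN hq).mt g * Ee q) = (e : ℂ) • Ee q := by
  obtain ⟨r, hr⟩ := hq
  obtain ⟨i0, hi0⟩ : ∃ i0 : Fin N, (i0 : ℕ) = q + 1 := ⟨⟨q + 1, by omega⟩, rfl⟩
  obtain ⟨i1, hi1⟩ : ∃ i1 : Fin N, (i1 : ℕ) = q + 2 := ⟨⟨q + 2, by omega⟩, rfl⟩
  have hlt0 : ¬ i0 ≤ q := by
    rw [Fin.le_def]
    omega
  have hlt1 : ¬ i1 ≤ q := by
    rw [Fin.le_def]
    omega
  have hne : i0 ≠ i1 := fun h => by
    have := congrArg Fin.val h
    omega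
  have huniq : ∀ i : Fin N, ¬ i ≤ q → i = i0 ∨ i = i1 := by
    intro i hi
    have := i.2
    rw [Fin.le_def] at hi
    rcases (by omega : (i : ℕ) = q + 1 ∨ (i : ℕ) = q + 2) with h | h
    · exact Or.inl (Fin.ext (by omega))
    · exact Or.inr (Fin.ext (by omega))
  have hp0 : pt hN i0 = i1 := by
    apply Fin.ext
    rw [pt_even hN (by omega)]
    omega
  have hp1 : pt hN i1 = i0 := by rw [← hp0, pt_pt]
  have he0 : ep i0 = -1 := by
    unfold ep
    rw [if_pos (by omega)]
  have he1 : ep i1 = 1 := by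
    unfold ep
    rw [if_neg (by omega)]
  obtain ⟨A, hA⟩ : ∃ A : MN N, A = (sgH N q hN ⟨r, hr⟩).mt g := ⟨_, rfl⟩
  have hσ : JH N * cjM A = A * JH N := by
    have h1 : JH N * cjM A * (JH N)ᴴ = A := by
      rw [hA]
      exact (sgH N q hN ⟨r, hr⟩).σ_mt g
    have h2 : (JH N)ᴴ * JH N = 1 := mul_eq_one_comm.1 (JH_unit hN)
    conv_rhs => rw [← h1]
    rw [Matrix.mul_assoc, h2, Matrix.mul_one]
  have hent : ∀ i k : Fin N, ep i * (starRingEnd ℂ) (A (pt hN i) k) = -ep k * A i (pt hN k) := by
    intro i k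
    have h1 := congrFun (congrFun hσ i) k
    rwa [JH_mul hN, mul_JH hN, cjM_apply] at h1
  have h01 : A i0 i1 = -(starRingEnd ℂ) (A i1 i0) := by
    have h1 := hent i0 i0
    rw [hp0, he0] at h1
    linear_combination -h1
  have h00 : A i0 i0 = (starRingEnd ℂ) (A i1 i1) := by
    have h1 := hent i0 i1
    rw [hp0, hp1, he0, he1] at h1
    linear_combination h1
  rw [← hA] at hg ⊢
  have h1 : (Ee q * A * Ee q)ᴴ * (Ee q * A * Ee q) = ((‖A i1 i1‖ ^ 2 + ‖A i1 i0‖ ^ 2 : ℝ) : ℂ) • Ee q := by
    ext i j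
    rw [Matrix.mul_apply, Matrix.smul_apply, smul_eq_mul]
    simp only [Matrix.conjTranspose_apply, EE_apply]
    unfold Ee
    rw [diagonal_apply]
    by_cases hj : j ≤ q
    · simp only [if_pos hj, mul_zero, Finset.sum_const_zero]
      split_ifs with h2 h3
      · rw [mul_zero]
      · exact absurd (by rw [h2]; exact hj) h3
      · rw [mul_zero]
    · by_cases hi : i ≤ q
      · simp only [if_pos hi, star_zero, zero_mul, Finset.sum_const_zero]
        rw [if_neg (fun h2 : i = j => hj (by rw [← h2]; exact hi)), mul_zero]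
      · rw [Finset.sum_eq_add i0 i1 hne]
        · simp only [if_neg hi, if_neg hj, if_neg hlt0, if_neg hlt1, RCLike.star_def]
          rcases huniq i hi with rfl | rfl <;> rcases huniq j hj with rfl | rfl
          · rw [if_pos rfl, h00, Complex.conj_conj, Complex.mul_conj', Complex.conj_mul', mul_one]
            push_cast
            rfl
          · rw [if_neg hne, h01, h00, Complex.conj_conj]
            ring
          · rw [if_neg hne.symm, h01, h00, map_neg, Complex.conj_conj]
            ring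
          · rw [if_pos rfl, h01, map_neg, Complex.conj_conj, neg_mul_neg, Complex.mul_conj', Complex.conj_mul', mul_one]
            push_cast
            ring
        · intro k _ hk
          have h2 : k ≤ q := by
            by_contra h2
            rcases huniq k h2 with h3 | h3
            · exact hk.1 h3
            · exact hk.2 h3
          simp only [if_neg hj, if_pos h2, mul_zero]
        · intro h2
          exact absurd (Finset.mem_univ _) h2
        · intro h2
          exact absurd (Finset.mem_univ _) h2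
  have h2 : A * (sgH N q hN ⟨r, hr⟩).mt g⁻¹ = 1 := by
    rw [hA]
    exact (sgH N q hN ⟨r, hr⟩).mt_mul_inv g
  exact ⟨_, pos_e (by positivity) h1 (EE_mul hg h2) (not_le.1 hlt0), h1⟩

end Pool.Agent.Helper55.TZ
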