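import Pool.Agent.Helper78.BI.Fr
import Pool.Agent.Helper55.FP.Src
import Pool.Agent.Helper90.RK.AM
import Pool.Agent.Helper90.RK.Ql

/-!
# Project TZ (MP_0f6f3f_an): the block map is open, the action of the discrete group is amenable

`isOpenMap_nb : IsOpenMap s.geo.nb`.
`amn_geo`: `Amn B` for the boundary data over `s.geo` (the lower right block of the parabolic subgroup is unitary up to a scalar: `hU`): the densities of `am_PH` at the flags of `g D`, averaged over
the compact group of the unitary elements `D` which are the identity on the block.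
-/

set_option autoImplicit false
set_option linter.unusedSectionVars false

open Filter Topology Matrix MeasureTheory

namespace Pool.Agent.Helper55.TZ

open Pool.Agent.Helper90.RK Pool.Agent.Helper84.NI Pool.Agent.Helper9 Pool.Agent.Helper35.FP Pool.Agent.Helper78.BI
open Pool.Agent.Helper55.FP

section Open

theorem isOpenMap_of_section {A B : Type} [Group A] [TopologicalSpace A] [ContinuousMul A] [Group B] [TopologicalSpace B]
    [ContinuousMul B] (f : A →* B) (σ : B → A) (hσ : Continuous σ) (h : ∀ b, f (σ b) = b) : IsOpenMap f := by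
  rw [isOpenMap_iff_nhds_le]
  intro a
  have h1 : Continuous fun b : B => σ (b * (f a)⁻¹) * (σ 1)⁻¹ * a :=
    ((hσ.comp (continuous_mul_const _)).mul continuous_const).mul continuous_const
  have h2 : Tendsto (fun b : B => σ (b * (f a)⁻¹) * (σ 1)⁻¹ * a) (𝓝 (f a)) (𝓝 a) := by
    have h3 := h1.tendsto (f a)
    rwa [mul_inv_cancel, mul_inv_cancel, one_mul] at h3
  have h4 : (f : A → B) ∘ (fun b : B => σ (b * (f a)⁻¹) * (σ 1)⁻¹ * a) = id := by
    funext b
    change f (σ (b * (f a)⁻¹) * (σ 1)⁻¹ * a) = b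
    rw [map_mul, map_mul, map_inv, h, h, inv_one, mul_one, inv_mul_cancel_right]
  calc 𝓝 (f a) = map ((f : A → B) ∘ (fun b : B => σ (b * (f a)⁻¹) * (σ 1)⁻¹ * a)) (𝓝 (f a)) := by rw [h4, Filter.map_id]
    _ = map f (map (fun b : B => σ (b * (f a)⁻¹) * (σ 1)⁻¹ * a) (𝓝 (f a))) := map_map.symm
    _ ≤ map f (𝓝 a) := map_mono h2

variable {N : ℕ} {q : Fin N} (s : Sg N q)

theorem continuous_emb : Continuous (emb q) := by
  refine continuous_pi fun i => continuous_pi fun j => ?_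
  unfold emb
  split_ifs with h
  · exact continuous_id.matrix_elem _ _
  · exact continuous_const

theorem embE_mul (h : Lin.Sh s.low) : (emb q (Lin.mat h) + Ee q) * (emb q (Lin.mat h⁻¹) + Ee q) = 1 := by
  rw [Matrix.add_mul, Matrix.mul_add, Matrix.mul_add, ← emb_mul, Lin.mat_mul_inv, emb_one, Ee_Ee]
  have h2 : emb q (Lin.mat h) * Ee q = 0 := by rw [← emb_mul_Ef, Matrix.mul_assoc, Ef_Ee, Matrix.mul_zero]
  have h3 : Ee q * emb q (Lin.mat h⁻¹) = 0 := by rw [← Ef_emb, ← Matrix.mul_assoc, Ee_Ef, Matrix.zero_mul]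
  rw [h2, h3, add_zero, zero_add, Ef_add_Ee]

theorem σ_embE (h : Lin.Sh s.low) : s.σ (emb q (Lin.mat h) + Ee q) = emb q (Lin.mat h) + Ee q := by
  rw [s.add, s.σ_emb (Lin.sig_mat h), s.blk']

theorem cor_embE (h : Lin.Sh s.low) : cor q (emb q (Lin.mat h) + Ee q) = Lin.mat h := by
  rw [cor_add, cor_emb]
  have : cor q (Ee q) = 0 := by rw [← cor_Ef, Ef_Ee, Matrix.zero_mul]; rfl
  rw [this, add_zero]

theorem bk_embE (h : Lin.Sh s.low) : Pool.Agent.Helper78.BI.bk q (emb q (Lin.mat h) + Ee q) = emb q (Lin.mat h) + Ee q := by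
  rw [bk_eq, cor_embE]

/-- The section of the normalised block. -/
noncomputable def seh (h : Lin.Sh s.low) : s.Qh :=
  ⟨s.mkm _ _ (embE_mul s h) (σ_embE s h), by
    change Lb q (emb q (Lin.mat h) + Ee q)
    rw [← bk_embE]
    exact lb_bk _⟩

theorem nbl_seh (h : Lin.Sh s.low) : s.nbl (seh s h) = h := by
  refine Lin.mat_injective ?_
  rw [Sg.mat_nbl]
  change cor q (nu q (emb q (Lin.mat h) + Ee q)) = Lin.mat h
  have h8 : Pool.Agent.Helper78.BI.dt q (emb q (Lin.mat h) + Ee q) = 1 := by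
    unfold Pool.Agent.Helper78.BI.dt
    rw [det_bk, cor_embE, Lin.norm_det, Real.one_rpow]
  unfold nu
  rw [h8, inv_one, sc_one, Matrix.one_mul, bk_embE, cor_embE]

theorem continuous_seh : Continuous (seh s) := by
  refine Continuous.subtype_mk (f := fun h => ((seh s h : s.Qh) : s.M)) ?_ _
  refine s.continuous_to ?_ ?_
  · change Continuous fun h : Lin.Sh s.low => emb q (Lin.mat h) + Ee q
    exact (continuous_emb.comp Lin.isClosedEmbedding_mat.continuous).add continuous_const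
  · change Continuous fun h : Lin.Sh s.low => emb q (Lin.mat h⁻¹) + Ee q
    exact (continuous_emb.comp (Lin.isClosedEmbedding_mat.continuous.comp continuous_inv)).add continuous_const

theorem isOpenMap_nbl : IsOpenMap s.nbl := isOpenMap_of_section s.nbl (seh s) (continuous_seh s) (nbl_seh s)

theorem isOpenMap_nb0 : IsOpenMap s.nb0 := (QuotientGroup.isOpenMap_coe (N := Lin.Zc s.low)).comp (isOpenMap_nbl s)

/-- The block map is open. -/
theorem isOpenMap_nb : IsOpenMap s.geo.nb := by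
  intro W hW
  have h1 : s.geo.nb '' W = s.nb0 '' (s.prQ ⁻¹' W) := by
    ext x
    constructor
    · rintro ⟨y, hy, rfl⟩
      obtain ⟨g, rfl⟩ := s.prQ_surj y
      exact ⟨g, hy, (s.nbG_prQ g).symm⟩
    · rintro ⟨g, hg, rfl⟩
      exact ⟨s.prQ g, hg, s.nbG_prQ g⟩
  rw [h1]
  exact isOpenMap_nb0 s _ (hW.preimage s.continuous_prQ)

end Open

section Tri

variable {N : ℕ}

/-- lower triangular -/
def Lt (A : MN N) : Prop := ∀ i j : Fin N, i < j → A i j = 0

theorem lt_iff {A : MN N} : Lt A ↔ A.BlockTriangular OrderDual.toDual := by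
  constructor
  · intro h i j hij
    exact h i j hij
  · intro h i j hij
    exact h hij

theorem Lt.mul {A B : MN N} (hA : Lt A) (hB : Lt B) : Lt (A * B) := lt_iff.2 ((lt_iff.1 hA).mul (lt_iff.1 hB))

theorem Lt.inv {A B : MN N} (hA : Lt A) (h : A * B = 1) : Lt B := by
  have h1 : A⁻¹ = B := Matrix.inv_eq_right_inv h
  have : Invertible A := invertibleOfRightInverse A B h
  rw [← h1]
  exact lt_iff.2 (Matrix.blockTriangular_inv_of_blockTriangular (lt_iff.1 hA))

theorem Lt.smul {A : MN N} (hA : Lt A) (c : ℂ) : Lt (c • A) := fun i j hij => by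
  rw [Matrix.smul_apply, hA i j hij, smul_zero]

theorem isU_mem {U : MN N} (h : IsU U) : U ∈ Matrix.unitaryGroup (Fin N) ℂ := Matrix.mem_unitaryGroup_iff'.2 h

theorem isU_entry {U : MN N} (h : IsU U) (i j : Fin N) : ‖U i j‖ ≤ 1 := entry_norm_bound_of_unitary (isU_mem h) i j

theorem isU_mul_star {U : MN N} (h : IsU U) : U * Uᴴ = 1 := mul_eq_one_comm.1 h

theorem isU_star {U : MN N} (h : IsU U) : IsU Uᴴ := by
  change Uᴴᴴ * Uᴴ = 1
  rw [conjTranspose_conjTranspose]
  exact isU_mul_star h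

/-- Entries of a product with unitary factors. -/
theorem entry_le {U V M : MN N} (hU : IsU U) (hV : IsU V) (i j : Fin N) :
    ‖(U * M * V) i j‖ ≤ ∑ k, ∑ l, ‖M k l‖ := by
  rw [Matrix.mul_apply]
  refine (norm_sum_le _ _).trans ?_
  rw [Finset.sum_comm]
  refine Finset.sum_le_sum fun l _ => ?_
  rw [norm_mul]
  refine (mul_le_of_le_one_right (norm_nonneg _) (isU_entry hV l j)).trans ?_
  rw [Matrix.mul_apply]
  refine (norm_sum_le _ _).trans (Finset.sum_le_sum fun k _ => ?_)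
  rw [norm_mul]
  exact mul_le_of_le_one_left (norm_nonneg _) (isU_entry hU i k)

variable {ql : MN N → MN N} (h1 : ∀ A, IsU (ql A)) (h2 : ∀ A : MN N, A.det ≠ 0 → Lt ((ql A)ᴴ * A))

theorem det_ne {A B : MN N} (h : A * B = 1) : A.det ≠ 0 := by
  intro h0
  have := congrArg Matrix.det h
  rw [det_mul, h0, zero_mul, det_one] at this
  exact zero_ne_one this

include h1 h2 in
theorem lt_inv_ql {A B : MN N} (h : A * B = 1) : Lt (B * ql A) := by
  refine (h2 A (det_ne h)).inv ?_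
  calc (ql A)ᴴ * A * (B * ql A) = (ql A)ᴴ * (A * B) * ql A := by simp only [Matrix.mul_assoc]
    _ = 1 := by rw [h, Matrix.mul_one]; exact h1 A

include h1 h2 in
/-- The flags depend continuously on the matrix. -/
theorem near {A A' B B' : MN N} (h : A * B = 1) (h' : A' * B' = 1) (i j : Fin N) (hij : i < j) :
    ‖((ql A')ᴴ * ql A) i j‖ ≤ ∑ k, ∑ l, ‖(1 - A' * B) k l‖ := by
  have e : (ql A')ᴴ * ql A = (ql A')ᴴ * (1 - A' * B) * ql A + ((ql A')ᴴ * A') * (B * ql A) := by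
    rw [Matrix.mul_sub, Matrix.mul_one, Matrix.sub_mul]
    have : (ql A')ᴴ * (A' * B) * ql A = ((ql A')ᴴ * A') * (B * ql A) := by simp only [Matrix.mul_assoc]
    rw [this]
    abel
  have h3 : (((ql A')ᴴ * A') * (B * ql A)) i j = 0 :=
    ((h2 A' (det_ne h')).mul (lt_inv_ql h1 h2 h)) i j hij
  rw [e, Matrix.add_apply, h3, add_zero]
  exact entry_le (isU_star (h1 A')) (h1 A) i j

theorem sqrt_sub_sq_le {a b : ℝ} (ha : 0 ≤ a) (hb : 0 ≤ b) : (√a - √b) ^ 2 ≤ |a - b| := by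
  have h1 : |√a - √b| ≤ |√a + √b| := by
    rw [abs_of_nonneg (add_nonneg (Real.sqrt_nonneg a) (Real.sqrt_nonneg b))]
    rw [abs_le]
    constructor <;> linarith [Real.sqrt_nonneg a, Real.sqrt_nonneg b]
  calc (√a - √b) ^ 2 = |√a - √b| * |√a - √b| := by rw [← sq_abs, _root_.sq]
    _ ≤ |√a - √b| * |√a + √b| := mul_le_mul_of_nonneg_left h1 (abs_nonneg _)
    _ = |(√a - √b) * (√a + √b)| := (abs_mul _ _).symm
    _ = |a - b| := by
        congr 1
        calc (√a - √b) * (√a + √b) = √a * √a - √b * √b := by ring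
          _ = a - b := by rw [Real.mul_self_sqrt ha, Real.mul_self_sqrt hb]

end Tri

section Am

variable {N : ℕ} {q : Fin N} (s : Sg N q)

/-- The compact group: the unitary elements which are the identity on the block. -/
noncomputable def CU : Subgroup s.M where
  carrier := {D | IsU (s.mt D) ∧ Ef q * s.mt D = Ef q ∧ s.mt D * Ef q = Ef q}
  mul_mem' {a b} ha hb := by
    obtain ⟨a1, a2, a3⟩ := ha
    obtain ⟨b1, b2, b3⟩ := hb
    refine ⟨isU_mul a1 b1, ?_, ?_⟩
    · rw [Sg.mt_mul, ← Matrix.mul_assoc, a2, b2]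
    · rw [Sg.mt_mul, Matrix.mul_assoc, b3, a3]
  one_mem' := ⟨by
    change (1 : MN N)ᴴ * 1 = 1
    rw [conjTranspose_one, Matrix.one_mul], by rw [Sg.mt_one, Matrix.mul_one], by rw [Sg.mt_one, Matrix.one_mul]⟩
  inv_mem' {a} ha := by
    obtain ⟨a1, a2, a3⟩ := ha
    have e : s.mt a⁻¹ = (s.mt a)ᴴ := by
      have h1 : (s.mt a)ᴴ * s.mt a = 1 := a1
      calc s.mt a⁻¹ = (s.mt a)ᴴ * s.mt a * s.mt a⁻¹ := by rw [h1, Matrix.one_mul]
        _ = _ := by rw [Matrix.mul_assoc, s.mt_mul_inv, Matrix.mul_one]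
    refine ⟨by rw [e]; exact isU_star a1, ?_, ?_⟩
    · have := congrArg conjTranspose a3
      rwa [conjTranspose_mul, Ef_star, ← e] at this
    · have := congrArg conjTranspose a2
      rwa [conjTranspose_mul, Ef_star, ← e] at this

theorem compact_CU : IsCompact (CU s : Set s.M) := by
  refine s.isCompact_UU.of_isClosed_subset ?_ (fun D hD => hD.1)
  have h1 : Continuous fun g : s.M => (s.mt g)ᴴ * s.mt g := s.continuous_mt.matrix_conjTranspose.mul s.continuous_mt
  have h2 : Continuous fun g : s.M => Ef q * s.mt g := continuous_const.mul s.continuous_mt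
  have h3 : Continuous fun g : s.M => s.mt g * Ef q := s.continuous_mt.mul continuous_const
  exact (isClosed_eq h1 continuous_const).inter ((isClosed_eq h2 continuous_const).inter (isClosed_eq h3 continuous_const))

instance compactSpace_CU : CompactSpace (CU s) := isCompact_iff_compactSpace.1 (compact_CU s)

noncomputable instance measurableSpace_CU : MeasurableSpace (CU s) := borel _

instance borelSpace_CU : BorelSpace (CU s) := ⟨rfl⟩

/-- There is an invariant probability measure. -/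
theorem exists_haarCU : ∃ μ : Measure (CU s), IsProbabilityMeasure μ ∧ μ.IsMulLeftInvariant := by
  refine ⟨Measure.haarMeasure ⊤, ⟨?_⟩, inferInstance⟩
  have h := Measure.haarMeasure_self (K₀ := (⊤ : TopologicalSpace.PositiveCompacts (CU s)))
  simpa using h

instance firstCountable_M : FirstCountableTopology s.M := by
  have i1 : FirstCountableTopology (MN N) := inferInstanceAs (FirstCountableTopology (Fin N → Fin N → ℂ))
  have i2 : FirstCountableTopology (MN N)ᵐᵒᵖ :=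
    (MulOpposite.opHomeomorph (M := MN N)).symm.isInducing.firstCountableTopology
  exact ((Units.isInducing_embedProduct (M := MN N)).comp IsInducing.subtypeVal).firstCountableTopology

variable {G : Type} [Group G] {ql : MN N → MN N} (h1 : ∀ A, IsU (ql A)) (h2 : ∀ A : MN N, A.det ≠ 0 → Lt ((ql A)ᴴ * A))
  {A : Finset G} {κ : MN N → G → ℝ}
  (k0 : ∀ k t, 0 ≤ κ k t) (kA : ∀ k t, t ∉ A → κ k t = 0) (kS : ∀ k, IsU k → ∑ t ∈ A, κ k t = 1)
  (kc : ∀ ε' : ℝ, 0 < ε' → ∃ d' : ℝ, 0 < d' ∧ ∀ k k' : MN N, IsU k → IsU k' →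
    (∀ i j : Fin N, i < j → ‖(kᴴ * k') i j‖ ≤ d') → ∑ t ∈ A, |κ k t - κ k' t| ≤ ε')

include kA kc in
/-- The densities depend only on the flag. -/
theorem κ_flag {k k' : MN N} (hk : IsU k) (hk' : IsU k') (h : Lt (kᴴ * k')) (t : G) : κ k t = κ k' t := by
  by_cases ht : t ∈ A
  · have h3 : |κ k t - κ k' t| ≤ 0 := by
      refine le_of_forall_pos_le_add fun ε hε => ?_
      obtain ⟨d', hd', h4⟩ := kc ε hε
      rw [zero_add]
      refine (Finset.single_le_sum (f := fun t => |κ k t - κ k' t|) (fun _ _ => abs_nonneg _) ht).trans ?_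
      refine h4 k k' hk hk' fun i j hij => ?_
      rw [h i j hij, norm_zero]
      exact hd'.le
    exact sub_eq_zero.1 (abs_eq_zero.1 (le_antisymm h3 (abs_nonneg _)))
  · rw [kA k t ht, kA k' t ht]

include h1 h2 kA kc in
theorem continuous_F (t : G) : Continuous fun g : s.M => κ (ql (s.mt g)) t := by
  by_cases ht : t ∈ A
  · rw [continuous_iff_continuousAt]
    intro g
    rw [ContinuousAt, Metric.tendsto_nhds]
    intro ε hε
    obtain ⟨d', hd', h4⟩ := kc (ε / 2) (half_pos hε)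
    have hc : Continuous fun g' : s.M => ∑ k, ∑ l, ‖(1 - s.mt g' * s.mt g⁻¹) k l‖ := by
      refine continuous_finsetSum _ fun k _ => continuous_finsetSum _ fun l _ => ?_
      exact ((continuous_const.sub (s.continuous_mt.mul continuous_const)).matrix_elem k l).norm
    have h5 := hc.tendsto g
    have h6 : ∑ k, ∑ l, ‖((1 : MN N) - s.mt g * s.mt g⁻¹) k l‖ = 0 := by
      rw [s.mt_mul_inv, sub_self]
      simp
    rw [h6] at h5
    filter_upwards [h5.eventually (gt_mem_nhds hd')] with g' hg'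
    rw [Real.dist_eq]
    calc |κ (ql (s.mt g')) t - κ (ql (s.mt g)) t|
        ≤ ∑ t ∈ A, |κ (ql (s.mt g')) t - κ (ql (s.mt g)) t| :=
          Finset.single_le_sum (f := fun t => |κ (ql (s.mt g')) t - κ (ql (s.mt g)) t|) (fun _ _ => abs_nonneg _) ht
      _ ≤ ε / 2 := h4 _ _ (h1 _) (h1 _) fun i j hij =>
          (near h1 h2 (s.mt_mul_inv g) (s.mt_mul_inv g') i j hij).trans hg'.le
      _ < ε := half_lt_self hε
  · have : (fun g : s.M => κ (ql (s.mt g)) t) = fun _ => 0 := funext fun g => kA _ t ht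
    rw [this]
    exact continuous_const

include h1 h2 kA kc in
theorem F_mul (t : G) (g x : s.M) (hx : Lt (s.mt x)) : κ (ql (s.mt (g * x))) t = κ (ql (s.mt g)) t := by
  refine κ_flag kA kc (h1 _) (h1 _) ?_ t
  have e : (ql (s.mt (g * x)))ᴴ * ql (s.mt g) = ((ql (s.mt (g * x)))ᴴ * s.mt (g * x)) * (s.mt x⁻¹ * (s.mt g⁻¹ * ql (s.mt g))) := by
    have e1 : s.mt (g * x) * s.mt x⁻¹ * s.mt g⁻¹ = 1 := by
      rw [← Sg.mt_mul, ← Sg.mt_mul, mul_inv_cancel_right, mul_inv_cancel, Sg.mt_one]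
    calc (ql (s.mt (g * x)))ᴴ * ql (s.mt g)
        = (ql (s.mt (g * x)))ᴴ * (s.mt (g * x) * s.mt x⁻¹ * s.mt g⁻¹) * ql (s.mt g) := by rw [e1, Matrix.mul_one]
      _ = _ := by simp only [Matrix.mul_assoc]
  rw [e]
  exact (h2 _ (det_ne (s.mt_mul_inv _))).mul ((hx.inv (s.mt_mul_inv x)).mul (lt_inv_ql h1 h2 (s.mt_mul_inv g)))

include k0 kA kS in
theorem κ_le {k : MN N} (hk : IsU k) (t : G) : κ k t ≤ 1 := by
  by_cases ht : t ∈ A
  · rw [← kS k hk]
    exact Finset.single_le_sum (f := fun t => κ k t) (fun t _ => k0 k t) ht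
  · rw [kA k t ht]
    exact zero_le_one

variable (μ : Measure (CU s)) [IsProbabilityMeasure μ] [μ.IsMulLeftInvariant]

include h1 h2 k0 kA kS kc in
theorem integrable_F (t : G) (g : s.M) : Integrable (fun D : CU s => κ (ql (s.mt (g * D))) t) μ := by
  have hc : Continuous fun D : CU s => κ (ql (s.mt (g * D))) t :=
    (continuous_F s h1 h2 kA kc t).comp (continuous_const.mul continuous_subtype_val)
  refine (integrable_const (1 : ℝ)).mono' hc.aestronglyMeasurable (ae_of_all _ fun D => ?_)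
  rw [Real.norm_eq_abs, abs_of_nonneg (k0 _ _)]
  exact κ_le k0 kA kS (h1 _) t

variable (ql κ) in
/-- The averages. -/
noncomputable def fav (t : G) (g : s.M) : ℝ := ∫ D, κ (ql (s.mt (g * (D : CU s)))) t ∂μ

include k0 in
theorem fav_nonneg (t : G) (g : s.M) : 0 ≤ fav s ql κ μ t g := integral_nonneg fun _ => k0 _ _

include kA in
theorem fav_zero {t : G} (ht : t ∉ A) (g : s.M) : fav s ql κ μ t g = 0 := by
  unfold fav
  rw [integral_congr_ae (ae_of_all _ fun D => kA _ t ht), integral_zero]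

include h1 h2 k0 kA kS kc in
theorem continuous_fav (t : G) : Continuous (fav s ql κ μ t) := by
  refine continuous_of_dominated (bound := fun _ => (1 : ℝ)) (fun g => ?_) (fun g => ?_) (integrable_const _) ?_
  · exact (integrable_F s h1 h2 k0 kA kS kc μ t g).aestronglyMeasurable
  · refine ae_of_all _ fun D => ?_
    rw [Real.norm_eq_abs, abs_of_nonneg (k0 _ _)]
    exact κ_le k0 kA kS (h1 _) t
  · exact ae_of_all _ fun D => (continuous_F s h1 h2 kA kc t).comp (continuous_mul_const _)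

include h1 h2 k0 kA kS kc in
theorem fav_sum (g : s.M) : ∑ t ∈ A, fav s ql κ μ t g = 1 := by
  unfold fav
  rw [← integral_finsetSum _ fun t _ => integrable_F s h1 h2 k0 kA kS kc μ t g,
    integral_congr_ae (ae_of_all _ fun D => kS _ (h1 _))]
  simp

include h1 h2 kA kc in
/-- The invariance. -/
theorem fav_inv (hU : ∀ g : s.M, Lb q (s.mt g) → ∃ e : ℝ, 0 < e ∧
    (Ee q * s.mt g * Ee q)ᴴ * (Ee q * s.mt g * Ee q) = (e : ℂ) • Ee q) (t : G) (g : s.M) (x : s.Qh) {c : ℂ}
    (hx : cor q (nu q (s.mt x)) = c • 1) : fav s ql κ μ t (g * x) = fav s ql κ μ t g := by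
  obtain ⟨e, he, hE⟩ := hU x x.2
  have he0 : ((Real.sqrt e : ℝ) : ℂ) ≠ 0 := Complex.ofReal_ne_zero.2 (Real.sqrt_pos.2 he).ne'
  have hee : ((Real.sqrt e : ℝ) : ℂ) * ((Real.sqrt e : ℝ) : ℂ) = (e : ℂ) := by
    rw [← Complex.ofReal_mul, Real.mul_self_sqrt he.le]
  -- the element `D0`
  obtain ⟨Y, hY⟩ : ∃ Y : MN N, Y = Ee q * s.mt x * Ee q := ⟨_, rfl⟩
  rw [← hY] at hE
  have y1 : Ee q * Y = Y := by rw [hY, ← Matrix.mul_assoc, ← Matrix.mul_assoc, Ee_Ee]
  have y2 : Y * Ee q = Y := by rw [hY, Matrix.mul_assoc _ (Ee q) (Ee q), Ee_Ee]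
  have y3 : Ef q * Y = 0 := by rw [← y1, ← Matrix.mul_assoc, Ef_Ee, Matrix.zero_mul]
  have y4 : Y * Ef q = 0 := by rw [← y2, Matrix.mul_assoc, Ee_Ef, Matrix.mul_zero]
  obtain ⟨r, hr⟩ : ∃ r : ℝ, r = (Real.sqrt e)⁻¹ := ⟨_, rfl⟩
  have hr2 : (r : ℂ) * (r : ℂ) * (e : ℂ) = 1 := by
    rw [hr, Complex.ofReal_inv, ← hee]
    field_simp
  obtain ⟨D0, hD0⟩ : ∃ D0 : MN N, D0 = Ef q + (r : ℂ) • Y := ⟨_, rfl⟩
  have hD0s : D0ᴴ = Ef q + (r : ℂ) • Yᴴ := by
    rw [hD0, conjTranspose_add, conjTranspose_smul, Ef_star]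
    congr 2
    exact Complex.conj_ofReal r
  have y5 : Ef q * Yᴴ = 0 := by
    have := congrArg conjTranspose y4
    rwa [conjTranspose_mul, Ef_star, conjTranspose_zero] at this
  have y6 : Yᴴ * Ef q = 0 := by
    have := congrArg conjTranspose y3
    rwa [conjTranspose_mul, Ef_star, conjTranspose_zero] at this
  have hD1 : D0ᴴ * D0 = 1 := by
    rw [hD0s, hD0, Matrix.add_mul, Matrix.mul_add, Matrix.mul_add, Matrix.mul_smul, Matrix.smul_mul, Matrix.smul_mul,
      Matrix.mul_smul, Ef_Ef, y3, y6, hE, smul_zero, add_zero, zero_add, smul_smul, smul_smul, hr2, one_smul, Ef_add_Ee]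
  have hσ : s.σ D0 = D0 := by
    rw [hD0, s.add, s.smul, s.blk, hY, s.mul, s.mul, s.blk', s.σ_mt]
  have hσ' : s.σ D0ᴴ = D0ᴴ := by rw [s.star, hσ]
  obtain ⟨d, hd⟩ : ∃ d : s.M, s.mt d = D0 ∧ s.mt d⁻¹ = D0ᴴ :=
    ⟨s.mkm D0 D0ᴴ (mul_eq_one_comm.1 hD1) hσ, rfl, rfl⟩
  have hdC : d ∈ CU s := by
    refine ⟨?_, ?_, ?_⟩
    · change (s.mt d)ᴴ * s.mt d = 1
      rw [hd.1, hD1]
    · rw [hd.1, hD0, Matrix.mul_add, Matrix.mul_smul, Ef_Ef, y3, smul_zero, add_zero]
    · rw [hd.1, hD0, Matrix.add_mul, Matrix.smul_mul, Ef_Ef, y4, smul_zero, add_zero]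
  -- the block of `x`
  have hb : ∃ b : ℂ, Ef q * s.mt x * Ef q = b • Ef q := by
    obtain ⟨δ, hδ⟩ : ∃ δ : ℝ, δ = Pool.Agent.Helper78.BI.dt q (s.mt x) := ⟨_, rfl⟩
    have hδ0 : δ ≠ 0 := by
      rw [hδ]
      exact dt_ne x.2 (s.mt_mul_inv x)
    have h5 : Ef q * nu q (s.mt x) * Ef q = c • Ef q := by
      rw [← emb_cor, hx, emb_smul, emb_one]
    have h6 : Ef q * nu q (s.mt x) * Ef q = ((δ⁻¹ : ℝ) : ℂ) • (Ef q * s.mt x * Ef q) := by
      unfold nu
      rw [← hδ, ← Matrix.mul_assoc, Matrix.mul_assoc (Ef q * sc q δ⁻¹), bk_Ef, sc_eq, Matrix.mul_add, Ef_Ee, add_zero,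
        Matrix.mul_smul, Ef_Ef, Matrix.smul_mul, ← Matrix.mul_assoc, ← Matrix.mul_assoc, Ef_Ef]
    refine ⟨(δ : ℂ) * c, ?_⟩
    rw [← smul_smul, ← h5, h6, smul_smul, ← Complex.ofReal_mul, mul_inv_cancel₀ hδ0, Complex.ofReal_one, one_smul]
  obtain ⟨b, hb⟩ := hb
  have key : ∀ D : CU s, κ (ql (s.mt (g * x * D))) t = κ (ql (s.mt (g * ((⟨d, hdC⟩ * D : CU s) : s.M)))) t := by
    intro D
    obtain ⟨z, hz⟩ : ∃ z : s.M, z = (D : s.M)⁻¹ * d⁻¹ * x * D := ⟨_, rfl⟩
    have e1 : g * x * D = g * ((⟨d, hdC⟩ * D : CU s) : s.M) * z := by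
      rw [hz, Subgroup.coe_mul]
      group
    rw [e1]
    refine F_mul s h1 h2 kA kc t _ z ?_
    -- `z` is lower triangular
    obtain ⟨-, D2, D3⟩ := D.2
    obtain ⟨-, D2', D3'⟩ := (D⁻¹ : CU s).2
    rw [Subgroup.coe_inv] at D2' D3'
    have D4 : Ee q * s.mt (D : s.M) = s.mt D * Ee q := by
      rw [Ee_eq, Matrix.sub_mul, Matrix.mul_sub, D2, D3, Matrix.one_mul, Matrix.mul_one]
    have D4' : Ee q * s.mt (D : s.M)⁻¹ = s.mt (D : s.M)⁻¹ * Ee q := by
      rw [Ee_eq, Matrix.sub_mul, Matrix.mul_sub, D2', D3', Matrix.one_mul, Matrix.mul_one]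
    have dz : s.mt z = s.mt (D : s.M)⁻¹ * D0ᴴ * s.mt x * s.mt D := by
      rw [hz, Sg.mt_mul, Sg.mt_mul, Sg.mt_mul, hd.2]
    have d1 : Ef q * D0ᴴ = Ef q := by
      rw [hD0s, Matrix.mul_add, Matrix.mul_smul, Ef_Ef, y5, smul_zero, add_zero]
    have d2 : Ee q * D0ᴴ = (r : ℂ) • (Yᴴ * Ee q) := by
      have y7 : Ee q * Yᴴ = Yᴴ := by
        have := congrArg conjTranspose y2
        rwa [conjTranspose_mul, Ee_star] at this
      have y8 : Yᴴ * Ee q = Yᴴ := by
        have := congrArg conjTranspose y1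
        rwa [conjTranspose_mul, Ee_star] at this
      rw [hD0s, Matrix.mul_add, Matrix.mul_smul, Ee_Ef, y7, y8, zero_add]
    have z1 : Ef q * s.mt z = Ef q * s.mt x * s.mt D := by
      rw [dz, ← Matrix.mul_assoc, ← Matrix.mul_assoc, ← Matrix.mul_assoc, D2', d1]
    have z2 : Ef q * s.mt z * Ee q = 0 := by
      rw [z1, Matrix.mul_assoc, ← D4, ← Matrix.mul_assoc, show Ef q * s.mt x * Ee q = 0 from x.2, Matrix.zero_mul]
    have z3 : Ef q * s.mt z * Ef q = b • Ef q := by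
      rw [z1, Matrix.mul_assoc, D3, hb]
    have z4 : Ee q * s.mt z * Ee q = (r * e : ℂ) • Ee q := by
      calc Ee q * s.mt z * Ee q = (Ee q * s.mt (D : s.M)⁻¹) * D0ᴴ * s.mt x * (s.mt D * Ee q) := by
            rw [dz]
            simp only [Matrix.mul_assoc]
        _ = s.mt (D : s.M)⁻¹ * (Ee q * D0ᴴ) * s.mt x * (Ee q * s.mt D) := by
            rw [D4', D4]
            simp only [Matrix.mul_assoc]
        _ = (r : ℂ) • (s.mt (D : s.M)⁻¹ * (Yᴴ * (Ee q * s.mt x * Ee q)) * s.mt D) := by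
            rw [d2, Matrix.mul_smul, Matrix.smul_mul, Matrix.smul_mul]
            simp only [Matrix.mul_assoc]
        _ = (r * e : ℂ) • Ee q := by
            rw [← hY, hE, Matrix.mul_smul, Matrix.smul_mul, smul_smul, ← D4', Matrix.mul_assoc, s.mt_inv_mul, Matrix.mul_one]
    intro i j hij
    rcases le_or_gt j q with hj | hj
    · have hi : i ≤ q := hij.le.trans hj
      have h5 := congrFun (congrFun z3 i) j
      rw [mul_Ef_apply, Ef_mul_apply, if_pos hj, if_pos hi, Matrix.smul_apply] at h5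
      rw [h5]
      unfold Ef
      rw [diagonal_apply_ne _ hij.ne, smul_zero]
    · rcases le_or_gt i q with hi | hi
      · have h5 := congrFun (congrFun z2 i) j
        rwa [mul_Ee_apply, Ef_mul_apply, if_neg (not_le.2 hj), if_pos hi] at h5
      · have h5 := congrFun (congrFun z4 i) j
        rw [mul_Ee_apply, Ee_mul_apply, if_neg (not_le.2 hj), if_neg (not_le.2 hi), Matrix.smul_apply] at h5
        rw [h5]
        unfold Ee
        rw [diagonal_apply_ne _ hij.ne, smul_zero]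
  unfold fav
  rw [integral_congr_ae (ae_of_all _ key)]
  exact integral_mul_left_eq_self (μ := μ) (fun D : CU s => κ (ql (s.mt (g * (D : s.M)))) t) ⟨d, hdC⟩

end Am

/-- The action of the discrete group is amenable. -/
theorem amn_geo {N : ℕ} {q : Fin N} (s : Sg N q)
    (hU : ∀ g : s.M, Lb q (s.mt g) → ∃ e : ℝ, 0 < e ∧
      (Ee q * s.mt g * Ee q)ᴴ * (Ee q * s.mt g * Ee q) = (e : ℂ) • Ee q)
    {G : Type} [Group G] {P : PH G N} {S : Sv P} (F : Fra s S) {S' H U : Type} [Group S'] [TopologicalSpace S']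
    [NormedAddCommGroup H] [InnerProductSpace ℂ H] [CompleteSpace H]
    [NormedAddCommGroup U] [InnerProductSpace ℂ U] [CompleteSpace U]
    (B : BD s.geo G S' H U) (hB : B.ir = F.ir) : Amn B := by
  intro Q ε hε
  obtain ⟨ql, h1, h2, -, -⟩ := exists_ql N
  obtain ⟨A, κ, d, hd, k0, kA, kS, kh, kc⟩ := am_PH P Q (pow_pos hε 2)
  obtain ⟨μ, hμ1, hμ2⟩ := exists_haarCU s
  have h2' : ∀ A : MN N, A.det ≠ 0 → Lt ((ql A)ᴴ * A) := h2
  have hZ : ∀ a b : s.M, a⁻¹ * b ∈ s.Z0 → ∀ t, fav s ql κ μ t a = fav s ql κ μ t b := by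
    intro a b hab t
    have hx : s.prQ ⟨a⁻¹ * b, s.Z0_le hab⟩ = 1 := Subtype.ext ((QuotientGroup.eq_one_iff _).2 hab)
    obtain ⟨c, hc⟩ := (QuotientGroup.eq_one_iff _).1 (s.nb0_ker hx)
    have h3 := fav_inv s h1 h2' kA kc μ hU t a ⟨a⁻¹ * b, s.Z0_le hab⟩ hc
    rw [← h3]
    congr 1
    exact mul_inv_cancel_left a b
  obtain ⟨p, hp⟩ : ∃ p : G → s.GG → ℝ, ∀ t (g : s.M), p t (s.pr g) = √(fav s ql κ μ t g) :=
    ⟨fun t => Quotient.lift (fun g : s.M => √(fav s ql κ μ t g))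
      fun a b hab => congrArg Real.sqrt (hZ a b (QuotientGroup.leftRel_apply.1 hab) t), fun t g => rfl⟩
  refine ⟨A, p, fun t => ?_, fun t g => ?_, fun t ht g => ?_, fun g => ?_, fun t g y hy => ?_, fun h hh g S'' => ?_⟩
  · have hq : IsQuotientMap (s.pr : s.M → s.GG) := QuotientGroup.isQuotientMap_mk _
    rw [hq.continuous_iff]
    exact (Real.continuous_sqrt.comp (continuous_fav s h1 h2' k0 kA kS kc μ t)).congr fun g => (hp t g).symm
  · obtain ⟨g, rfl⟩ := QuotientGroup.mk'_surjective s.Z0 g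
    exact (hp t g).symm ▸ Real.sqrt_nonneg _
  · obtain ⟨g, rfl⟩ := QuotientGroup.mk'_surjective s.Z0 g
    rw [hp t g, fav_zero s kA μ ht, Real.sqrt_zero]
  · obtain ⟨g, rfl⟩ := QuotientGroup.mk'_surjective s.Z0 g
    rw [← fav_sum s h1 h2' k0 kA kS kc μ g]
    refine Finset.sum_congr rfl fun t _ => ?_
    rw [hp t g, Real.sq_sqrt (fav_nonneg s k0 μ t g)]
  · obtain ⟨g, rfl⟩ := QuotientGroup.mk'_surjective s.Z0 g
    obtain ⟨x, rfl⟩ := s.prQ_surj y
    have hx : s.nb0 x = 1 := by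
      rw [← s.nbG_prQ]
      exact hy
    obtain ⟨c, hc⟩ := (QuotientGroup.eq_one_iff _).1 hx
    have e1 : s.pr g * ((s.prQ x : s.QG) : s.GG) = s.pr (g * x) := (map_mul s.pr g x).symm
    rw [e1, hp, hp, fav_inv s h1 h2' kA kc μ hU t g x hc]
  · obtain ⟨g, rfl⟩ := QuotientGroup.mk'_surjective s.Z0 g
    have e1 : B.ir h * s.pr g = s.pr (F.ie h * g) := by rw [hB, F.ir_apply, map_mul]
    have e2 : ∀ t ∈ S'', (p t (B.ir h * s.pr g) - p (h⁻¹ * t) (s.pr g)) ^ 2 ≤
        |fav s ql κ μ t (F.ie h * g) - fav s ql κ μ (h⁻¹ * t) g| := by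
      intro t _
      rw [e1, hp, hp]
      exact sqrt_sub_sq_le (fav_nonneg s k0 μ _ _) (fav_nonneg s k0 μ _ _)
    refine (Finset.sum_le_sum e2).trans ?_
    have hI : ∀ t, Integrable (fun D : CU s => κ (ql (s.mt (F.ie h * g * D))) t - κ (ql (s.mt (g * D))) (h⁻¹ * t)) μ :=
      fun t => (integrable_F s h1 h2' k0 kA kS kc μ t _).sub (integrable_F s h1 h2' k0 kA kS kc μ _ g)
    calc ∑ t ∈ S'', |fav s ql κ μ t (F.ie h * g) - fav s ql κ μ (h⁻¹ * t) g|
        ≤ ∑ t ∈ S'', ∫ D, |κ (ql (s.mt (F.ie h * g * (D : CU s)))) t - κ (ql (s.mt (g * (D : CU s)))) (h⁻¹ * t)| ∂μ := by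
          refine Finset.sum_le_sum fun t _ => ?_
          unfold fav
          rw [← integral_sub (integrable_F s h1 h2' k0 kA kS kc μ t _) (integrable_F s h1 h2' k0 kA kS kc μ _ g)]
          exact abs_integral_le_integral_abs
      _ = ∫ D, ∑ t ∈ S'', |κ (ql (s.mt (F.ie h * g * (D : CU s)))) t - κ (ql (s.mt (g * (D : CU s)))) (h⁻¹ * t)| ∂μ :=
          (integral_finsetSum _ fun t _ => (hI t).abs).symm
      _ ≤ ∫ _D : CU s, ε ^ 2 ∂μ := by
          refine integral_mono_of_nonneg (ae_of_all _ fun D => Finset.sum_nonneg fun _ _ => abs_nonneg _)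
            (integrable_const _) (ae_of_all _ fun D => ?_)
          refine kh h hh _ _ (h1 _) (h1 _) (fun i j hij => ?_) S''
          have e3 : (ql (s.mt (F.ie h * g * D)))ᴴ * P.ι h * ql (s.mt (g * D)) =
              ((ql (s.mt (F.ie h * g * D)))ᴴ * s.mt (F.ie h * g * D)) * (s.mt (g * D)⁻¹ * ql (s.mt (g * D))) := by
            have e4 : s.mt (F.ie h * g * D) * s.mt (g * D)⁻¹ = P.ι h := by
              rw [← Sg.mt_mul, ← F.mt_ie]
              congr 1
              group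
            rw [← e4]
            simp only [Matrix.mul_assoc]
          rw [e3]
          have h5 := ((h2' _ (det_ne (s.mt_mul_inv (F.ie h * g * D)))).mul (lt_inv_ql h1 h2' (s.mt_mul_inv (g * D)))) i j hij
          rw [h5, norm_zero]
          exact hd.le
      _ = ε ^ 2 := by simp

end Pool.Agent.Helper55.TZ
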