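import Pool.Agent.Helper43.TZ.Src
import Pool.Agent.Helper96.FR.Rge3
import Pool.Agent.Helper66.RK.StmtDef

/-!
# Project TZ: discrete subgroups of the adjoint groups of `sl(n, ℝ)` and `sl(n, ℂ)`

A group `G` of automorphisms of the real Lie algebra `L`, `L` isomorphic to `sl(n, ℝ)` or to `sl(n, ℂ)`, `n ≥ 2`, which is contained in the closure of the group generated by the `exp(ad x)`, consists of the automorphisms
`x ↦ A x A⁻¹`, `A ∈ GL(n)`. So every discrete subgroup of `G` has a proper projective representation by matrices.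
-/

set_option autoImplicit false

open MeasureTheory Filter Topology Matrix

namespace Pool.Agent.Helper55.TZ

open Pool.Agent.Helper96.SA Pool.Agent.Helper96.FR
open Pool.Agent.Helper66.RKS (PRep)

/-- `e` identifies the real Lie algebra `L` with the matrices of trace zero over `𝕜`. -/
structure SlId {𝕜 : Type} [RCLike 𝕜] {n : ℕ} {L : Type} [LieRing L] [LieAlgebra ℝ L] (e : L →ₗ[ℝ] Matrix (Fin n) (Fin n) 𝕜) : Prop where
  inj : Function.Injective e
  lie : ∀ x y, e ⁅x, y⁆ = e x * e y - e y * e x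
  range : ∀ X : Matrix (Fin n) (Fin n) 𝕜, X.trace = 0 ↔ ∃ x, e x = X

section Entry

variable {𝕜 : Type} [RCLike 𝕜] {n : ℕ}

theorem prod_bound {A B : Matrix (Fin n) (Fin n) 𝕜} (hn : 2 ≤ n) (hBA : B * A = 1) {C : ℝ}
    (h : ∀ i j k l, i ≠ j → ‖A k i‖ * ‖B j l‖ ≤ C) (i j k l : Fin n) : ‖A k i‖ * ‖B j l‖ ≤ n * C ^ 2 + C := by
  have hC : 0 ≤ C := by
    refine le_trans ?_ (h ⟨0, by omega⟩ ⟨1, by omega⟩ k l (by simp [Fin.ext_iff]))
    positivity
  by_cases hij : i = j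
  · subst hij
    obtain ⟨m, hm⟩ : ∃ m : Fin n, m ≠ i := by
      by_cases h0 : (i : ℕ) = 0
      · exact ⟨⟨1, by omega⟩, fun h1 => by have := congrArg Fin.val h1; simp at this; omega⟩
      · exact ⟨⟨0, by omega⟩, fun h1 => by have := congrArg Fin.val h1; simp at this; omega⟩
    have h1 : (B * A) m m = 1 := by rw [hBA, one_apply_eq]
    rw [Matrix.mul_apply] at h1
    have h2 : (1 : ℝ) ≤ ∑ p, ‖B m p‖ * ‖A p m‖ := by
      calc (1 : ℝ) = ‖∑ p, B m p * A p m‖ := by rw [h1, norm_one]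
        _ ≤ ∑ p, ‖B m p * A p m‖ := norm_sum_le _ _
        _ = _ := by simp only [norm_mul]
    have h3 : ∑ p, (‖A k i‖ * ‖B m p‖) * (‖A p m‖ * ‖B i l‖) ≤ ∑ _p : Fin n, C * C := by
      refine Finset.sum_le_sum fun p _ => ?_
      exact mul_le_mul (h i m k p hm.symm) (h m i p l hm) (by positivity) hC
    rw [Finset.sum_const, Finset.card_univ, Fintype.card_fin, nsmul_eq_mul] at h3
    have h4 : ∑ p, (‖A k i‖ * ‖B m p‖) * (‖A p m‖ * ‖B i l‖) = (‖A k i‖ * ‖B i l‖) * ∑ p, ‖B m p‖ * ‖A p m‖ := by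
      rw [Finset.mul_sum]
      refine Finset.sum_congr rfl fun p _ => ?_
      ring
    rw [h4] at h3
    have h5 : ‖A k i‖ * ‖B i l‖ * 1 ≤ (‖A k i‖ * ‖B i l‖) * ∑ p, ‖B m p‖ * ‖A p m‖ :=
      mul_le_mul_of_nonneg_left h2 (by positivity)
    nlinarith
  · have := h i j k l hij
    have h1 : (0 : ℝ) ≤ n * C ^ 2 := by positivity
    linarith

theorem exists_entry_ge {B : Matrix (Fin n) (Fin n) 𝕜} (hn : 0 < n) (hdet : ‖B.det‖ = 1) :
    ∃ j l, 1 ≤ (n.factorial : ℝ) * ‖B j l‖ := by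
  have : Nonempty (Fin n) := ⟨⟨0, hn⟩⟩
  obtain ⟨⟨j, l⟩, -, hjl⟩ := Finset.exists_max_image (Finset.univ : Finset (Fin n × Fin n)) (fun q => ‖B q.1 q.2‖)
    Finset.univ_nonempty
  refine ⟨j, l, ?_⟩
  have h1 : (NormedField.toAbsoluteValue 𝕜) B.det ≤ (Fintype.card (Fin n)).factorial • ‖B j l‖ ^ Fintype.card (Fin n) :=
    Matrix.det_le (abv := NormedField.toAbsoluteValue 𝕜) fun a c => hjl (a, c) (Finset.mem_univ _)
  have h2 : ‖B.det‖ ≤ (n.factorial : ℝ) * ‖B j l‖ ^ n := by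
    rw [Fintype.card_fin, nsmul_eq_mul] at h1
    exact h1
  rw [hdet] at h2
  have hf : (1 : ℝ) ≤ (n.factorial : ℝ) := by exact_mod_cast Nat.succ_le_of_lt n.factorial_pos
  rcases le_total ‖B j l‖ 1 with h3 | h3
  · have h4 : ‖B j l‖ ^ n ≤ ‖B j l‖ := by
      calc ‖B j l‖ ^ n ≤ ‖B j l‖ ^ 1 := pow_le_pow_of_le_one (norm_nonneg _) h3 hn
        _ = _ := pow_one _
    nlinarith [norm_nonneg (B j l)]
  · nlinarith

theorem entry_bound {A B : Matrix (Fin n) (Fin n) 𝕜} (hn : 2 ≤ n) (hBA : B * A = 1) (hdet : ‖B.det‖ = 1) {C : ℝ}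
    (h : ∀ i j k l, i ≠ j → ‖A k i‖ * ‖B j l‖ ≤ C) (k i : Fin n) : ‖A k i‖ ≤ n.factorial * (n * C ^ 2 + C) := by
  obtain ⟨j, l, hjl⟩ := exists_entry_ge (by omega) hdet
  have h1 := prod_bound hn hBA h i j k l
  have h2 : ‖A k i‖ * 1 ≤ ‖A k i‖ * ((n.factorial : ℝ) * ‖B j l‖) := mul_le_mul_of_nonneg_left hjl (norm_nonneg _)
  have h3 : (0 : ℝ) ≤ (n.factorial : ℝ) := by positivity
  have h4 := mul_le_mul_of_nonneg_left h1 h3
  calc ‖A k i‖ = ‖A k i‖ * 1 := (mul_one _).symm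
    _ ≤ ‖A k i‖ * ((n.factorial : ℝ) * ‖B j l‖) := h2
    _ = (n.factorial : ℝ) * (‖A k i‖ * ‖B j l‖) := by ring
    _ ≤ _ := h4

end Entry

section Ad

variable {𝕜 : Type} [RCLike 𝕜] {n N : ℕ} {L : Type} [LieRing L] [LieAlgebra ℝ L] {e : L →ₗ[ℝ] Matrix (Fin n) (Fin n) 𝕜}

/-- conjugation with `A` -/
noncomputable def cjG (A : GL (Fin n) 𝕜) : Matrix (Fin n) (Fin n) 𝕜 →ₗ[ℝ] Matrix (Fin n) (Fin n) 𝕜 :=
  (LinearMap.mulLeft ℝ (A : Matrix (Fin n) (Fin n) 𝕜)) ∘ₗ (LinearMap.mulRight ℝ ((A⁻¹ : GL (Fin n) 𝕜) : Matrix (Fin n) (Fin n) 𝕜))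

theorem cjG_apply (A : GL (Fin n) 𝕜) (X : Matrix (Fin n) (Fin n) 𝕜) :
    cjG A X = (A : Matrix (Fin n) (Fin n) 𝕜) * (X * ((A⁻¹ : GL (Fin n) 𝕜) : Matrix (Fin n) (Fin n) 𝕜)) := rfl

/-- a left inverse of `e` -/
noncomputable def lin (h : SlId e) : Matrix (Fin n) (Fin n) 𝕜 →ₗ[ℝ] L :=
  (LinearMap.exists_leftInverse_of_injective e (LinearMap.ker_eq_bot.2 h.inj)).choose

theorem lin_e (h : SlId e) (x : L) : lin h (e x) = x :=
  LinearMap.congr_fun (LinearMap.exists_leftInverse_of_injective e (LinearMap.ker_eq_bot.2 h.inj)).choose_spec x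

theorem e_lin (h : SlId e) {X : Matrix (Fin n) (Fin n) 𝕜} (hX : X.trace = 0) : e (lin h X) = X := by
  obtain ⟨x, rfl⟩ := (h.range X).1 hX
  rw [lin_e]

/-- the conjugation, on `L` -/
noncomputable def cj (h : SlId e) (A : GL (Fin n) 𝕜) : Module.End ℝ L := lin h ∘ₗ cjG A ∘ₗ e

theorem e_cj (h : SlId e) (A : GL (Fin n) 𝕜) (x : L) :
    e (cj h A x) = (A : Matrix (Fin n) (Fin n) 𝕜) * (e x * ((A⁻¹ : GL (Fin n) 𝕜) : Matrix (Fin n) (Fin n) 𝕜)) := by
  have h1 : cj h A x = lin h (cjG A (e x)) := rfl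
  rw [h1, e_lin h, cjG_apply]
  rw [cjG_apply, Matrix.trace_mul_comm, Matrix.mul_assoc, ← Units.val_mul, inv_mul_cancel, Units.val_one, Matrix.mul_one]
  exact (h.range _).2 ⟨x, rfl⟩

/-- the adjoint representation -/
noncomputable def AdM (h : SlId e) (b : Module.Basis (Fin N) ℝ L) : GL (Fin n) 𝕜 →* Mat N where
  toFun A := LinearMap.toMatrix b b (cj h A)
  map_one' := by
    have h1 : cj h (1 : GL (Fin n) 𝕜) = 1 := by
      refine LinearMap.ext fun x => h.inj ?_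
      rw [e_cj, inv_one, Units.val_one, Matrix.mul_one, Matrix.one_mul]
      rfl
    rw [h1, LinearMap.toMatrix_one]
  map_mul' A B := by
    have h1 : cj h (A * B) = cj h A * cj h B := by
      refine LinearMap.ext fun x => h.inj ?_
      rw [Module.End.mul_apply, e_cj, e_cj, e_cj, _root_.mul_inv_rev, Units.val_mul, Units.val_mul]
      simp only [Matrix.mul_assoc]
    rw [h1, LinearMap.toMatrix_mul]

/-- the adjoint representation -/
noncomputable def AdU (h : SlId e) (b : Module.Basis (Fin N) ℝ L) : GL (Fin n) 𝕜 →* GL (Fin N) ℝ := (AdM h b).toHomUnits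

theorem AdU_coe (h : SlId e) (b : Module.Basis (Fin N) ℝ L) (A : GL (Fin n) 𝕜) :
    ((AdU h b A : GL (Fin N) ℝ) : Mat N) = LinearMap.toMatrix b b (cj h A) := rfl

theorem toLin_AdU (h : SlId e) (b : Module.Basis (Fin N) ℝ L) (A : GL (Fin n) 𝕜) (x : L) :
    e (toLin b b ((AdU h b A : GL (Fin N) ℝ) : Mat N) x) =
      (A : Matrix (Fin n) (Fin n) 𝕜) * (e x * ((A⁻¹ : GL (Fin n) 𝕜) : Matrix (Fin n) (Fin n) 𝕜)) := by
  rw [AdU_coe, Matrix.toLin_toMatrix, e_cj]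

theorem continuous_AdM (h : SlId e) (b : Module.Basis (Fin N) ℝ L) : Continuous (AdM h b) := by
  refine continuous_pi fun i => continuous_pi fun j => ?_
  have h1 : (fun A : GL (Fin n) 𝕜 => AdM h b A i j) = fun A : GL (Fin n) 𝕜 => ((b.coord i) ∘ₗ lin h)
      ((A : Matrix (Fin n) (Fin n) 𝕜) * (e (b j) * ((A⁻¹ : GL (Fin n) 𝕜) : Matrix (Fin n) (Fin n) 𝕜))) := by
    funext A
    change LinearMap.toMatrix b b (cj h A) i j = _
    rw [LinearMap.toMatrix_apply]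
    rfl
  rw [h1]
  have h2 : Continuous ((b.coord i) ∘ₗ lin h) := LinearMap.continuous_of_finiteDimensional _
  have c1 : Continuous fun A : GL (Fin n) 𝕜 => (A : Matrix (Fin n) (Fin n) 𝕜) := Units.continuous_val
  have c2 : Continuous fun A : GL (Fin n) 𝕜 => ((A⁻¹ : GL (Fin n) 𝕜) : Matrix (Fin n) (Fin n) 𝕜) :=
    Units.continuous_val.comp continuous_inv
  exact h2.comp (c1.mul (continuous_const.mul c2))

theorem continuous_AdU (h : SlId e) (b : Module.Basis (Fin N) ℝ L) : Continuous (AdU h b) := by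
  rw [Units.continuous_iff]
  refine ⟨continuous_AdM h b, ?_⟩
  have h1 : (fun A : GL (Fin n) 𝕜 => (((AdU h b A)⁻¹ : GL (Fin N) ℝ) : Mat N)) = fun A : GL (Fin n) 𝕜 => AdM h b (A⁻¹ : GL (Fin n) 𝕜) := by
    funext A
    rw [← map_inv]
    rfl
  rw [h1]
  exact (continuous_AdM h b).comp continuous_inv

/-- The elements of `GL(n)` with determinant of absolute value one and entries at most `R`. -/
def KR (𝕜 : Type) [RCLike 𝕜] (n : ℕ) (R : ℝ) : Set (GL (Fin n) 𝕜) := {A | ‖(A : Matrix (Fin n) (Fin n) 𝕜).det‖ = 1 ∧ ∀ i j, ‖(A : Matrix (Fin n) (Fin n) 𝕜) i j‖ ≤ R}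

theorem isCompact_KR (R : ℝ) : IsCompact (KR 𝕜 n R) := by
  let K : Set (Matrix (Fin n) (Fin n) 𝕜) := {M | ∀ i j, ‖M i j‖ ≤ R} ∩ {M | ‖M.det‖ = 1}
  have hK : IsCompact K := by
    refine (isCompact_mat (n := Fin n) (m := Fin n) (𝕜 := 𝕜) R).inter_right ?_
    exact isClosed_eq (continuous_id.matrix_det.norm) continuous_const
  have hne : ∀ M : K, (M : Matrix (Fin n) (Fin n) 𝕜).det ≠ 0 := by
    rintro ⟨M, h1, h2⟩ h0
    have h3 : ‖M.det‖ = 1 := h2
    rw [show M.det = 0 from h0, norm_zero] at h3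
    exact zero_ne_one h3
  let f : K → GL (Fin n) 𝕜 := fun M => Matrix.GeneralLinearGroup.mkOfDetNeZero M.1 (hne M)
  have hval : ∀ M : K, ((f M : GL (Fin n) 𝕜) : Matrix (Fin n) (Fin n) 𝕜) = M.1 := fun M => rfl
  have hf : Continuous f := by
    rw [Units.continuous_iff]
    refine ⟨continuous_subtype_val, ?_⟩
    have h1 : (fun M : K => (((f M)⁻¹ : GL (Fin n) 𝕜) : Matrix (Fin n) (Fin n) 𝕜)) =
        fun M : K => (M.1.det)⁻¹ • M.1.adjugate := by
      funext M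
      rw [Matrix.coe_units_inv, hval, Matrix.inv_def, Ring.inverse_eq_inv']
    rw [h1]
    have c1 : Continuous fun M : K => (M.1.det)⁻¹ := (continuous_subtype_val.matrix_det).inv₀ hne
    have c2 : Continuous fun M : K => M.1.adjugate := continuous_subtype_val.matrix_adjugate
    exact c1.smul c2
  have h2 : KR 𝕜 n R = Set.range f := by
    ext A
    constructor
    · rintro ⟨h3, h4⟩
      exact ⟨⟨A, h4, h3⟩, Units.ext rfl⟩
    · rintro ⟨M, rfl⟩
      exact ⟨M.2.2, M.2.1⟩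
  rw [h2]
  have : CompactSpace K := isCompact_iff_compactSpace.1 hK
  exact isCompact_range hf

/-- The adjoint representation is proper. -/
theorem Ad_proper (hn : 2 ≤ n) (h : SlId e) (b : Module.Basis (Fin N) ℝ L) (R : ℝ) :
    ∃ R' : ℝ, ∀ A : GL (Fin n) 𝕜, ‖(A : Matrix (Fin n) (Fin n) 𝕜).det‖ = 1 →
      (∀ i j, ‖((AdU h b A : GL (Fin N) ℝ) : Mat N) i j‖ ≤ R) → A ∈ KR 𝕜 n R' := by
  have hx : ∀ q : Fin n × Fin n, ∃ x : L, q.1 ≠ q.2 → e x = Matrix.single q.1 q.2 (1 : 𝕜) := by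
    intro q
    by_cases hq : q.1 = q.2
    · exact ⟨0, fun h1 => absurd hq h1⟩
    · obtain ⟨x, hx⟩ := (h.range (Matrix.single q.1 q.2 (1 : 𝕜))).1 (Matrix.trace_single_eq_of_ne _ _ _ hq)
      exact ⟨x, fun _ => hx⟩
  choose x hx using hx
  let F : Mat N → ℝ := fun M => ∑ q : Fin n × Fin n, ∑ p : Fin n × Fin n, ‖(e (toLin b b M (x q))) p.1 p.2‖
  have hF : Continuous F := by
    refine continuous_finsetSum _ fun q _ => continuous_finsetSum _ fun p _ => ?_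
    have h1 : Continuous (e ∘ₗ (LinearMap.applyₗ (x q)) ∘ₗ (Matrix.toLin b b).toLinearMap) :=
      LinearMap.continuous_of_finiteDimensional _
    exact (h1.matrix_elem p.1 p.2).norm
  obtain ⟨C, hC⟩ := ((isCompact_mat (n := Fin N) (m := Fin N) (𝕜 := ℝ) R).image hF).bddAbove
  refine ⟨n.factorial * (n * C ^ 2 + C), fun A hA hR => ⟨hA, fun k i => ?_⟩⟩
  have hBA : ((A⁻¹ : GL (Fin n) 𝕜) : Matrix (Fin n) (Fin n) 𝕜) * (A : Matrix (Fin n) (Fin n) 𝕜) = 1 := by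
    rw [← Units.val_mul, inv_mul_cancel, Units.val_one]
  refine entry_bound hn hBA ?_ (fun i j k l hij => ?_) k i
  · have h1 := congrArg (fun M => ‖Matrix.det M‖) hBA
    simp only [Matrix.det_mul, norm_mul, hA, mul_one, Matrix.det_one, norm_one] at h1
    exact h1
  · have h1 : F ((AdU h b A : GL (Fin N) ℝ) : Mat N) ≤ C := hC ⟨_, hR, rfl⟩
    have h2 : ‖(e (toLin b b ((AdU h b A : GL (Fin N) ℝ) : Mat N) (x (i, j)))) k l‖ ≤ F ((AdU h b A : GL (Fin N) ℝ) : Mat N) := by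
      refine le_trans ?_ (Finset.single_le_sum (f := fun q : Fin n × Fin n => ∑ p : Fin n × Fin n,
        ‖(e (toLin b b ((AdU h b A : GL (Fin N) ℝ) : Mat N) (x q))) p.1 p.2‖) (fun q _ => Finset.sum_nonneg fun p _ => norm_nonneg _)
        (Finset.mem_univ (i, j)))
      exact Finset.single_le_sum (f := fun p : Fin n × Fin n => ‖(e (toLin b b ((AdU h b A : GL (Fin N) ℝ) : Mat N) (x (i, j)))) p.1 p.2‖)
        (fun p _ => norm_nonneg _) (Finset.mem_univ (k, l))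
    rw [toLin_AdU, hx (i, j) hij] at h2
    have h3 : ((A : Matrix (Fin n) (Fin n) 𝕜) * (Matrix.single i j (1 : 𝕜) * ((A⁻¹ : GL (Fin n) 𝕜) : Matrix (Fin n) (Fin n) 𝕜))) k l =
        (A : Matrix (Fin n) (Fin n) 𝕜) k i * ((A⁻¹ : GL (Fin n) 𝕜) : Matrix (Fin n) (Fin n) 𝕜) j l := by
      rw [Matrix.mul_apply, Finset.sum_eq_single i]
      · rw [Matrix.mul_apply, Finset.sum_eq_single j]
        · rw [Matrix.single_apply_same, one_mul]
        · intro m _ hm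
          rw [Matrix.single_apply_of_ne, zero_mul]
          rintro ⟨-, h4⟩
          exact hm h4.symm
        · intro h4
          exact absurd (Finset.mem_univ _) h4
      · intro m _ hm
        rw [Matrix.mul_apply, Finset.sum_eq_zero, mul_zero]
        intro m' _
        rw [Matrix.single_apply_of_ne, zero_mul]
        rintro ⟨h4, -⟩
        exact hm h4.symm
      · intro h4
        exact absurd (Finset.mem_univ _) h4
    rw [h3, norm_mul] at h2
    exact h2.trans h1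

open scoped Matrix.Norms.Operator in
/-- `exp(ad x)` is the conjugation with `exp x`. -/
theorem exp_ad (h : SlId e) (b : Module.Basis (Fin N) ℝ L) (x y : L) :
    e (toLin b b (NormedSpace.exp (LinearMap.toMatrix b b (LieAlgebra.ad ℝ L x))) y) =
      NormedSpace.exp (e x) * (e y * NormedSpace.exp (-(e x))) := by
  obtain ⟨T, hT⟩ : ∃ T : Mat N, T = LinearMap.toMatrix b b (LieAlgebra.ad ℝ L x) := ⟨_, rfl⟩
  rw [← hT]
  -- the linear map
  let ΛL : Mat N →ₗ[ℝ] Matrix (Fin n) (Fin n) 𝕜 := e ∘ₗ (LinearMap.applyₗ y) ∘ₗ (Matrix.toLin b b).toLinearMap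
  let Λ : Mat N →L[ℝ] Matrix (Fin n) (Fin n) 𝕜 := ⟨ΛL, LinearMap.continuous_of_finiteDimensional _⟩
  have hΛ : ∀ M, Λ M = e (toLin b b M y) := fun M => rfl
  have hΛT : ∀ M, Λ (T * M) = e x * Λ M - Λ M * e x := by
    intro M
    rw [hΛ, hΛ, toLin_mul b b b, LinearMap.comp_apply, hT, Matrix.toLin_toMatrix, LieAlgebra.ad_apply, h.lie]
  have hX : ∀ s : ℝ, HasDerivAt (fun s : ℝ => Λ (NormedSpace.exp (s • T))) (e x * Λ (NormedSpace.exp (s • T)) - Λ (NormedSpace.exp (s • T)) * e x) s := by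
    intro s
    have h1 : HasDerivAt (fun s : ℝ => Λ (NormedSpace.exp (s • T))) (Λ (T * NormedSpace.exp (s • T))) s :=
      Λ.hasFDerivAt.comp_hasDerivAt s (hasDerivAt_exp_smul_const' (𝕂 := ℝ) T s)
    rw [hΛT] at h1
    exact h1
  have hP : ∀ s : ℝ, HasDerivAt (fun s : ℝ => NormedSpace.exp (s • (-(e x))) * Λ (NormedSpace.exp (s • T)) * NormedSpace.exp (s • e x)) 0 s := by
    intro s
    have h1 := ((hasDerivAt_exp_smul_const (𝕂 := ℝ) (-(e x)) s).mul (hX s)).mul (hasDerivAt_exp_smul_const' (𝕂 := ℝ) (e x) s)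
    refine h1.congr_deriv ?_
    have key : ∀ a u v w : Matrix (Fin n) (Fin n) 𝕜, (u * -a * w + u * (a * w - w * a)) * v + (u * w) * (a * v) = 0 := by
      intro a u v w
      noncomm_ring
    exact key (e x) (NormedSpace.exp (s • (-(e x)))) (NormedSpace.exp (s • (e x))) (Λ (NormedSpace.exp (s • T)))
  have hc : NormedSpace.exp ((1 : ℝ) • (-(e x))) * Λ (NormedSpace.exp ((1 : ℝ) • T)) * NormedSpace.exp ((1 : ℝ) • e x) =
      NormedSpace.exp ((0 : ℝ) • (-(e x))) * Λ (NormedSpace.exp ((0 : ℝ) • T)) * NormedSpace.exp ((0 : ℝ) • e x) :=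
    is_const_of_deriv_eq_zero (fun s => (hP s).differentiableAt) (fun s => (hP s).deriv) 1 0
  simp only [one_smul, zero_smul, NormedSpace.exp_zero, Matrix.one_mul, Matrix.mul_one] at hc
  have e1 : NormedSpace.exp (e x) * NormedSpace.exp (-(e x)) = 1 := by
    rw [← Matrix.exp_add_of_commute _ _ (Commute.neg_right (Commute.refl (e x))), add_neg_cancel, NormedSpace.exp_zero]
  have e2 : Λ (1 : Mat N) = e y := by
    rw [hΛ, toLin_one]
    rfl
  rw [e2] at hc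
  rw [← hΛ, ← hc]
  calc Λ (NormedSpace.exp T) = (NormedSpace.exp (e x) * NormedSpace.exp (-(e x))) * Λ (NormedSpace.exp T) *
        (NormedSpace.exp (e x) * NormedSpace.exp (-(e x))) := by rw [e1, Matrix.one_mul, Matrix.mul_one]
    _ = _ := by simp only [Matrix.mul_assoc]

/-- the unit `exp X` -/
noncomputable def exG (X : Matrix (Fin n) (Fin n) 𝕜) : GL (Fin n) 𝕜 :=
  ⟨NormedSpace.exp X, NormedSpace.exp (-X),
    by rw [← Matrix.exp_add_of_commute X (-X) (Commute.neg_right (Commute.refl X)), add_neg_cancel, NormedSpace.exp_zero],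
    by rw [← Matrix.exp_add_of_commute (-X) X (Commute.neg_left (Commute.refl X)), neg_add_cancel, NormedSpace.exp_zero]⟩

theorem ex_ad (h : SlId e) (b : Module.Basis (Fin N) ℝ L) (x : L) :
    ex (LinearMap.toMatrix b b (LieAlgebra.ad ℝ L x)) = AdU h b (exG (e x)) := by
  apply Units.ext
  apply (Matrix.toLin b b).injective
  refine LinearMap.ext fun y => h.inj ?_
  rw [ex_coe, exp_ad h, toLin_AdU]
  rfl

/-- every automorphism in the image is the conjugation with a matrix of determinant of absolute value one -/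
theorem exists_norm_one (hn : 0 < n) (h : SlId e) (b : Module.Basis (Fin N) ℝ L) (A : GL (Fin n) 𝕜) :
    ∃ A' : GL (Fin n) 𝕜, ‖(A' : Matrix (Fin n) (Fin n) 𝕜).det‖ = 1 ∧ AdU h b A' = AdU h b A := by
  have hd : (A : Matrix (Fin n) (Fin n) 𝕜).det ≠ 0 := ((Matrix.isUnit_iff_isUnit_det _).1 A.isUnit).ne_zero
  have hd1 : 0 < ‖(A : Matrix (Fin n) (Fin n) 𝕜).det‖ := norm_pos_iff.2 hd
  obtain ⟨t, ht⟩ : ∃ t : ℝ, t = ‖(A : Matrix (Fin n) (Fin n) 𝕜).det‖ ^ (-(1 / (n : ℝ))) := ⟨_, rfl⟩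
  have ht0 : 0 < t := by rw [ht]; exact Real.rpow_pos_of_pos hd1 _
  have htn : t ^ n * ‖(A : Matrix (Fin n) (Fin n) 𝕜).det‖ = 1 := by
    rw [ht, ← Real.rpow_natCast, ← Real.rpow_mul hd1.le]
    have hn' : (n : ℝ) ≠ 0 := by exact_mod_cast hn.ne'
    have e1 : -(1 / (n : ℝ)) * (n : ℝ) = -1 := by field_simp
    rw [e1, Real.rpow_neg_one, inv_mul_cancel₀ hd1.ne']
  have htk : ((t : ℝ) : 𝕜) ≠ 0 := by
    rw [Ne, RCLike.ofReal_eq_zero]
    exact ht0.ne'
  obtain ⟨z, hz⟩ : ∃ z : GL (Fin n) 𝕜, (z : Matrix (Fin n) (Fin n) 𝕜) = ((t : ℝ) : 𝕜) • (1 : Matrix (Fin n) (Fin n) 𝕜) ∧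
      ((z⁻¹ : GL (Fin n) 𝕜) : Matrix (Fin n) (Fin n) 𝕜) = (((t : ℝ) : 𝕜))⁻¹ • (1 : Matrix (Fin n) (Fin n) 𝕜) :=
    ⟨⟨((t : ℝ) : 𝕜) • 1, (((t : ℝ) : 𝕜))⁻¹ • 1,
      by rw [smul_mul_smul_comm, mul_inv_cancel₀ htk, one_smul, Matrix.one_mul],
      by rw [smul_mul_smul_comm, inv_mul_cancel₀ htk, one_smul, Matrix.one_mul]⟩, rfl, rfl⟩
  refine ⟨z * A, ?_, ?_⟩
  · rw [Units.val_mul, hz.1, smul_mul_assoc, Matrix.one_mul, Matrix.det_smul, norm_mul, norm_pow, Fintype.card_fin, RCLike.norm_ofReal,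
      abs_of_pos ht0, htn]
  · have h1 : AdU h b z = 1 := by
      apply Units.ext
      apply (Matrix.toLin b b).injective
      refine LinearMap.ext fun y => h.inj ?_
      rw [toLin_AdU, hz.1, hz.2, Units.val_one, toLin_one, smul_mul_assoc, Matrix.one_mul, mul_smul_comm, Matrix.mul_one, smul_smul,
        mul_inv_cancel₀ htk, one_smul]
      rfl
    rw [map_mul, h1, one_mul]

/-- The image of the adjoint representation is closed. -/
theorem isClosed_range (hn : 2 ≤ n) (h : SlId e) (b : Module.Basis (Fin N) ℝ L) :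
    IsClosed ((AdU h b).range : Set (GL (Fin N) ℝ)) := by
  refine isClosed_of_closure_subset fun g hg => ?_
  obtain ⟨R, hR⟩ : ∃ R : ℝ, ∀ i j, ‖(g : Mat N) i j‖ < R := by
    refine ⟨∑ i, ∑ j, ‖(g : Mat N) i j‖ + 1, fun i j => ?_⟩
    have h1 : ‖(g : Mat N) i j‖ ≤ ∑ j, ‖(g : Mat N) i j‖ :=
      Finset.single_le_sum (f := fun j => ‖(g : Mat N) i j‖) (fun _ _ => norm_nonneg _) (Finset.mem_univ j)
    have h2 : ∑ j, ‖(g : Mat N) i j‖ ≤ ∑ i, ∑ j, ‖(g : Mat N) i j‖ :=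
      Finset.single_le_sum (f := fun i => ∑ j, ‖(g : Mat N) i j‖) (fun _ _ => Finset.sum_nonneg fun _ _ => norm_nonneg _) (Finset.mem_univ i)
    linarith
  obtain ⟨R', hR'⟩ := Ad_proper hn h b R
  have hU : IsOpen {g : GL (Fin N) ℝ | ∀ i j, ‖(g : Mat N) i j‖ < R} := by
    have e1 : {g : GL (Fin N) ℝ | ∀ i j, ‖(g : Mat N) i j‖ < R} = ⋂ i, ⋂ j, {g : GL (Fin N) ℝ | ‖(g : Mat N) i j‖ < R} := by
      ext g
      simp only [Set.mem_ofPred_eq, Set.mem_iInter]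
    rw [e1]
    refine isOpen_iInter_of_finite fun i => isOpen_iInter_of_finite fun j => ?_
    have c1 : Continuous fun A : GL (Fin N) ℝ => (A : Mat N) := Units.continuous_val
    exact isOpen_lt (c1.matrix_elem i j).norm continuous_const
  have hK : IsCompact (AdU h b '' KR 𝕜 n R') := (isCompact_KR R').image (continuous_AdU h b)
  have h1 : g ∈ closure ({g : GL (Fin N) ℝ | ∀ i j, ‖(g : Mat N) i j‖ < R} ∩ ((AdU h b).range : Set (GL (Fin N) ℝ))) :=
    hU.inter_closure ⟨hR, hg⟩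
  have h2 : {g : GL (Fin N) ℝ | ∀ i j, ‖(g : Mat N) i j‖ < R} ∩ ((AdU h b).range : Set (GL (Fin N) ℝ)) ⊆ AdU h b '' KR 𝕜 n R' := by
    rintro _ ⟨h3, A, rfl⟩
    obtain ⟨A', hA1, hA2⟩ := exists_norm_one (by omega) h b A
    refine ⟨A', hR' A' hA1 fun i j => ?_, hA2⟩
    rw [hA2]
    exact (h3 i j).le
  have h3 := hK.isClosed.closure_subset_iff.2 h2 h1
  obtain ⟨A, -, hA⟩ := h3
  exact ⟨A, hA⟩

theorem le_range (hn : 2 ≤ n) (h : SlId e) (b : Module.Basis (Fin N) ℝ L) :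
    (Subgroup.closure (Set.range fun x : L => ex (LinearMap.toMatrix b b (LieAlgebra.ad ℝ L x)))).topologicalClosure ≤ (AdU h b).range := by
  refine Subgroup.topologicalClosure_minimal _ ?_ (isClosed_range hn h b)
  rw [Subgroup.closure_le]
  rintro _ ⟨x, rfl⟩
  exact ⟨_, (ex_ad h b x).symm⟩

/-- The kernel consists of scalars. -/
theorem ker_scalar (h : SlId e) (b : Module.Basis (Fin N) ℝ L) {A B : GL (Fin n) 𝕜} (hAB : AdU h b A = AdU h b B) :
    ∃ c : 𝕜, (A : Matrix (Fin n) (Fin n) 𝕜) = c • (B : Matrix (Fin n) (Fin n) 𝕜) := by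
  have h1 : AdU h b (B⁻¹ * A) = 1 := by rw [map_mul, map_inv, hAB, inv_mul_cancel]
  have h2 : ∀ X : Matrix (Fin n) (Fin n) 𝕜, X.trace = 0 →
      ((B⁻¹ * A : GL (Fin n) 𝕜) : Matrix (Fin n) (Fin n) 𝕜) * X = X * ((B⁻¹ * A : GL (Fin n) 𝕜) : Matrix (Fin n) (Fin n) 𝕜) := by
    intro X hX
    obtain ⟨x, rfl⟩ := (h.range X).1 hX
    have h3 := toLin_AdU h b (B⁻¹ * A) x
    rw [h1, Units.val_one, toLin_one] at h3
    have h4 : e x = e ((LinearMap.id : L →ₗ[ℝ] L) x) := rfl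
    rw [← h4] at h3
    obtain ⟨D, hD⟩ : ∃ D : GL (Fin n) 𝕜, D = B⁻¹ * A := ⟨_, rfl⟩
    rw [← hD] at h3 ⊢
    have h5 := congrArg (fun M => M * (D : Matrix (Fin n) (Fin n) 𝕜)) h3
    simp only [Matrix.mul_assoc] at h5
    rw [← Units.val_mul, inv_mul_cancel, Units.val_one, Matrix.mul_one] at h5
    exact h5.symm
  obtain ⟨c, hc⟩ : ∃ c : 𝕜, ((B⁻¹ * A : GL (Fin n) 𝕜) : Matrix (Fin n) (Fin n) 𝕜) = c • (1 : Matrix (Fin n) (Fin n) 𝕜) := by
    have h3 : ((B⁻¹ * A : GL (Fin n) 𝕜) : Matrix (Fin n) (Fin n) 𝕜) ∈ Set.range (Matrix.scalar (Fin n)) := by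
      rw [Matrix.mem_range_scalar_iff_commute_single]
      intro i j hij
      exact (h2 _ (Matrix.trace_single_eq_of_ne _ _ _ hij)).symm
    obtain ⟨c, hc⟩ := h3
    refine ⟨c, ?_⟩
    rw [← hc, Matrix.scalar_apply, Matrix.smul_one_eq_diagonal]
  refine ⟨c, ?_⟩
  have h3 : A = B * (B⁻¹ * A) := by group
  have h4 : (A : Matrix (Fin n) (Fin n) 𝕜) = (B : Matrix (Fin n) (Fin n) 𝕜) * ((B⁻¹ * A : GL (Fin n) 𝕜) : Matrix (Fin n) (Fin n) 𝕜) := by
    rw [← Units.val_mul, ← h3]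
  rw [h4, hc, mul_smul_comm, Matrix.mul_one]

/-- Discrete subgroups of the adjoint group of `sl(n, 𝕜)` have proper projective representations by matrices over `𝕜`. -/
theorem rep_adj (φ : 𝕜 →+* ℂ) (hφ : ∀ x, ‖φ x‖ = ‖x‖) (hn : 2 ≤ n) (h : SlId e) (b : Module.Basis (Fin N) ℝ L) {G : Subgroup (GL (Fin N) ℝ)}
    (hGc : IsClosed (G : Set (GL (Fin N) ℝ)))
    (hG : G ≤ (Subgroup.closure (Set.range fun x : L => ex (LinearMap.toMatrix b b (LieAlgebra.ad ℝ L x)))).topologicalClosure)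
    (Γ : Subgroup G) (hΓ : DiscreteTopology Γ) :
    ∃ ρ : PRep Γ n, ∀ g, ∃ A : Matrix (Fin n) (Fin n) 𝕜, ρ.ι g = A.map φ := by
  have hex : ∀ g : G, ∃ A : GL (Fin n) 𝕜, ‖(A : Matrix (Fin n) (Fin n) 𝕜).det‖ = 1 ∧ AdU h b A = (g : GL (Fin N) ℝ) := by
    intro g
    obtain ⟨A, hA⟩ := le_range hn h b (hG g.2)
    obtain ⟨A', h1, h2⟩ := exists_norm_one (by omega) h b A
    exact ⟨A', h1, h2.trans hA⟩
  choose A hA1 hA2 using hex
  refine ⟨⟨fun g => ((A g.1 : GL (Fin n) 𝕜) : Matrix (Fin n) (Fin n) 𝕜).map φ, fun g => ?_, fun g g' => ?_, fun R => ?_⟩, fun g => ⟨_, rfl⟩⟩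
  · rw [← RingHom.mapMatrix_apply, ← RingHom.map_det, hφ, hA1]
  · have h1 : AdU h b (A (g * g').1) = AdU h b (A g.1 * A g'.1) := by
      rw [map_mul, hA2, hA2, hA2]
      rfl
    obtain ⟨c, hc⟩ := ker_scalar h b h1
    have hc1 : ‖c‖ = 1 := by
      have h2 := congrArg (fun M => ‖Matrix.det M‖) hc
      simp only [Matrix.det_smul, Units.val_mul, Matrix.det_mul, norm_mul, norm_pow, hA1, Fintype.card_fin, mul_one] at h2
      exact (pow_eq_one_iff_of_nonneg (norm_nonneg c) (by omega)).1 h2.symm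
    refine ⟨φ c, by rw [hφ, hc1], ?_⟩
    rw [hc, Units.val_mul]
    ext i j
    rw [Matrix.map_apply, Matrix.smul_apply, smul_eq_mul, map_mul, Matrix.smul_apply, smul_eq_mul, ← Matrix.map_mul,
      Matrix.map_apply]
  · have hK : IsCompact (AdU h b '' KR 𝕜 n R) := (isCompact_KR R).image (continuous_AdU h b)
    have hK2 : IsCompact ((Subtype.val : G → GL (Fin N) ℝ) ⁻¹' (AdU h b '' KR 𝕜 n R)) := hGc.isClosedEmbedding_subtypeVal.isCompact_preimage hK
    have hcl : IsClosed (Γ : Set G) := Subgroup.isClosed_of_discrete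
    have hK3 : IsCompact ((Subtype.val : Γ → G) ⁻¹' ((Subtype.val : G → GL (Fin N) ℝ) ⁻¹' (AdU h b '' KR 𝕜 n R))) :=
      hcl.isClosedEmbedding_subtypeVal.isCompact_preimage hK2
    refine (isCompact_iff_finite.1 hK3).subset fun g hg => ?_
    refine ⟨A g.1, ⟨hA1 _, fun i j => ?_⟩, hA2 _⟩
    have h1 := hg i j
    rw [Matrix.map_apply, hφ] at h1
    exact h1

end Ad

end Pool.Agent.Helper55.TZ
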