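import Pool.Agent.Helper55.FP.Theta

/-!
# Project TZ (MP_0f6f3f_an): averages of operators

`PU Φ`: positive unital contractive maps on the operators of `K`. `exists_exp`: for a set `𝒰` of commuting unitaries a map `PU Φ` with values in the commutant of `𝒰`, compatible with all unitaries which commute with `𝒰`.
`exists_am`: the average over a group with amenable multipliers.
-/

set_option autoImplicit false
set_option linter.unusedSectionVars false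

open Filter Topology

namespace Pool.Agent.Helper55.TZ

variable {K : Type*} [NormedAddCommGroup K] [InnerProductSpace ℂ K] [CompleteSpace K]

/-- Conjugation by a unitary. -/
noncomputable def cn (T : K ≃ₗᵢ[ℂ] K) (Y : K →L[ℂ] K) : K →L[ℂ] K :=
  ((T : K ≃ₗᵢ[ℂ] K).toContinuousLinearEquiv : K →L[ℂ] K).comp
    (Y.comp ((T⁻¹ : K ≃ₗᵢ[ℂ] K).toContinuousLinearEquiv : K →L[ℂ] K))

theorem cn_apply (T : K ≃ₗᵢ[ℂ] K) (Y : K →L[ℂ] K) (x : K) : cn T Y x = T (Y (T⁻¹ x)) := rfl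

theorem inv_app (T : K ≃ₗᵢ[ℂ] K) (x : K) : T⁻¹ (T x) = x := T.symm_apply_apply x

theorem app_inv (T : K ≃ₗᵢ[ℂ] K) (x : K) : T (T⁻¹ x) = x := T.apply_symm_apply x

theorem cn_eq {T : K ≃ₗᵢ[ℂ] K} {Y : K →L[ℂ] K} : cn T Y = Y ↔ ∀ x, T (Y x) = Y (T x) := by
  constructor
  · intro h x
    have h1 := DFunLike.congr_fun h (T x)
    rwa [cn_apply, inv_app] at h1
  · intro h
    ext x
    rw [cn_apply, h, app_inv]

theorem norm_cn (T : K ≃ₗᵢ[ℂ] K) (Y : K →L[ℂ] K) : ‖cn T Y‖ ≤ ‖Y‖ := by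
  refine ContinuousLinearMap.opNorm_le_bound _ (norm_nonneg _) fun x => ?_
  rw [cn_apply, LinearIsometryEquiv.norm_map]
  refine (Y.le_opNorm _).trans ?_
  rw [LinearIsometryEquiv.norm_map]

theorem cn_sub (T : K ≃ₗᵢ[ℂ] K) (Y Y' : K →L[ℂ] K) : cn T (Y - Y') = cn T Y - cn T Y' := by
  ext x
  simp only [cn_apply, sub_apply, map_sub]

theorem cn_mul (T S : K ≃ₗᵢ[ℂ] K) (Y : K →L[ℂ] K) : cn (T * S) Y = cn T (cn S Y) := by
  ext x
  rw [cn_apply, cn_apply, cn_apply, mul_inv_rev]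
  rfl

/-- Positive unital contractive maps on the operators. -/
structure PU (Φ : (K →L[ℂ] K) →ₗ[ℂ] (K →L[ℂ] K)) : Prop where
  norm : ∀ Y, ‖Φ Y‖ ≤ ‖Y‖
  one : Φ (ContinuousLinearMap.id ℂ K) = ContinuousLinearMap.id ℂ K
  symm : ∀ Y : K →L[ℂ] K, (∀ x y, (inner ℂ (Y x) y : ℂ) = inner ℂ x (Y y)) → ∀ x y, (inner ℂ (Φ Y x) y : ℂ) = inner ℂ x (Φ Y y)
  pos : ∀ Y : K →L[ℂ] K, (∀ x, 0 ≤ (inner ℂ x (Y x) : ℂ).re) → ∀ x, 0 ≤ (inner ℂ x (Φ Y x) : ℂ).re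

theorem PU.comp {Φ Ψ : (K →L[ℂ] K) →ₗ[ℂ] (K →L[ℂ] K)} (h : PU Φ) (h' : PU Ψ) : PU (Φ.comp Ψ) where
  norm Y := (h.norm _).trans (h'.norm _)
  one := by rw [LinearMap.comp_apply, h'.one, h.one]
  symm Y hY := h.symm _ (h'.symm Y hY)
  pos Y hY := h.pos _ (h'.pos Y hY)

theorem PU.id : PU (LinearMap.id : (K →L[ℂ] K) →ₗ[ℂ] (K →L[ℂ] K)) where
  norm _ := le_rfl
  one := rfl
  symm _ hY := hY
  pos _ hY := hY

section lim

variable {α : Type*} (𝓤 : Ultrafilter α)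

/-- Limits of maps on the operators. -/
theorem exists_lim (Ψ : α → (K →L[ℂ] K) →ₗ[ℂ] (K →L[ℂ] K)) (h : ∀ i, PU (Ψ i)) :
    ∃ Φ : (K →L[ℂ] K) →ₗ[ℂ] (K →L[ℂ] K), PU Φ ∧
      ∀ Y x y, Tendsto (fun i => (inner ℂ (Ψ i Y x) y : ℂ)) 𝓤 (𝓝 (inner ℂ (Φ Y x) y)) := by
  have h0 : ∀ Y : K →L[ℂ] K, ∃ T : K →L[ℂ] K, ∀ x y, Tendsto (fun i => (inner ℂ (Ψ i Y x) y : ℂ)) 𝓤 (𝓝 (inner ℂ (T x) y)) := by
    intro Y
    have hc : (0 : ℝ) < ‖Y‖ + 1 := by positivity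
    have hc' : ((‖Y‖ + 1 : ℝ) : ℂ) ≠ 0 := Complex.ofReal_ne_zero.2 hc.ne'
    obtain ⟨T, hT⟩ := FP.exists_op (U := K) 𝓤 (fun i x y => ((‖Y‖ + 1 : ℝ) : ℂ)⁻¹ * (inner ℂ (Ψ i Y x) y : ℂ))
      (fun i x y z => by rw [map_add, inner_add_left, mul_add])
      (fun i c x z => by rw [map_smul, inner_smul_left, mul_left_comm])
      (fun i x y z => by rw [inner_add_right, mul_add])
      (fun i c x z => by rw [inner_smul_right, mul_left_comm])
      (fun i x y => by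
        rw [norm_mul, norm_inv, Complex.norm_real, Real.norm_of_nonneg hc.le, inv_mul_le_iff₀ hc]
        refine (norm_inner_le_norm _ _).trans ?_
        rw [← mul_assoc]
        refine mul_le_mul_of_nonneg_right ?_ (norm_nonneg _)
        refine ((Ψ i Y).le_opNorm x).trans (mul_le_mul_of_nonneg_right ?_ (norm_nonneg _))
        exact ((h i).norm Y).trans (by linarith))
    refine ⟨((‖Y‖ + 1 : ℝ) : ℂ) • T, fun x y => ?_⟩
    have h1 := (hT x y).const_mul ((‖Y‖ + 1 : ℝ) : ℂ)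
    rw [smul_apply, inner_smul_left, Complex.conj_ofReal]
    refine h1.congr fun i => ?_
    rw [mul_inv_cancel_left₀ hc']
  choose Φ hΦ using h0
  have huniq : ∀ (T T' : K →L[ℂ] K) (b : α → K → K → ℂ), (∀ x y, Tendsto (fun i => b i x y) 𝓤 (𝓝 (inner ℂ (T x) y))) →
      (∀ x y, Tendsto (fun i => b i x y) 𝓤 (𝓝 (inner ℂ (T' x) y))) → T = T' := by
    intro T T' b h1 h2
    ext x
    refine ext_inner_right ℂ fun y => ?_
    exact tendsto_nhds_unique (h1 x y) (h2 x y)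
  refine ⟨{ toFun := Φ
            map_add' := fun Y Y' => huniq _ _ (fun i x y => inner ℂ (Ψ i (Y + Y') x) y) (hΦ _) fun x y => by
              have h1 := (hΦ Y x y).add (hΦ Y' x y)
              rw [← inner_add_left] at h1
              refine h1.congr fun i => ?_
              rw [map_add, ← inner_add_left]
              rfl
            map_smul' := fun c Y => huniq _ _ (fun i x y => inner ℂ (Ψ i (c • Y) x) y) (hΦ _) fun x y => by
              have h1 := (hΦ Y x y).const_mul (starRingEnd ℂ c)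
              rw [← inner_smul_left] at h1
              refine h1.congr fun i => ?_
              rw [map_smul, ← inner_smul_left]
              rfl }, ⟨fun Y => ?_, ?_, fun Y hY x y => ?_, fun Y hY x => ?_⟩, fun Y x y => hΦ Y x y⟩
  · refine ContinuousLinearMap.opNorm_le_bound _ (norm_nonneg _) fun x => ?_
    show ‖Φ Y x‖ ≤ ‖Y‖ * ‖x‖
    have h1 := (hΦ Y x (Φ Y x)).norm
    have h2 : ‖(inner ℂ (Φ Y x) (Φ Y x) : ℂ)‖ ≤ ‖Y‖ * ‖x‖ * ‖Φ Y x‖ := by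
      refine le_of_tendsto h1 (Filter.Eventually.of_forall fun i => ?_)
      refine (norm_inner_le_norm _ _).trans (mul_le_mul_of_nonneg_right ?_ (norm_nonneg _))
      exact ((Ψ i Y).le_opNorm x).trans (mul_le_mul_of_nonneg_right ((h i).norm Y) (norm_nonneg _))
    rw [inner_self_eq_norm_sq_to_K, norm_pow] at h2
    simp only [RCLike.norm_ofReal, abs_norm] at h2
    rcases (norm_nonneg (Φ Y x)).eq_or_lt with h3 | h3
    · rw [← h3]
      positivity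
    · rw [sq] at h2
      exact le_of_mul_le_mul_right h2 h3
  · refine huniq _ _ (fun i x y => inner ℂ (Ψ i (ContinuousLinearMap.id ℂ K) x) y) (hΦ _) fun x y => ?_
    refine tendsto_const_nhds.congr fun i => ?_
    rw [(h i).one]
  · show (inner ℂ (Φ Y x) y : ℂ) = inner ℂ x (Φ Y y)
    refine tendsto_nhds_unique (hΦ Y x y) ?_
    have h1 := (Complex.continuous_conj.tendsto _).comp (hΦ Y y x)
    rw [inner_conj_symm] at h1
    refine h1.congr fun i => ?_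
    show starRingEnd ℂ (inner ℂ (Ψ i Y y) x : ℂ) = _
    rw [inner_conj_symm, (h i).symm Y hY]
  · show 0 ≤ (inner ℂ x (Φ Y x) : ℂ).re
    rw [← inner_conj_symm, Complex.conj_re]
    have h1 := (Complex.continuous_re.tendsto _).comp (hΦ Y x x)
    refine ge_of_tendsto h1 (Filter.Eventually.of_forall fun i => ?_)
    show 0 ≤ (inner ℂ (Ψ i Y x) x : ℂ).re
    rw [← inner_conj_symm, Complex.conj_re]
    exact (h i).pos Y hY x

end lim

section sum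

/-- `Y ↦ ∑ A t† Y A t`. -/
noncomputable def avS {T : Type*} (S : Finset T) (A : T → (K →L[ℂ] K)) : (K →L[ℂ] K) →ₗ[ℂ] (K →L[ℂ] K) where
  toFun Y := ∑ t ∈ S, (ContinuousLinearMap.adjoint (A t)).comp (Y.comp (A t))
  map_add' Y Y' := by
    rw [← Finset.sum_add_distrib]
    refine Finset.sum_congr rfl fun t _ => ?_
    ext x
    simp
  map_smul' c Y := by
    rw [Finset.smul_sum]
    refine Finset.sum_congr rfl fun t _ => ?_
    ext x
    simp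

theorem inner_avS {T : Type*} (S : Finset T) (A : T → (K →L[ℂ] K)) (Y : K →L[ℂ] K) (x y : K) :
    (inner ℂ (avS S A Y x) y : ℂ) = ∑ t ∈ S, inner ℂ (Y (A t x)) (A t y) := by
  show (inner ℂ ((∑ t ∈ S, (ContinuousLinearMap.adjoint (A t)).comp (Y.comp (A t))) x) y : ℂ) = _
  rw [sum_apply, sum_inner]
  refine Finset.sum_congr rfl fun t _ => ?_
  rw [ContinuousLinearMap.comp_apply, ContinuousLinearMap.adjoint_inner_left]
  rfl

theorem inner_avS' {T : Type*} (S : Finset T) (A : T → (K →L[ℂ] K)) (Y : K →L[ℂ] K) (x y : K) :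
    (inner ℂ x (avS S A Y y) : ℂ) = ∑ t ∈ S, inner ℂ (A t x) (Y (A t y)) := by
  rw [← inner_conj_symm, inner_avS, map_sum]
  exact Finset.sum_congr rfl fun t _ => inner_conj_symm _ _

theorem cs_sum {T : Type*} (S : Finset T) (a b : T → ℝ) {x y : ℝ} (hx : 0 ≤ x) (hy : 0 ≤ y)
    (ha : ∑ t ∈ S, a t ^ 2 ≤ x ^ 2) (hb : ∑ t ∈ S, b t ^ 2 ≤ y ^ 2) : ∑ t ∈ S, a t * b t ≤ x * y := by
  have h1 := Finset.sum_mul_sq_le_sq_mul_sq S a b
  have h2 : (∑ t ∈ S, a t * b t) ^ 2 ≤ (x * y) ^ 2 := by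
    rw [mul_pow]
    exact h1.trans (mul_le_mul ha hb (Finset.sum_nonneg fun _ _ => sq_nonneg _) (sq_nonneg _))
  exact le_of_sq_le_sq h2 (mul_nonneg hx hy)

theorem PU.avS {T : Type*} {S : Finset T} {A : T → (K →L[ℂ] K)} (hA : ∀ x, ∑ t ∈ S, ‖A t x‖ ^ 2 = ‖x‖ ^ 2) :
    PU (avS S A) where
  norm Y := by
    refine ContinuousLinearMap.opNorm_le_bound _ (norm_nonneg _) fun x => ?_
    have h0 : ∀ y, ‖(inner ℂ (TZ.avS S A Y x) y : ℂ)‖ ≤ ‖Y‖ * ‖x‖ * ‖y‖ := by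
      intro y
      rw [inner_avS]
      refine (norm_sum_le _ _).trans ?_
      have h1 : ∀ t ∈ S, ‖(inner ℂ (Y (A t x)) (A t y) : ℂ)‖ ≤ ‖Y‖ * (‖A t x‖ * ‖A t y‖) := fun t _ => by
        refine (norm_inner_le_norm _ _).trans ?_
        rw [← mul_assoc]
        exact mul_le_mul_of_nonneg_right (Y.le_opNorm _) (norm_nonneg _)
      refine (Finset.sum_le_sum h1).trans ?_
      rw [← Finset.mul_sum, mul_assoc]
      exact mul_le_mul_of_nonneg_left (cs_sum S _ _ (norm_nonneg _) (norm_nonneg _) (hA x).le (hA y).le) (norm_nonneg _)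
    have h2 := h0 (TZ.avS S A Y x)
    rw [inner_self_eq_norm_sq_to_K, norm_pow] at h2
    simp only [RCLike.norm_ofReal, abs_norm] at h2
    rcases (norm_nonneg (TZ.avS S A Y x)).eq_or_lt with h3 | h3
    · rw [← h3]
      positivity
    · rw [sq] at h2
      exact le_of_mul_le_mul_right h2 h3
  one := by
    have h4 : ((TZ.avS S A (ContinuousLinearMap.id ℂ K) : K →L[ℂ] K) : K →ₗ[ℂ] K) = LinearMap.id := by
      rw [← ext_inner_map]
      intro x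
      show (inner ℂ (TZ.avS S A (ContinuousLinearMap.id ℂ K) x) x : ℂ) = inner ℂ x x
      rw [inner_avS, inner_self_eq_norm_sq_to_K]
      have h5 : ∀ t ∈ S, (inner ℂ ((ContinuousLinearMap.id ℂ K) (A t x)) (A t x) : ℂ) = ((‖A t x‖ ^ 2 : ℝ) : ℂ) := fun t _ => by
        rw [ContinuousLinearMap.id_apply, inner_self_eq_norm_sq_to_K]
        push_cast
        rfl
      rw [Finset.sum_congr rfl h5, ← Complex.ofReal_sum, hA]
      push_cast
      rfl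
    ext x
    exact congrArg (fun T : K →ₗ[ℂ] K => T x) h4
  symm Y hY x y := by
    rw [inner_avS, inner_avS']
    exact Finset.sum_congr rfl fun t _ => hY _ _
  pos Y hY x := by
    rw [inner_avS', Complex.re_sum]
    exact Finset.sum_nonneg fun t _ => hY _

/-- Unitaries which commute with the coefficients. -/
theorem avS_cn {T : Type*} {S : Finset T} {A : T → (K →L[ℂ] K)} {R : K ≃ₗᵢ[ℂ] K} (h : ∀ t ∈ S, ∀ x, A t (R x) = R (A t x))
    (Y : K →L[ℂ] K) : avS S A (cn R Y) = cn R (avS S A Y) := by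
  have h' : ∀ t ∈ S, ∀ x, A t (R⁻¹ x) = R⁻¹ (A t x) := fun t ht x => by
    have h1 := h t ht (R⁻¹ x)
    rw [app_inv] at h1
    rw [h1, inv_app]
  ext x
  refine ext_inner_right ℂ fun y => ?_
  rw [inner_avS, cn_apply, ← app_inv R y, LinearIsometryEquiv.inner_map_map, inner_avS]
  refine Finset.sum_congr rfl fun t ht => ?_
  rw [cn_apply, h t ht, LinearIsometryEquiv.inner_map_map, h' t ht, h' t ht]

end sum

section ces

/-- The coefficients of the Cesàro averages. -/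
noncomputable def cA (u : K ≃ₗᵢ[ℂ] K) (n : ℕ) (t : ℕ) : K →L[ℂ] K :=
  ((Real.sqrt ((n : ℝ) + 1))⁻¹ : ℂ) • (((u⁻¹) ^ t : K ≃ₗᵢ[ℂ] K).toContinuousLinearEquiv : K →L[ℂ] K)

theorem cA_apply (u : K ≃ₗᵢ[ℂ] K) (n t : ℕ) (x : K) :
    cA u n t x = ((Real.sqrt ((n : ℝ) + 1))⁻¹ : ℂ) • ((u⁻¹) ^ t : K ≃ₗᵢ[ℂ] K) x := rfl

/-- The Cesàro averages of the conjugates. -/
noncomputable def ces (u : K ≃ₗᵢ[ℂ] K) (n : ℕ) : (K →L[ℂ] K) →ₗ[ℂ] (K →L[ℂ] K) := avS (Finset.range (n + 1)) (cA u n)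

theorem sq_cA (n : ℕ) : ((n : ℝ) + 1) * ((Real.sqrt ((n : ℝ) + 1))⁻¹ ^ 2) = 1 := by
  have h : (0 : ℝ) < (n : ℝ) + 1 := by positivity
  rw [inv_pow, Real.sq_sqrt h.le, mul_inv_cancel₀ h.ne']

theorem PU.ces (u : K ≃ₗᵢ[ℂ] K) (n : ℕ) : PU (ces u n) := by
  refine PU.avS fun x => ?_
  have h1 : ∀ t ∈ Finset.range (n + 1), ‖cA u n t x‖ ^ 2 = (Real.sqrt ((n : ℝ) + 1))⁻¹ ^ 2 * ‖x‖ ^ 2 := fun t _ => by
    rw [cA_apply, norm_smul, LinearIsometryEquiv.norm_map, mul_pow]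
    congr 2
    rw [norm_inv, Complex.norm_real, Real.norm_of_nonneg (Real.sqrt_nonneg _)]
  rw [Finset.sum_congr rfl h1, Finset.sum_const, Finset.card_range, nsmul_eq_mul, ← mul_assoc]
  push_cast
  rw [sq_cA, one_mul]

theorem inner_ces (u : K ≃ₗᵢ[ℂ] K) (n : ℕ) (Y : K →L[ℂ] K) (x y : K) :
    (inner ℂ (ces u n Y x) y : ℂ) = ((((n : ℝ) + 1)⁻¹ : ℝ) : ℂ) *
      ∑ t ∈ Finset.range (n + 1), inner ℂ (Y (((u⁻¹) ^ t : K ≃ₗᵢ[ℂ] K) x)) (((u⁻¹) ^ t : K ≃ₗᵢ[ℂ] K) y) := by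
  unfold ces
  rw [inner_avS, Finset.mul_sum]
  refine Finset.sum_congr rfl fun t _ => ?_
  rw [cA_apply, cA_apply, map_smul, inner_smul_left, inner_smul_right, ← mul_assoc]
  congr 1
  rw [map_inv₀, Complex.conj_ofReal, ← mul_inv, ← Complex.ofReal_mul, Real.mul_self_sqrt (by positivity)]
  push_cast
  rfl

/-- Almost invariance of the Cesàro averages. -/
theorem ces_inv (u : K ≃ₗᵢ[ℂ] K) (n : ℕ) (Y : K →L[ℂ] K) (x y : K) :
    ‖(inner ℂ (cn u (ces u n Y) x) y : ℂ) - inner ℂ (ces u n Y x) y‖ ≤ 2 * (((n : ℝ) + 1)⁻¹ * (‖Y‖ * ‖x‖ * ‖y‖)) := by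
  set f : ℕ → ℂ := fun t => inner ℂ (Y (((u⁻¹) ^ t : K ≃ₗᵢ[ℂ] K) x)) (((u⁻¹) ^ t : K ≃ₗᵢ[ℂ] K) y) with hf
  have h1 : (inner ℂ (cn u (ces u n Y) x) y : ℂ) = ((((n : ℝ) + 1)⁻¹ : ℝ) : ℂ) * ∑ t ∈ Finset.range (n + 1), f (t + 1) := by
    rw [cn_apply, ← app_inv u y, LinearIsometryEquiv.inner_map_map, inner_ces]
    congr 1
  have h2 : ∑ t ∈ Finset.range (n + 1), f (t + 1) - ∑ t ∈ Finset.range (n + 1), f t = f (n + 1) - f 0 := by
    rw [← Finset.sum_sub_distrib, Finset.sum_range_sub]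
  have h3 : ∀ t, ‖f t‖ ≤ ‖Y‖ * ‖x‖ * ‖y‖ := fun t => by
    refine (norm_inner_le_norm _ _).trans ?_
    rw [LinearIsometryEquiv.norm_map]
    refine mul_le_mul_of_nonneg_right ((Y.le_opNorm _).trans ?_) (norm_nonneg _)
    rw [LinearIsometryEquiv.norm_map]
  have hn : (0 : ℝ) ≤ ((n : ℝ) + 1)⁻¹ := by positivity
  rw [h1, inner_ces, ← mul_sub, h2, norm_mul, Complex.norm_real, Real.norm_of_nonneg hn]
  refine (mul_le_mul_of_nonneg_left (norm_sub_le _ _) hn).trans ?_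
  have h4 := h3 (n + 1)
  have h5 := h3 0
  nlinarith

/-- Iterated averages. -/
noncomputable def lav : List (K ≃ₗᵢ[ℂ] K) → ℕ → ((K →L[ℂ] K) →ₗ[ℂ] (K →L[ℂ] K))
  | [], _ => LinearMap.id
  | u :: l, n => (ces u n).comp (lav l n)

theorem PU.lav : ∀ (l : List (K ≃ₗᵢ[ℂ] K)) (n : ℕ), PU (lav l n)
  | [], _ => PU.id
  | u :: l, n => (PU.ces u n).comp (PU.lav l n)

theorem pow_comm_app {u R : K ≃ₗᵢ[ℂ] K} (h : R * u = u * R) (t : ℕ) (x : K) :
    ((u⁻¹) ^ t : K ≃ₗᵢ[ℂ] K) (R x) = R (((u⁻¹) ^ t : K ≃ₗᵢ[ℂ] K) x) := by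
  have h1 : Commute R u := h
  have h2 : Commute R ((u⁻¹) ^ t) := (h1.inv_right).pow_right t
  have h3 := congrArg (fun T : K ≃ₗᵢ[ℂ] K => T x) h2.eq
  exact h3.symm

theorem ces_cn {u R : K ≃ₗᵢ[ℂ] K} (h : R * u = u * R) (n : ℕ) (Y : K →L[ℂ] K) : ces u n (cn R Y) = cn R (ces u n Y) := by
  refine avS_cn (fun t _ x => ?_) Y
  rw [cA_apply, cA_apply, pow_comm_app h, map_smul]

theorem lav_cn {R : K ≃ₗᵢ[ℂ] K} : ∀ (l : List (K ≃ₗᵢ[ℂ] K)), (∀ u ∈ l, R * u = u * R) → ∀ (n : ℕ) (Y : K →L[ℂ] K),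
    lav l n (cn R Y) = cn R (lav l n Y)
  | [], _, _, _ => rfl
  | u :: l, h, n, Y => by
    show ces u n (lav l n (cn R Y)) = cn R (ces u n (lav l n Y))
    rw [lav_cn l (fun v hv => h v (List.mem_cons_of_mem _ hv)) n Y, ces_cn (h u List.mem_cons_self)]

theorem lav_inv {v : K ≃ₗᵢ[ℂ] K} : ∀ (l : List (K ≃ₗᵢ[ℂ] K)), (∀ u ∈ l, v * u = u * v) → v ∈ l → ∀ (n : ℕ) (Y : K →L[ℂ] K) (x y : K),
    ‖(inner ℂ (cn v (lav l n Y) x) y : ℂ) - inner ℂ (lav l n Y x) y‖ ≤ 2 * (((n : ℝ) + 1)⁻¹ * (‖Y‖ * ‖x‖ * ‖y‖)) := by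
  intro l
  induction l with
  | nil => intro _ h; exact absurd h List.not_mem_nil
  | cons u l ih =>
    intro hc hv n Y x y
    have hn : (0 : ℝ) ≤ ((n : ℝ) + 1)⁻¹ := by positivity
    by_cases hu : v = u
    · subst hu
      show ‖(inner ℂ (cn v (ces v n (lav l n Y)) x) y : ℂ) - inner ℂ (ces v n (lav l n Y) x) y‖ ≤ _
      refine (ces_inv v n (lav l n Y) x y).trans ?_
      have h1 := (PU.lav l n).norm Y
      have h2 : ‖lav l n Y‖ * ‖x‖ * ‖y‖ ≤ ‖Y‖ * ‖x‖ * ‖y‖ := by gcongr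
      nlinarith
    · have hv' : v ∈ l := by
        rcases List.mem_cons.1 hv with h | h
        · exact absurd h hu
        · exact h
      have hvu : v * u = u * v := hc u List.mem_cons_self
      show ‖(inner ℂ (cn v (ces u n (lav l n Y)) x) y : ℂ) - inner ℂ (ces u n (lav l n Y) x) y‖ ≤ _
      rw [← ces_cn hvu, inner_ces, inner_ces, ← mul_sub, norm_mul, Complex.norm_real, Real.norm_of_nonneg hn,
        ← Finset.sum_sub_distrib]
      have h1 : ∀ t ∈ Finset.range (n + 1), ‖(inner ℂ (cn v (lav l n Y) (((u⁻¹) ^ t : K ≃ₗᵢ[ℂ] K) x)) (((u⁻¹) ^ t : K ≃ₗᵢ[ℂ] K) y) : ℂ) -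
          inner ℂ (lav l n Y (((u⁻¹) ^ t : K ≃ₗᵢ[ℂ] K) x)) (((u⁻¹) ^ t : K ≃ₗᵢ[ℂ] K) y)‖ ≤
            2 * (((n : ℝ) + 1)⁻¹ * (‖Y‖ * ‖x‖ * ‖y‖)) := fun t _ => by
        have h2 := ih (fun w hw => hc w (List.mem_cons_of_mem _ hw)) hv' n Y (((u⁻¹) ^ t : K ≃ₗᵢ[ℂ] K) x)
          (((u⁻¹) ^ t : K ≃ₗᵢ[ℂ] K) y)
        rwa [LinearIsometryEquiv.norm_map, LinearIsometryEquiv.norm_map] at h2
      refine (mul_le_mul_of_nonneg_left ((norm_sum_le _ _).trans (Finset.sum_le_sum h1)) hn).trans ?_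
      rw [Finset.sum_const, Finset.card_range, nsmul_eq_mul, ← mul_assoc]
      push_cast
      rw [inv_mul_cancel₀ (by positivity : ((n : ℝ) + 1) ≠ 0), one_mul]

/-- **Expectation onto the commutant of commuting unitaries.** -/
theorem exists_exp (𝒰 : Set (K ≃ₗᵢ[ℂ] K)) (hc : ∀ u ∈ 𝒰, ∀ v ∈ 𝒰, u * v = v * u) :
    ∃ Φ : (K →L[ℂ] K) →ₗ[ℂ] (K →L[ℂ] K), PU Φ ∧ (∀ u ∈ 𝒰, ∀ Y, cn u (Φ Y) = Φ Y) ∧
      ∀ R : K ≃ₗᵢ[ℂ] K, (∀ u ∈ 𝒰, R * u = u * R) → ∀ Y, Φ (cn R Y) = cn R (Φ Y) := by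
  classical
  let 𝓤 : Ultrafilter (Finset {u // u ∈ 𝒰} × ℕ) := Ultrafilter.of atTop
  have h𝓤 : (𝓤 : Filter (Finset {u // u ∈ 𝒰} × ℕ)) ≤ atTop := Ultrafilter.of_le _
  let Ψ : Finset {u // u ∈ 𝒰} × ℕ → ((K →L[ℂ] K) →ₗ[ℂ] (K →L[ℂ] K)) := fun i =>
    lav (i.1.toList.map Subtype.val) i.2
  have hmem : ∀ (s : Finset {u // u ∈ 𝒰}) (u : K ≃ₗᵢ[ℂ] K), u ∈ s.toList.map Subtype.val → u ∈ 𝒰 := by
    intro s u hu
    obtain ⟨v, _, rfl⟩ := List.mem_map.1 hu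
    exact v.2
  obtain ⟨Φ, hΦ, hlim⟩ := exists_lim 𝓤 Ψ fun i => PU.lav _ _
  have hcn : ∀ (R : K ≃ₗᵢ[ℂ] K) (Y : K →L[ℂ] K) (x y : K),
      Tendsto (fun i => (inner ℂ (cn R (Ψ i Y) x) y : ℂ)) 𝓤 (𝓝 (inner ℂ (cn R (Φ Y) x) y)) := by
    intro R Y x y
    have h1 := hlim Y (R⁻¹ x) (R⁻¹ y)
    have h2 : ∀ Z : K →L[ℂ] K, (inner ℂ (cn R Z x) y : ℂ) = inner ℂ (Z (R⁻¹ x)) (R⁻¹ y) := fun Z => by
      rw [cn_apply, ← LinearIsometryEquiv.inner_map_map R (Z (R⁻¹ x)) (R⁻¹ y), app_inv]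
    rw [h2]
    exact h1.congr fun i => (h2 _).symm
  refine ⟨Φ, hΦ, fun u hu Y => ?_, fun R hR Y => ?_⟩
  · ext x
    refine ext_inner_right ℂ fun y => ?_
    have h1 := (hcn u Y x y).sub (hlim Y x y)
    have h2 : Tendsto (fun i => (inner ℂ (cn u (Ψ i Y) x) y : ℂ) - inner ℂ (Ψ i Y x) y) 𝓤 (𝓝 0) := by
      refine Tendsto.mono_left ?_ h𝓤
      rw [tendsto_zero_iff_norm_tendsto_zero]
      have h3 : Tendsto (fun i : Finset {u // u ∈ 𝒰} × ℕ => 2 * (((i.2 : ℝ) + 1)⁻¹ * (‖Y‖ * ‖x‖ * ‖y‖))) atTop (𝓝 0) := by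
        have h4 : Tendsto (fun i : Finset {u // u ∈ 𝒰} × ℕ => i.2) atTop atTop := by
          rw [← prod_atTop_atTop_eq]
          exact tendsto_snd
        have h5 : Tendsto (fun n : ℕ => 2 * (((n : ℝ) + 1)⁻¹ * (‖Y‖ * ‖x‖ * ‖y‖))) atTop (𝓝 0) := by
          have h6 : Tendsto (fun n : ℕ => ((n : ℝ) + 1)⁻¹) atTop (𝓝 0) := by
            have := tendsto_one_div_add_atTop_nhds_zero_nat (𝕜 := ℝ)
            simpa using this
          have h7 := (h6.mul_const (‖Y‖ * ‖x‖ * ‖y‖)).const_mul 2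
          simpa using h7
        exact h5.comp h4
      refine squeeze_zero' (Filter.Eventually.of_forall fun i => norm_nonneg _) ?_ h3
      filter_upwards [eventually_ge_atTop (({⟨u, hu⟩} : Finset {u // u ∈ 𝒰}), 0)] with i hi
      refine lav_inv _ (fun v hv => hc u hu v (hmem _ v hv)) ?_ i.2 Y x y
      exact List.mem_map.2 ⟨⟨u, hu⟩, Finset.mem_toList.2 (hi.1 (Finset.mem_singleton_self _)), rfl⟩
    have h3 := tendsto_nhds_unique h1 h2
    exact sub_eq_zero.1 h3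
  · ext x
    refine ext_inner_right ℂ fun y => ?_
    refine tendsto_nhds_unique (hlim (cn R Y) x y) ?_
    refine (hcn R Y x y).congr fun i => ?_
    show (inner ℂ (cn R (lav _ _ Y) x) y : ℂ) = inner ℂ (lav _ _ (cn R Y) x) y
    rw [lav_cn _ (fun u hu => hR u (hmem _ u hu))]

end ces

section am

variable {G : Type} [Group G]

/-- **The average over a group with amenable multipliers.** -/
theorem exists_am (B : G →* (K ≃ₗᵢ[ℂ] K)) (𝒯 : Set (K ≃ₗᵢ[ℂ] K))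
    (hm : ∀ (Q : Finset G) (ε : ℝ), 0 < ε → ∃ (S : Finset G) (m : G → (K →L[ℂ] K)),
      (∀ T ∈ 𝒯, ∀ t x, m t (T x) = T (m t x)) ∧ (∀ t, t ∉ S → m t = 0) ∧ (∀ x, ∑ t ∈ S, ‖m t x‖ ^ 2 = ‖x‖ ^ 2) ∧
      ∀ h ∈ Q, ∀ x, ∀ S' : Finset G, ∑ t ∈ S', ‖m t (B h x) - B h (m (h⁻¹ * t) x)‖ ^ 2 ≤ ε ^ 2 * ‖x‖ ^ 2) :
    ∃ Φ : (K →L[ℂ] K) →ₗ[ℂ] (K →L[ℂ] K), PU Φ ∧ (∀ g Y, cn (B g) (Φ Y) = Φ Y) ∧
      (∀ T ∈ 𝒯, ∀ Y, (∀ g, cn T (cn (B g) Y) = cn (B g) Y) → cn T (Φ Y) = Φ Y) ∧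
      ∀ T ∈ 𝒯, (∀ g, T * B g = B g * T) → ∀ Y, Φ (cn T Y) = cn T (Φ Y) := by
  classical
  have hnet : ∀ i : Finset G × ℕ, ∃ (S : Finset G) (m : G → (K →L[ℂ] K)),
      (∀ T ∈ 𝒯, ∀ t x, m t (T x) = T (m t x)) ∧ (∀ t, t ∉ S → m t = 0) ∧ (∀ x, ∑ t ∈ S, ‖m t x‖ ^ 2 = ‖x‖ ^ 2) ∧
      ∀ h ∈ i.1, ∀ x, ∀ S' : Finset G,
        ∑ t ∈ S', ‖m t (B h x) - B h (m (h⁻¹ * t) x)‖ ^ 2 ≤ (1 / ((i.2 : ℝ) + 1)) ^ 2 * ‖x‖ ^ 2 := by
    intro i
    exact hm i.1 (1 / ((i.2 : ℝ) + 1)) (by positivity)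
  choose S m hm1 hm2 hm3 hm4 using hnet
  let A : Finset G × ℕ → G → (K →L[ℂ] K) := fun i t =>
    (((B t)⁻¹ : K ≃ₗᵢ[ℂ] K).toContinuousLinearEquiv : K →L[ℂ] K).comp (m i t)
  have hA : ∀ i t x, A i t x = (B t)⁻¹ (m i t x) := fun _ _ _ => rfl
  let 𝓤 : Ultrafilter (Finset G × ℕ) := Ultrafilter.of atTop
  have h𝓤 : (𝓤 : Filter (Finset G × ℕ)) ≤ atTop := Ultrafilter.of_le _
  obtain ⟨Φ, hΦ, hlim⟩ := exists_lim 𝓤 (fun i => avS (S i) (A i)) fun i => PU.avS fun x => by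
    rw [← hm3 i x]
    refine Finset.sum_congr rfl fun t _ => ?_
    rw [hA, LinearIsometryEquiv.norm_map]
  have h2 : ∀ (R : K ≃ₗᵢ[ℂ] K) (Z : K →L[ℂ] K) (x y : K), (inner ℂ (cn R Z x) y : ℂ) = inner ℂ (Z (R⁻¹ x)) (R⁻¹ y) :=
    fun R Z x y => by
      rw [cn_apply, ← LinearIsometryEquiv.inner_map_map R (Z (R⁻¹ x)) (R⁻¹ y), app_inv]
  have hcn : ∀ (R : K ≃ₗᵢ[ℂ] K) (Y : K →L[ℂ] K) (x y : K),
      Tendsto (fun i => (inner ℂ (cn R (avS (S i) (A i) Y) x) y : ℂ)) 𝓤 (𝓝 (inner ℂ (cn R (Φ Y) x) y)) := by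
    intro R Y x y
    have h1 := hlim Y (R⁻¹ x) (R⁻¹ y)
    rw [h2]
    exact h1.congr fun i => (h2 _ _ _ _).symm
  refine ⟨Φ, hΦ, fun h Y => ?_, fun T hT Y hY => ?_, fun T hT hTB Y => ?_⟩
  · ext x
    refine ext_inner_right ℂ fun y => ?_
    have h1 := (hcn (B h) Y x y).sub (hlim Y x y)
    have h3 : Tendsto (fun i => (inner ℂ (cn (B h) (avS (S i) (A i) Y) x) y : ℂ) - inner ℂ (avS (S i) (A i) Y x) y) 𝓤
        (𝓝 0) := by
      refine Tendsto.mono_left ?_ h𝓤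
      rw [tendsto_zero_iff_norm_tendsto_zero]
      have h4 : Tendsto (fun i : Finset G × ℕ => 2 * (1 / ((i.2 : ℝ) + 1) * (‖Y‖ * ‖x‖ * ‖y‖))) atTop (𝓝 0) := by
        have h4 : Tendsto (fun i : Finset G × ℕ => i.2) atTop atTop := by
          rw [← prod_atTop_atTop_eq]
          exact tendsto_snd
        have h5 : Tendsto (fun n : ℕ => 2 * (1 / ((n : ℝ) + 1) * (‖Y‖ * ‖x‖ * ‖y‖))) atTop (𝓝 0) := by
          have h6 := tendsto_one_div_add_atTop_nhds_zero_nat (𝕜 := ℝ)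
          have h7 := (h6.mul_const (‖Y‖ * ‖x‖ * ‖y‖)).const_mul 2
          simpa using h7
        exact h5.comp h4
      refine squeeze_zero' (Filter.Eventually.of_forall fun i => norm_nonneg _) ?_ h4
      filter_upwards [eventually_ge_atTop (({h} : Finset G), 0)] with i hi
      have hh : h ∈ i.1 := hi.1 (Finset.mem_singleton_self _)
      set ε : ℝ := 1 / ((i.2 : ℝ) + 1) with hε
      have hε0 : 0 ≤ ε := by positivity
      -- the common finite set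
      set R : Finset G := S i ∪ (S i).image (fun t => h⁻¹ * t) with hR
      -- the vectors
      let a : K → G → K := fun x t => m i t ((B h)⁻¹ x)
      let a' : K → G → K := fun x t => (B h)⁻¹ (m i (h * t) x)
      have hz : ∀ t, t ∉ R → ∀ x, a x t = 0 := by
        intro t ht x
        show m i t _ = 0
        rw [hm2 i t (fun h' => ht (Finset.mem_union_left _ h'))]
        rfl
      have hz' : ∀ t, t ∉ R → ∀ x, a' x t = 0 := by
        intro t ht x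
        show (B h)⁻¹ (m i (h * t) x) = 0
        rw [hm2 i (h * t) (fun h' => ht (Finset.mem_union_right _ (Finset.mem_image.2 ⟨h * t, h', by group⟩)))]
        show (B h)⁻¹ (0 : K) = 0
        exact map_zero _
      have e1 : (inner ℂ (cn (B h) (avS (S i) (A i) Y) x) y : ℂ) =
          ∑ t ∈ R, inner ℂ (Y ((B t)⁻¹ (a x t))) ((B t)⁻¹ (a y t)) := by
        rw [h2, inner_avS]
        refine Finset.sum_subset (Finset.subset_union_left) fun t _ ht => ?_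
        rw [hA, hm2 i t ht]
        show (inner ℂ (Y ((B t)⁻¹ (0 : K))) _ : ℂ) = 0
        rw [map_zero, map_zero, inner_zero_left]
      have e2 : (inner ℂ (avS (S i) (A i) Y x) y : ℂ) =
          ∑ t ∈ R, inner ℂ (Y ((B t)⁻¹ (a' x t))) ((B t)⁻¹ (a' y t)) := by
        rw [inner_avS]
        have e3 : ∑ t ∈ S i, (inner ℂ (Y (A i t x)) (A i t y) : ℂ) =
            ∑ t ∈ (S i).image (fun t => h⁻¹ * t), inner ℂ (Y ((B t)⁻¹ (a' x t))) ((B t)⁻¹ (a' y t)) := by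
          rw [Finset.sum_image (fun t _ t' _ h' => mul_left_cancel h')]
          refine Finset.sum_congr rfl fun t _ => ?_
          have e4 : ∀ x, (B (h⁻¹ * t))⁻¹ (a' x (h⁻¹ * t)) = A i t x := by
            intro x
            show (B (h⁻¹ * t))⁻¹ ((B h)⁻¹ (m i (h * (h⁻¹ * t)) x)) = (B t)⁻¹ (m i t x)
            have e5 : (B (h⁻¹ * t))⁻¹ * (B h)⁻¹ = (B t)⁻¹ := by
              rw [← mul_inv_rev, ← map_mul, mul_inv_cancel_left]
            rw [mul_inv_cancel_left, ← e5]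
            rfl
          rw [e4, e4]
        rw [e3]
        refine Finset.sum_subset (Finset.subset_union_right) fun t _ ht => ?_
        have e5 : h * t ∉ S i := fun h' => ht (Finset.mem_image.2 ⟨h * t, h', by group⟩)
        show (inner ℂ (Y ((B t)⁻¹ ((B h)⁻¹ (m i (h * t) x)))) _ : ℂ) = 0
        rw [hm2 i _ e5]
        show (inner ℂ (Y ((B t)⁻¹ ((B h)⁻¹ (0 : K)))) _ : ℂ) = 0
        rw [map_zero, map_zero, map_zero, inner_zero_left]
      have hd : ∀ x, ∑ t ∈ R, ‖a x t - a' x t‖ ^ 2 ≤ (ε * ‖x‖) ^ 2 := by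
        intro x
        have h5 := hm4 i h hh ((B h)⁻¹ x) (R.image (fun t => h * t))
        rw [Finset.sum_image (fun t _ t' _ h' => mul_left_cancel h'), LinearIsometryEquiv.norm_map, ← mul_pow] at h5
        refine le_trans (le_of_eq (Finset.sum_congr rfl fun t _ => ?_)) h5
        rw [inv_mul_cancel_left, app_inv, norm_sub_rev, ← LinearIsometryEquiv.norm_map (B h) (a' x t - a x t), map_sub]
        show ‖B h ((B h)⁻¹ (m i (h * t) x)) - B h (m i t ((B h)⁻¹ x))‖ ^ 2 = _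
        rw [app_inv]
      have ha : ∀ x, ∑ t ∈ R, ‖a x t‖ ^ 2 ≤ ‖x‖ ^ 2 := by
        intro x
        have h5 := hm3 i ((B h)⁻¹ x)
        rw [LinearIsometryEquiv.norm_map] at h5
        rw [← h5]
        refine le_of_eq (Finset.sum_subset Finset.subset_union_left fun t _ ht => ?_).symm
        show ‖m i t ((B h)⁻¹ x)‖ ^ 2 = 0
        rw [hm2 i t ht]
        show ‖(0 : K)‖ ^ 2 = 0
        rw [norm_zero, zero_pow two_ne_zero]
      have ha' : ∀ x, ∑ t ∈ R, ‖a' x t‖ ^ 2 ≤ ‖x‖ ^ 2 := by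
        intro x
        rw [← hm3 i x]
        have h5 : ∑ t ∈ S i, ‖m i t x‖ ^ 2 = ∑ t ∈ (S i).image (fun t => h⁻¹ * t), ‖a' x t‖ ^ 2 := by
          rw [Finset.sum_image (fun t _ t' _ h' => mul_left_cancel h')]
          refine Finset.sum_congr rfl fun t _ => ?_
          show _ = ‖(B h)⁻¹ (m i (h * (h⁻¹ * t)) x)‖ ^ 2
          rw [LinearIsometryEquiv.norm_map, mul_inv_cancel_left]
        rw [h5]
        refine le_of_eq (Finset.sum_subset Finset.subset_union_right fun t _ ht => ?_).symm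
        have e5 : h * t ∉ S i := fun h' => ht (Finset.mem_image.2 ⟨h * t, h', by group⟩)
        show ‖(B h)⁻¹ (m i (h * t) x)‖ ^ 2 = 0
        rw [hm2 i _ e5, LinearIsometryEquiv.norm_map]
        show ‖(0 : K)‖ ^ 2 = 0
        rw [norm_zero, zero_pow two_ne_zero]
      rw [e1, e2, ← Finset.sum_sub_distrib]
      refine (norm_sum_le _ _).trans ?_
      have h6 : ∀ t ∈ R, ‖(inner ℂ (Y ((B t)⁻¹ (a x t))) ((B t)⁻¹ (a y t)) : ℂ) -
          inner ℂ (Y ((B t)⁻¹ (a' x t))) ((B t)⁻¹ (a' y t))‖ ≤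
          ‖Y‖ * (‖a x t - a' x t‖ * ‖a y t‖) + ‖Y‖ * (‖a' x t‖ * ‖a y t - a' y t‖) := by
        intro t _
        have h7 : (inner ℂ (Y ((B t)⁻¹ (a x t))) ((B t)⁻¹ (a y t)) : ℂ) -
            inner ℂ (Y ((B t)⁻¹ (a' x t))) ((B t)⁻¹ (a' y t)) =
            inner ℂ (Y ((B t)⁻¹ (a x t - a' x t))) ((B t)⁻¹ (a y t)) +
              inner ℂ (Y ((B t)⁻¹ (a' x t))) ((B t)⁻¹ (a y t - a' y t)) := by
          simp only [map_sub, inner_sub_left, inner_sub_right]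
          ring
        rw [h7]
        refine (norm_add_le _ _).trans (add_le_add ?_ ?_)
        · refine (norm_inner_le_norm _ _).trans ?_
          rw [← mul_assoc, LinearIsometryEquiv.norm_map]
          refine mul_le_mul_of_nonneg_right ((Y.le_opNorm _).trans ?_) (norm_nonneg _)
          rw [LinearIsometryEquiv.norm_map]
        · refine (norm_inner_le_norm _ _).trans ?_
          rw [← mul_assoc, LinearIsometryEquiv.norm_map]
          refine mul_le_mul_of_nonneg_right ((Y.le_opNorm _).trans ?_) (norm_nonneg _)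
          rw [LinearIsometryEquiv.norm_map]
      refine (Finset.sum_le_sum h6).trans ?_
      rw [Finset.sum_add_distrib, ← Finset.mul_sum, ← Finset.mul_sum]
      have h7 := cs_sum R (fun t => ‖a x t - a' x t‖) (fun t => ‖a y t‖) (by positivity : 0 ≤ ε * ‖x‖) (norm_nonneg y)
        (hd x) (ha y)
      have h8 := cs_sum R (fun t => ‖a' x t‖) (fun t => ‖a y t - a' y t‖) (norm_nonneg x) (by positivity : 0 ≤ ε * ‖y‖)
        (ha' x) (hd y)
      have h9 := mul_le_mul_of_nonneg_left h7 (norm_nonneg Y)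
      have h10 := mul_le_mul_of_nonneg_left h8 (norm_nonneg Y)
      refine (add_le_add h9 h10).trans (le_of_eq ?_)
      ring
    have h4 := tendsto_nhds_unique h1 h3
    exact sub_eq_zero.1 h4
  · ext x
    refine ext_inner_right ℂ fun y => ?_
    refine tendsto_nhds_unique (hcn T Y x y) ((hlim Y x y).congr fun i => ?_)
    have hT' : ∀ t x, m i t (T⁻¹ x) = T⁻¹ (m i t x) := fun t x => by
      have h1 := hm1 i T hT t (T⁻¹ x)
      rw [app_inv] at h1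
      rw [h1, inv_app]
    rw [h2, inner_avS, inner_avS]
    refine Finset.sum_congr rfl fun t _ => ?_
    rw [hA, hA, hA, hA, hT', hT']
    -- `Y_t` commutes with `T`
    have h3 : ∀ z w, (inner ℂ (Y ((B t)⁻¹ (T⁻¹ z))) ((B t)⁻¹ (T⁻¹ w)) : ℂ) = inner ℂ (Y ((B t)⁻¹ z)) ((B t)⁻¹ w) := by
      intro z w
      rw [← h2 (B t) Y (T⁻¹ z) (T⁻¹ w), ← h2 T (cn (B t) Y) z w, hY, h2]
    exact (h3 _ _).symm
  · ext x
    refine ext_inner_right ℂ fun y => ?_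
    refine tendsto_nhds_unique (hlim (cn T Y) x y) ((hcn T Y x y).congr fun i => ?_)
    have h1 : avS (S i) (A i) (cn T Y) = cn T (avS (S i) (A i) Y) := by
      refine avS_cn (fun t _ x => ?_) Y
      rw [hA, hA, hm1 i T hT]
      have h3 : (B t)⁻¹ * T = T * (B t)⁻¹ := by
        rw [inv_mul_eq_iff_eq_mul, ← mul_assoc, ← hTB, mul_assoc, mul_inv_cancel, mul_one]
      exact congrArg (fun R : K ≃ₗᵢ[ℂ] K => R (m i t x)) h3
    rw [h1]

end am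

end Pool.Agent.Helper55.TZ
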