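import Pool.Agent.Helper66.FR.Zt4
import Pool.Agent.Helper78.BM.Act
import Pool.Agent.Helper55.TZ.Avg

/-!
# Project TZ (MP_0f6f3f_an): observables on the source

`Obs V0 𝒞`: positive unital maps from the bounded measurable functions on an `S'`-space `Ω` to the operators on `L0`, covariant under `V0`, with values commuting with `𝒞`. `mX u`: multiplication by `u(x, l)` on `L²(X; ℓ²(Λ))`.
`obsX`: the observable `f ↦ mX (f ∘ κ)` of a measurable map `κ : X × Λ → Ω` with `κ(s x, a(s, x) l) = s κ(x, l)`.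
-/

set_option autoImplicit false
set_option linter.unusedSectionVars false

open Filter Topology MeasureTheory

namespace Pool.Agent.Helper55.TZ

open Pool.Agent.Helper84.NI Pool.Agent.Helper84.GVN Pool.Agent.Helper84.FR Pool.Agent.Helper66.FR Pool.Agent.Helper78.BM

/-- Bounded measurable functions. -/
def BMf {Ω : Type} [MeasurableSpace Ω] (f : Ω → ℝ) : Prop := Measurable f ∧ ∃ C : ℝ, ∀ ω, |f ω| ≤ C

/-- Observables. -/
structure Obs (S' Ω L0 : Type) [Group S'] [MulAction S' Ω] [MeasurableSpace Ω] [NormedAddCommGroup L0] [InnerProductSpace ℂ L0]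
    [CompleteSpace L0] (V0 : S' →* (L0 ≃ₗᵢ[ℂ] L0)) (𝒞 : Set (L0 ≃ₗᵢ[ℂ] L0)) where
  /-- the operators -/
  m : (Ω → ℝ) → (L0 →L[ℂ] L0)
  one : m (fun _ => 1) = ContinuousLinearMap.id ℂ L0
  add : ∀ f f' : Ω → ℝ, BMf f → BMf f' → m (fun ω => f ω + f' ω) = m f + m f'
  smul : ∀ (c : ℝ) (f : Ω → ℝ), BMf f → m (fun ω => c * f ω) = (c : ℂ) • m f
  symm : ∀ f : Ω → ℝ, BMf f → ∀ x y, (inner ℂ (m f x) y : ℂ) = inner ℂ x (m f y)
  pos : ∀ f : Ω → ℝ, BMf f → (∀ ω, 0 ≤ f ω) → ∀ x, 0 ≤ (inner ℂ x (m f x) : ℂ).re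
  cov : ∀ (s : S') (f : Ω → ℝ), BMf f → cn (V0 s) (m f) = m fun ω => f (s⁻¹ • ω)
  comm : ∀ c ∈ 𝒞, ∀ f : Ω → ℝ, BMf f → ∀ x, c (m f x) = m f (c x)

section mX

variable {G1 X Λ : Type} [Group G1] [MeasurableSpace X] [MulAction G1 X] [MeasurableConstSMul G1 X] [Group Λ] [Countable Λ]

/-- Multiplication by `u(x, l)`. -/
noncomputable def mX (μ : Measure X) (u : X → Λ → ℝ) : XL μ (L2 Λ) →L[ℂ] XL μ (L2 Λ) :=
  fop μ fun x => mulop fun l => ((u x l : ℝ) : ℂ)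

/-- Bounded functions `u(x, l)`, measurable in `x`. -/
def BU (u : X → Λ → ℝ) : Prop := (∀ l, Measurable fun x => u x l) ∧ ∃ C : ℝ, 0 ≤ C ∧ ∀ x l, |u x l| ≤ C

theorem fm_mX {u : X → Λ → ℝ} (hu : BU u) : ∃ C : ℝ, FM C fun x => mulop fun l => ((u x l : ℝ) : ℂ) := by
  classical
  obtain ⟨hm, C, hC0, hC⟩ := hu
  have hC' : ∀ x l, ‖((u x l : ℝ) : ℂ)‖ ≤ C := fun x l => by
    rw [Complex.norm_real]
    exact hC x l
  refine ⟨C, hC0, fun v => ?_, fun x v => norm_mulop_app hC0 (hC' x) v⟩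
  have h1 : ∀ s : Finset Λ, StronglyMeasurable fun x =>
      mulop (fun l => ((u x l : ℝ) : ℂ)) (∑ l ∈ s, v l • (dl l : L2 Λ)) := by
    intro s
    have h2 : (fun x => mulop (fun l => ((u x l : ℝ) : ℂ)) (∑ l ∈ s, v l • (dl l : L2 Λ))) =
        fun x => ∑ l ∈ s, (((u x l : ℝ) : ℂ) * v l) • (dl l : L2 Λ) := by
      funext x
      rw [map_sum]
      refine Finset.sum_congr rfl fun l _ => ?_
      rw [map_smul]
      apply lv_ext
      intro l'
      rw [lp.coeFn_smul, Pi.smul_apply, lp.coeFn_smul, Pi.smul_apply, mulop_app (hC' x), smul_eq_mul, smul_eq_mul]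
      by_cases h : l' = l
      · subst h
        ring
      · rw [dl_apply, if_neg h]
        ring
    rw [h2]
    refine Finset.stronglyMeasurable_fun_sum _ fun l _ => ?_
    refine StronglyMeasurable.smul_const ?_ _
    exact ((Complex.continuous_ofReal.measurable.comp (hm l)).mul_const _).stronglyMeasurable
  refine stronglyMeasurable_of_tendsto atTop h1 ?_
  rw [tendsto_pi_nhds]
  intro x
  exact ((mulop fun l => ((u x l : ℝ) : ℂ)).continuous.tendsto _).comp (hasSum_dl v)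

theorem mX_apply {μ : Measure X} {u : X → Λ → ℝ} (hu : BU u) (φ : XL μ (L2 Λ)) :
    ∀ᵐ x ∂μ, ∀ l, mX μ u φ x l = ((u x l : ℝ) : ℂ) * φ x l := by
  obtain ⟨C, hC⟩ := fm_mX hu
  obtain ⟨hm, C', hC0', hC'⟩ := hu
  filter_upwards [fop_apply hC φ] with x h1
  intro l
  show (fop μ (fun x => mulop fun l => ((u x l : ℝ) : ℂ)) φ) x l = _
  rw [h1]
  exact mulop_app (fun l => by
    rw [Complex.norm_real]
    exact hC' x l) (φ x) l

theorem mX_ext {μ : Measure X} {φ ψ : XL μ (L2 Λ)} (h : ∀ᵐ x ∂μ, ∀ l, φ x l = ψ x l) : φ = ψ := by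
  refine xl_ext ?_
  filter_upwards [h] with x hx
  exact lv_ext hx

theorem mX_add {μ : Measure X} {u v : X → Λ → ℝ} (hu : BU u) (hv : BU v) (huv : BU fun x l => u x l + v x l) :
    mX μ (fun x l => u x l + v x l) = mX μ u + mX μ v := by
  ext1 φ
  apply mX_ext
  filter_upwards [mX_apply huv φ, mX_apply hu φ, mX_apply hv φ, Lp.coeFn_add (mX μ u φ) (mX μ v φ)] with x h1 h2 h3 h4
  intro l
  have h5 : ((mX μ u + mX μ v) φ : X → L2 Λ) x = mX μ u φ x + mX μ v φ x := h4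
  rw [h1 l, h5, lp.coeFn_add, Pi.add_apply, h2 l, h3 l]
  push_cast
  ring

theorem mX_smul {μ : Measure X} (c : ℝ) {u : X → Λ → ℝ} (hu : BU u) (huc : BU fun x l => c * u x l) :
    mX μ (fun x l => c * u x l) = (c : ℂ) • mX μ u := by
  ext1 φ
  apply mX_ext
  filter_upwards [mX_apply huc φ, mX_apply hu φ, Lp.coeFn_smul (c : ℂ) (mX μ u φ)] with x h1 h2 h4
  intro l
  have h5 : (((c : ℂ) • mX μ u) φ : X → L2 Λ) x = (c : ℂ) • mX μ u φ x := h4
  rw [h1 l, h5, lp.coeFn_smul, Pi.smul_apply, h2 l, smul_eq_mul]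
  push_cast
  ring

theorem mX_one {μ : Measure X} : mX μ (fun (_ : X) (_ : Λ) => (1 : ℝ)) = ContinuousLinearMap.id ℂ _ := by
  ext1 φ
  apply mX_ext
  filter_upwards [mX_apply (u := fun (_ : X) (_ : Λ) => (1 : ℝ)) ⟨fun _ => measurable_const, 1, zero_le_one, fun _ _ => by simp⟩ φ]
    with x h1
  intro l
  rw [h1 l]
  simp

theorem mX_inner {μ : Measure X} {u : X → Λ → ℝ} (hu : BU u) (φ ψ : XL μ (L2 Λ)) :
    (inner ℂ φ (mX μ u ψ) : ℂ) = ∫ x, ∑' l, ((u x l : ℝ) : ℂ) * (starRingEnd ℂ (φ x l) * ψ x l) ∂μ := by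
  rw [xl_inner]
  refine integral_congr_ae ?_
  filter_upwards [mX_apply hu ψ] with x h1
  rw [lp.inner_eq_tsum]
  refine tsum_congr fun l => ?_
  rw [h1 l, RCLike.inner_apply]
  ring

theorem mX_symm {μ : Measure X} {u : X → Λ → ℝ} (hu : BU u) (φ ψ : XL μ (L2 Λ)) :
    (inner ℂ (mX μ u φ) ψ : ℂ) = inner ℂ φ (mX μ u ψ) := by
  rw [xl_inner, xl_inner]
  refine integral_congr_ae ?_
  filter_upwards [mX_apply hu ψ, mX_apply hu φ] with x h1 h2
  rw [lp.inner_eq_tsum, lp.inner_eq_tsum]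
  refine tsum_congr fun l => ?_
  rw [h1 l, h2 l, RCLike.inner_apply, RCLike.inner_apply, map_mul, Complex.conj_ofReal]
  ring

theorem mX_pos {μ : Measure X} {u : X → Λ → ℝ} (hu : BU u) (h : ∀ x l, 0 ≤ u x l) (φ : XL μ (L2 Λ)) :
    0 ≤ (inner ℂ φ (mX μ u φ) : ℂ).re := by
  have h1 : (inner ℂ φ (mX μ u φ) : ℂ) = ((∫ x, ∑' l, u x l * ‖φ x l‖ ^ 2 ∂μ : ℝ) : ℂ) := by
    rw [mX_inner hu, ← integral_complex_ofReal]
    refine integral_congr_ae (Filter.Eventually.of_forall fun x => ?_)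
    show ∑' l, ((u x l : ℝ) : ℂ) * (starRingEnd ℂ (φ x l) * φ x l) = ((∑' l, u x l * ‖φ x l‖ ^ 2 : ℝ) : ℂ)
    rw [Complex.ofReal_tsum]
    refine tsum_congr fun l => ?_
    rw [mul_comm (starRingEnd ℂ (φ x l)), Complex.mul_conj, Complex.normSq_eq_norm_sq]
    push_cast
    ring
  rw [h1, Complex.ofReal_re]
  exact integral_nonneg fun x => tsum_nonneg fun l => mul_nonneg (h x l) (sq_nonneg _)

/-- Multiplications commute with the projections `xE`. -/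
theorem mX_xE {μ : Measure X} {u : X → Λ → ℝ} (hu : BU u) {D : Set X} (hD : MeasurableSet D) (φ : XL μ (L2 Λ)) :
    mX μ u (xE μ (L2 Λ) D φ) = xE μ (L2 Λ) D (mX μ u φ) := by
  obtain ⟨C, hC⟩ := fm_mX hu
  exact fop_mx hC (BM.ind hD) φ

/-- Translations. -/
theorem vop_mX {μ : Measure X} [SMulInvariantMeasure G1 X μ] [IsProbabilityMeasure μ] (a : Cocy G1 X Λ) {u u' : X → Λ → ℝ} (hu : BU u) (hu' : BU u') (g : G1)
    (h : ∀ x l, u' (g • x) (a.a g x * l) = u x l) (φ : XL μ (L2 Λ)) :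
    vop μ a g (mX μ u φ) = mX μ u' (vop μ a g φ) := by
  apply mX_ext
  filter_upwards [vop_apply a g (mX μ u φ), mX_apply hu' (vop μ a g φ), vop_apply a g φ,
    (measurePreserving_smul g⁻¹ μ).quasiMeasurePreserving.ae (mX_apply hu φ)] with x h1 h2 h3 h4
  intro l
  rw [h1, h2 l, h3, lamU_apply, lamU_apply, h4]
  have h5 := h (g⁻¹ • x) ((a.a g (g⁻¹ • x))⁻¹ * l)
  rw [smul_inv_smul, mul_inv_cancel_left] at h5
  rw [h5]

end mX

section obs

variable {G1 X Λ : Type} [Group G1] [MeasurableSpace X] [MulAction G1 X] [MeasurableConstSMul G1 X] [Group Λ] [Countable Λ]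
  {μ : Measure X} [SMulInvariantMeasure G1 X μ] [IsProbabilityMeasure μ]

theorem bu_comp {Ω : Type} [MeasurableSpace Ω] {κ : X → Λ → Ω} (hκ : ∀ l, Measurable fun x => κ x l) {f : Ω → ℝ} (hf : BMf f) :
    BU fun x l => f (κ x l) := by
  obtain ⟨hm, C, hC⟩ := hf
  refine ⟨fun l => hm.comp (hκ l), |C|, abs_nonneg _, fun x l => (hC _).trans (le_abs_self _)⟩

/-- The observable of an equivariant map. -/
noncomputable def obsX (μ : Measure X) [SMulInvariantMeasure G1 X μ] [IsProbabilityMeasure μ] (a : Cocy G1 X Λ) {S' Ω : Type} [Group S']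
    [MulAction S' Ω] [MeasurableSpace Ω] [MeasurableConstSMul S' Ω] (j : S' →* G1) (κ : X → Λ → Ω) (hκ : ∀ l, Measurable fun x => κ x l)
    (hκS : ∀ (s : S') x l, κ (j s • x) (a.a (j s) x * l) = s • κ x l) (𝒞 : Set (XL μ (L2 Λ) ≃ₗᵢ[ℂ] XL μ (L2 Λ)))
    (h𝒞 : ∀ c ∈ 𝒞, (∃ q : G1, (∀ x l, κ (q • x) (a.a q x * l) = κ x l) ∧ ∀ φ, c φ = vop μ a q φ) ∨
      ∃ D : Set X, MeasurableSet D ∧ ∀ φ, c φ = φ - (2 : ℂ) • xE μ (L2 Λ) D φ) :
    Obs S' Ω (XL μ (L2 Λ)) ((vrep μ a).comp j) 𝒞 where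
  m f := mX μ fun x l => f (κ x l)
  one := mX_one
  add f f' hf hf' := mX_add (bu_comp hκ hf) (bu_comp hκ hf') (bu_comp hκ (f := fun ω => f ω + f' ω) ⟨hf.1.add hf'.1, by
    obtain ⟨C, hC⟩ := hf.2
    obtain ⟨C', hC'⟩ := hf'.2
    exact ⟨C + C', fun ω => (abs_add_le _ _).trans (add_le_add (hC ω) (hC' ω))⟩⟩)
  smul c f hf := mX_smul c (bu_comp hκ hf) (bu_comp hκ (f := fun ω => c * f ω) ⟨hf.1.const_mul c, by
    obtain ⟨C, hC⟩ := hf.2
    exact ⟨|c| * C, fun ω => by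
      rw [abs_mul]
      exact mul_le_mul_of_nonneg_left (hC ω) (abs_nonneg _)⟩⟩)
  symm f hf x y := mX_symm (bu_comp hκ hf) x y
  pos f hf h x := mX_pos (bu_comp hκ hf) (fun _ _ => h _) x
  cov s f hf := by
    have hf' : BMf fun ω => f (s⁻¹ • ω) := ⟨hf.1.comp (measurable_const_smul s⁻¹), by
      obtain ⟨C, hC⟩ := hf.2
      exact ⟨C, fun ω => hC _⟩⟩
    ext1 φ
    rw [cn_apply]
    have h1 := vop_mX a (bu_comp hκ hf) (bu_comp hκ hf') (j s) (fun x l => by rw [hκS, inv_smul_smul])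
      (((vrep μ a).comp j s)⁻¹ φ)
    have h2 : ((vrep μ a).comp j s) (((vrep μ a).comp j s)⁻¹ φ) = φ := app_inv _ _
    change vop μ a (j s) (mX μ (fun x l => f (κ x l)) _) = _
    rw [h1]
    congr 1
  comm c hc f hf φ := by
    rcases h𝒞 c hc with ⟨q, hq, hcq⟩ | ⟨D, hD, hcD⟩
    · rw [hcq, hcq]
      exact vop_mX a (bu_comp hκ hf) (bu_comp hκ hf) q (fun x l => by rw [hq]) φ
    · rw [hcD, hcD, map_sub, map_smul, mX_xE (bu_comp hκ hf) hD]

end obs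

end Pool.Agent.Helper55.TZ
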