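import Pool.Agent.Helper35.FP.JD
import Pool.Agent.Helper55.TZ.Avg
import Pool.Agent.Helper55.FP.Mf

/-!
# Project TZ (MP_0f6f3f_an), block (c): operators in the Levi algebra from operators on the source

`kapOf f`: the element of `Kap geo` given by a bounded continuous function `f` of `𝔾`, invariant under `ker nb` (`nb` open). `Um`: the unitaries of `Kt B (lam μ)` given by `κ ∈ Kap geo` of modulus one.
`exists_XiJ`: let `V0` be a unitary representation of `S'` on `L0`, `c0 c` unitaries of `L0` (`c ∈ CC`) and `J : H → Lv Y L0` an isometry which intertwines `V` and `V0`, `c` and `c0 c`. Then there is a positive unital linear map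
`Ξ` from the operators on `L0` to the operators on `Kt B (lam μ)`, covariant under `S'`, and `Ξ Y ∈ JJ` if `Y` commutes with the `c0 c`.
PROOF: `Ξ Y = Φ₂ (Φ₁ (J_K† (Y ⊗ 1) J_K))`, `J_K` from `span_J`, `Φ₁` the expectation onto the commutant of `Um` (`exists_exp`), `Φ₂` the average over `G` (`exists_am`) with the multipliers `mulF (mulK (kapOf (p t)))`.
-/

set_option autoImplicit false
set_option linter.unusedSectionVars false
set_option linter.unusedVariables false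

open Filter Topology MeasureTheory

namespace Pool.Agent.Helper55.TZ

open Pool.Agent.Helper84.NI Pool.Agent.Helper84.GVN Pool.Agent.Helper84.FR
open Pool.Agent.Helper35.FP Pool.Agent.Helper55.FP

variable {𝔾 𝕊 : Type} [Group 𝔾] [TopologicalSpace 𝔾] [IsTopologicalGroup 𝔾] [Group 𝕊] [TopologicalSpace 𝕊] [IsTopologicalGroup 𝕊]
  {𝕂 : Subgroup 𝕊} {geo : Geo 𝔾 𝕊 𝕂} {G S' H U : Type} [Group G] [Group S'] [TopologicalSpace S'] [IsTopologicalGroup S']
  [NormedAddCommGroup H] [InnerProductSpace ℂ H] [CompleteSpace H]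
  [NormedAddCommGroup U] [InnerProductSpace ℂ U] [CompleteSpace U]

section kap

/-- Representatives of the elements of `𝕊`. -/
noncomputable def qs (geo : Geo 𝔾 𝕊 𝕂) (s : 𝕊) : geo.Q := (geo.nbs s).choose

theorem nb_qs (s : 𝕊) : geo.nb (qs geo s) = s := (geo.nbs s).choose_spec

/-- Invariance under the kernel of the block. -/
theorem inv_qs {α : Type*} {f : 𝔾 → α} (hf : ∀ (g : 𝔾) (q : geo.Q), geo.nb q = 1 → f (g * q) = f g) (g : 𝔾) (q : geo.Q) :
    f (g * qs geo (geo.nb q)) = f (g * q) := by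
  have h := hf (g * q) (q⁻¹ * qs geo (geo.nb q)) (by rw [map_mul, map_inv, nb_qs, inv_mul_cancel])
  rw [← h]
  congr 1
  push_cast
  group

/-- The element of `Kap geo` given by a function on `𝔾 / ker nb`. -/
noncomputable def kapOf (ho : IsOpenMap geo.nb) {f : 𝔾 → ℝ} (hf : Ad geo f) : Kap geo where
  k g s := ((f (g * qs geo s) : ℝ) : ℂ)
  cont := by
    have hq : IsOpenQuotientMap geo.nb := ⟨geo.nbs, geo.nbc, ho⟩
    have hq2 : IsOpenQuotientMap (Prod.map (id : 𝔾 → 𝔾) geo.nb) := IsOpenQuotientMap.id.prodMap hq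
    rw [← hq2.continuous_comp_iff]
    have h1 : (fun p : 𝔾 × 𝕊 => ((f (p.1 * qs geo p.2) : ℝ) : ℂ)) ∘ Prod.map (id : 𝔾 → 𝔾) geo.nb =
        fun p : 𝔾 × geo.Q => ((f (p.1 * p.2) : ℝ) : ℂ) := by
      funext p
      show ((f (p.1 * qs geo (geo.nb p.2)) : ℝ) : ℂ) = _
      rw [inv_qs hf.inv]
    rw [h1]
    exact Complex.continuous_ofReal.comp (hf.cont.comp (continuous_fst.mul (continuous_subtype_val.comp continuous_snd)))
  inv g q s := by
    have h1 : f (g * q * qs geo s) = f (g * qs geo (geo.nb q * s)) := by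
      have h2 := inv_qs hf.inv g (q * qs geo s)
      rw [map_mul, nb_qs] at h2
      rw [h2]
      congr 1
      push_cast
      group
    rw [h1]
  bdd := by
    obtain ⟨C, h0, hC⟩ := hf.bdd
    exact ⟨C, h0, fun g s => by
      rw [Complex.norm_real]
      exact hC _⟩

theorem kapOf_k (ho : IsOpenMap geo.nb) {f : 𝔾 → ℝ} (hf : Ad geo f) (g : 𝔾) (s : 𝕊) :
    (kapOf ho hf).k g s = ((f (g * qs geo s) : ℝ) : ℂ) := rfl

end kap

variable (B : BD geo G S' H U)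

section gen

variable {L L' L'' : Type} [NormedAddCommGroup L] [InnerProductSpace ℂ L] [NormedAddCommGroup L'] [InnerProductSpace ℂ L']
  [NormedAddCommGroup L''] [InnerProductSpace ℂ L''] {ρ : Rp 𝕊 L} {ρ' : Rp 𝕊 L'} {ρ'' : Rp 𝕊 L''}

theorem mulF_congr {o o' : Fd geo ρ ρ'} (h : ∀ g w, o.O g w = o'.O g w) (y : Kt B ρ) : mulF B o y = mulF B o' y := by
  have h1 : mulF B o = mulF B o' := by
    refine ext_tot (tot_tau B ρ) fun p => ?_
    rw [mulF_tau, mulF_tau]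
    congr 1
    congr 1
    exact Subtype.ext (funext fun g => h g _)
  rw [h1]

/-- Linear combinations of fields. -/
theorem mulF_sum {ι : Type} (S : Finset ι) (c : ι → ℂ) (o : ι → Fd geo ρ ρ') (o' : Fd geo ρ ρ')
    (h : ∀ g w, o'.O g w = ∑ i ∈ S, c i • (o i).O g w) (y : Kt B ρ) : mulF B o' y = ∑ i ∈ S, c i • mulF B (o i) y := by
  have h1 : mulF B o' = ∑ i ∈ S, c i • mulF B (o i) := by
    refine ext_tot (tot_tau B ρ) fun p => ?_
    rw [sum_apply, mulF_tau]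
    have h2 : o'.ap p.1 = ∑ i ∈ S, c i • (o i).ap p.1 := by
      apply Subtype.ext
      funext g
      rw [Submodule.coe_sum, Finset.sum_apply]
      exact h g _
    rw [h2]
    have h3 : tau B (∑ i ∈ S, c i • (o i).ap p.1) = ∑ i ∈ S, c i • tau B ((o i).ap p.1) := by
      show (kt B ρ').τ _ = ∑ i ∈ S, c i • (kt B ρ').τ _
      rw [map_sum]
      exact Finset.sum_congr rfl fun i _ => map_smul _ _ _
    rw [h3, sum_apply]
    refine Finset.sum_congr rfl fun i _ => ?_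
    rw [smul_apply, smul_apply, mulF_tau]
  rw [h1, sum_apply]
  exact Finset.sum_congr rfl fun i _ => rfl

/-- `WK k` and `lift c` commute. -/
theorem WK_lift {c : H ≃ₗᵢ[ℂ] H} (hc : B.CPhi c) (hW : ∀ (k : G) (x : H), c (B.W k x) = B.W k (c x)) (k : G) (y : Kt B ρ) :
    WK B ρ k (lift B ρ c y) = lift B ρ c (WK B ρ k y) := by
  let T1 : Kt B ρ →L[ℂ] Kt B ρ := ((WK B ρ k).toContinuousLinearEquiv : Kt B ρ →L[ℂ] Kt B ρ)
  let T2 : Kt B ρ →L[ℂ] Kt B ρ := ((lift B ρ c).toContinuousLinearEquiv : Kt B ρ →L[ℂ] Kt B ρ)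
  have h : T1.comp T2 = T2.comp T1 := by
    refine ext_tot (tot_tau B ρ) fun p => ?_
    show WK B ρ k (lift B ρ c (tau B p.1 p.2)) = lift B ρ c (WK B ρ k (tau B p.1 p.2))
    rw [lift_tau B ρ hc, WK_tau, WK_tau, lift_tau B ρ hc, hW]
  exact DFunLike.congr_fun h y

theorem lift_inv_tau {c : H ≃ₗᵢ[ℂ] H} (hc : B.CPhi c) (F : Sec geo ρ) (x : H) :
    (lift B ρ c)⁻¹ (tau B F x) = tau B F (c⁻¹ x) := by
  have h1 : tau B F x = lift B ρ c (tau B F (c⁻¹ x)) := by rw [lift_tau B ρ hc, app_inv]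
  rw [h1, inv_app]

end gen

section lm

variable [MeasurableSpace 𝕊] [BorelSpace 𝕊]
  [SecondCountableTopology 𝕊] [LocallyCompactSpace 𝕊] [T2Space 𝕊] (μ : Measure 𝕊) [μ.IsHaarMeasure] [μ.IsMulRightInvariant]

/-- The multiplication operators. -/
noncomputable def Mk (κ : Kap geo) : Kt B (lam μ) →L[ℂ] Kt B (lam μ) := mulF B (mulK μ κ)

theorem Mk_apply (κ : Kap geo) (y : Kt B (lam μ)) : Mk B μ κ y = mulF B (mulK μ κ) y := rfl

omit [IsTopologicalGroup 𝕊] [BorelSpace 𝕊] [SecondCountableTopology 𝕊] [LocallyCompactSpace 𝕊] [T2Space 𝕊] [μ.IsHaarMeasure] [μ.IsMulRightInvariant] in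
theorem coeFn_lin {ι : Type} (S : Finset ι) (c : ι → ℂ) (v : ι → Lp ℂ 2 μ) :
    ((∑ i ∈ S, c i • v i : Lp ℂ 2 μ) : 𝕊 → ℂ) =ᵐ[μ] fun s => ∑ i ∈ S, c i * (v i : 𝕊 → ℂ) s := by
  classical
  induction S using Finset.induction_on with
  | empty =>
    simp only [Finset.sum_empty]
    exact Lp.coeFn_zero _ _ _
  | insert a T ha ih =>
    rw [Finset.sum_insert ha]
    filter_upwards [Lp.coeFn_add (c a • v a) (∑ i ∈ T, c i • v i), Lp.coeFn_smul (c a) (v a), ih] with s h4 h5 h6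
    rw [h4, Pi.add_apply, h5, h6, Finset.sum_insert ha]
    rfl

/-- Linear combinations of multiplications. -/
theorem Mk_sum {ι : Type} (S : Finset ι) (c : ι → ℂ) (κ : ι → Kap geo) (κ' : Kap geo)
    (h : ∀ g s, κ'.k g s = ∑ i ∈ S, c i * (κ i).k g s) (y : Kt B (lam μ)) : Mk B μ κ' y = ∑ i ∈ S, c i • Mk B μ (κ i) y := by
  refine mulF_sum B S c (fun i => mulK μ (κ i)) (mulK μ κ') (fun g w => ?_) y
  apply Lp.ext
  have h1 : ∀ᵐ s ∂μ, ∀ i ∈ S, ((mulK μ (κ i)).O g w : 𝕊 → ℂ) s = (κ i).k g s * (w : 𝕊 → ℂ) s :=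
    (ae_ball_iff (S.countable_toSet)).2 fun i _ => mulK_apply μ (κ i) g w
  filter_upwards [mulK_apply μ κ' g w, h1, coeFn_lin μ S c fun i => (mulK μ (κ i)).O g w] with s h3 h4 h5
  rw [h3, h5, h, Finset.sum_mul]
  refine Finset.sum_congr rfl fun i hi => ?_
  rw [h4 i hi, mul_assoc]

theorem mulK_mul (κ κ' κ'' : Kap geo) (h : ∀ g s, κ''.k g s = κ.k g s * κ'.k g s) (g : 𝔾) (w : Lp ℂ 2 μ) :
    (mulK μ κ'').O g w = (mulK μ κ).O g ((mulK μ κ').O g w) := by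
  apply Lp.ext
  filter_upwards [mulK_apply μ κ'' g w, mulK_apply μ κ g ((mulK μ κ').O g w), mulK_apply μ κ' g w] with s h1 h2 h3
  rw [h1, h2, h3, h, mul_assoc]

/-- Products of multiplications. -/
theorem Mk_mul (κ κ' κ'' : Kap geo) (h : ∀ g s, κ''.k g s = κ.k g s * κ'.k g s) (y : Kt B (lam μ)) :
    Mk B μ κ'' y = Mk B μ κ (Mk B μ κ' y) :=
  mulF_comp B (mulK μ κ') (mulK μ κ) (mulK μ κ'') (fun g w => mulK_mul μ κ κ' κ'' h g w) y

theorem Mk_one (κ : Kap geo) (h : ∀ g s, κ.k g s = 1) (y : Kt B (lam μ)) : Mk B μ κ y = y := by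
  refine mulF_id B (mulK μ κ) (fun g w => ?_) y
  apply Lp.ext
  filter_upwards [mulK_apply μ κ g w] with s h1
  rw [h1, h, one_mul]

/-- The constant function. -/
def kc (geo : Geo 𝔾 𝕊 𝕂) (c : ℂ) : Kap geo where
  k _ _ := c
  cont := continuous_const
  inv _ _ _ := rfl
  bdd := ⟨‖c‖, norm_nonneg _, fun _ _ => le_rfl⟩

theorem Mk_kc (c : ℂ) (y : Kt B (lam μ)) : Mk B μ (kc geo c) y = c • y := by
  rw [Mk_sum B μ (Finset.univ : Finset Unit) (fun _ => c) (fun _ => kc geo 1) (kc geo c) (fun g s => by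
    simp [kc]) y]
  rw [Finset.sum_const, Finset.card_univ, Fintype.card_unit, one_smul, Mk_one B μ (kc geo 1) fun _ _ => rfl]

theorem Mk_adj (κ : Kap geo) (y y' : Kt B (lam μ)) : (inner ℂ (Mk B μ κ y) y' : ℂ) = inner ℂ y (Mk B μ κ.conj y') := by
  refine inner_mulF B (mulK μ κ) (mulK μ κ.conj) (fun g w w' => ?_) y y'
  rw [L2.inner_def, L2.inner_def]
  refine integral_congr_ae ?_
  filter_upwards [mulK_apply μ κ g w, mulK_apply μ κ.conj g w'] with s h1 h2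
  rw [h1, h2, RCLike.inner_apply, RCLike.inner_apply]
  show _ = (starRingEnd ℂ (κ.k g s) * (w' : 𝕊 → ℂ) s) * starRingEnd ℂ ((w : 𝕊 → ℂ) s)
  rw [map_mul]
  ring

/-- The sum of the squares of the multipliers. -/
theorem sum_Mk {ι : Type} (S : Finset ι) (κ : ι → Kap geo) {C : ℝ} (hC : ∀ g s, ∑ i ∈ S, ‖(κ i).k g s‖ ^ 2 = C ^ 2)
    (y : Kt B (lam μ)) : ∑ i ∈ S, ‖Mk B μ (κ i) y‖ ^ 2 = C ^ 2 * ‖y‖ ^ 2 := by
  have h1 : Mk B μ (kc geo ((C : ℂ) ^ 2)) y = ∑ i ∈ S, (1 : ℂ) • Mk B μ ((κ i).conj.mul (κ i)) y := by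
    refine Mk_sum B μ S (fun _ => 1) (fun i => (κ i).conj.mul (κ i)) _ (fun g s => ?_) y
    show (C : ℂ) ^ 2 = ∑ i ∈ S, 1 * (starRingEnd ℂ ((κ i).k g s) * (κ i).k g s)
    rw [← Complex.ofReal_pow, ← hC g s, Complex.ofReal_sum]
    refine Finset.sum_congr rfl fun i _ => ?_
    rw [one_mul, mul_comm, Complex.mul_conj, Complex.normSq_eq_norm_sq]
  rw [Mk_kc] at h1
  have h2 : ((∑ i ∈ S, ‖Mk B μ (κ i) y‖ ^ 2 : ℝ) : ℂ) = ((C ^ 2 * ‖y‖ ^ 2 : ℝ) : ℂ) := by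
    have h3 : (inner ℂ y (((C : ℂ) ^ 2) • y) : ℂ) = ((C ^ 2 * ‖y‖ ^ 2 : ℝ) : ℂ) := by
      rw [inner_smul_right, inner_self_eq_norm_sq_to_K]
      push_cast
      rfl
    rw [← h3, h1, inner_sum, Complex.ofReal_sum]
    refine Finset.sum_congr rfl fun i _ => ?_
    rw [one_smul, Mk_mul B μ (κ i).conj (κ i) ((κ i).conj.mul (κ i)) (fun _ _ => rfl), ← Mk_adj, inner_self_eq_norm_sq_to_K]
    push_cast
    rfl
  exact_mod_cast h2

/-- Domination of the sum of the squares of the multipliers. -/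
theorem sum_Mk_le {ι : Type} (S : Finset ι) (κ : ι → Kap geo) {C : ℝ} (hC : ∀ g s, ∑ i ∈ S, ‖(κ i).k g s‖ ^ 2 ≤ C ^ 2)
    (y : Kt B (lam μ)) : ∑ i ∈ S, ‖Mk B μ (κ i) y‖ ^ 2 ≤ C ^ 2 * ‖y‖ ^ 2 := by
  classical
  let r : Kap geo :=
    { k := fun g s => ((Real.sqrt (C ^ 2 - ∑ i ∈ S, ‖(κ i).k g s‖ ^ 2) : ℝ) : ℂ)
      cont := Complex.continuous_ofReal.comp (Continuous.sqrt (continuous_const.sub (continuous_finsetSum _ fun i _ =>
        (κ i).cont.norm.pow 2)))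
      inv := fun g q s => by
        congr 2
        congr 1
        exact Finset.sum_congr rfl fun i _ => by rw [(κ i).inv]
      bdd := ⟨|C|, abs_nonneg _, fun g s => by
        rw [Complex.norm_real, Real.norm_of_nonneg (Real.sqrt_nonneg _)]
        refine Real.sqrt_le_iff.2 ⟨abs_nonneg _, ?_⟩
        rw [sq_abs]
        have : 0 ≤ ∑ i ∈ S, ‖(κ i).k g s‖ ^ 2 := Finset.sum_nonneg fun i _ => sq_nonneg _
        linarith⟩ }
  let κ' : Option ι → Kap geo := fun o => o.elim r κ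
  have h1 := sum_Mk B μ (insert none (S.map Function.Embedding.some)) κ' (C := C) (fun g s => by
    rw [Finset.sum_insert (by simp), Finset.sum_map]
    show ‖((Real.sqrt (C ^ 2 - ∑ i ∈ S, ‖(κ i).k g s‖ ^ 2) : ℝ) : ℂ)‖ ^ 2 + ∑ i ∈ S, ‖(κ i).k g s‖ ^ 2 = C ^ 2
    rw [Complex.norm_real, Real.norm_of_nonneg (Real.sqrt_nonneg _), Real.sq_sqrt (by linarith [hC g s])]
    ring) y
  rw [Finset.sum_insert (by simp), Finset.sum_map] at h1
  rw [← h1]
  have h2 : ∑ i ∈ S, ‖Mk B μ (κ i) y‖ ^ 2 = ∑ i ∈ S, ‖Mk B μ (κ' (Function.Embedding.some i)) y‖ ^ 2 := rfl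
  rw [h2]
  exact le_add_of_nonneg_left (sq_nonneg _)

/-- The multiplication by a function of modulus one. -/
noncomputable def Uk (κ : Kap geo) (h : ∀ g s, ‖κ.k g s‖ = 1) : Kt B (lam μ) ≃ₗᵢ[ℂ] Kt B (lam μ) where
  toFun := Mk B μ κ
  invFun := Mk B μ κ.conj
  map_add' := map_add _
  map_smul' := map_smul _
  left_inv y := by
    rw [← Mk_mul B μ κ.conj κ (κ.conj.mul κ) (fun _ _ => rfl), Mk_one B μ]
    intro g s
    show starRingEnd ℂ (κ.k g s) * κ.k g s = 1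
    rw [mul_comm, Complex.mul_conj, Complex.normSq_eq_norm_sq, h]
    norm_num
  right_inv y := by
    rw [← Mk_mul B μ κ κ.conj (κ.mul κ.conj) (fun _ _ => rfl), Mk_one B μ]
    intro g s
    show κ.k g s * starRingEnd ℂ (κ.k g s) = 1
    rw [Complex.mul_conj, Complex.normSq_eq_norm_sq, h]
    norm_num
  norm_map' y := by
    have h1 := sum_Mk B μ (Finset.univ : Finset Unit) (fun _ => κ) (C := 1) (fun g s => by simp [h]) y
    simp only [Finset.univ_unique, Finset.sum_const, Finset.card_singleton, one_smul, one_pow, one_mul] at h1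
    exact (sq_eq_sq₀ (norm_nonneg _) (norm_nonneg _)).1 h1

theorem Uk_apply (κ : Kap geo) (h : ∀ g s, ‖κ.k g s‖ = 1) (y : Kt B (lam μ)) : Uk B μ κ h y = Mk B μ κ y := rfl

/-- The unitaries given by the functions of modulus one. -/
def US : Set (Kt B (lam μ) ≃ₗᵢ[ℂ] Kt B (lam μ)) := {T | ∃ (κ : Kap geo) (h : ∀ g s, ‖κ.k g s‖ = 1), T = Uk B μ κ h}

theorem US_comm {u v : Kt B (lam μ) ≃ₗᵢ[ℂ] Kt B (lam μ)} (hu : u ∈ US B μ) (hv : v ∈ US B μ) : u * v = v * u := by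
  obtain ⟨κ, hκ, rfl⟩ := hu
  obtain ⟨κ', hκ', rfl⟩ := hv
  ext y
  show Mk B μ κ (Mk B μ κ' y) = Mk B μ κ' (Mk B μ κ y)
  rw [← Mk_mul B μ κ κ' (κ.mul κ') (fun _ _ => rfl), ← Mk_mul B μ κ' κ (κ.mul κ') (fun _ _ => mul_comm _ _)]

/-- Operators which commute with `US` commute with all multiplications. -/
theorem comm_Mk {Y : Kt B (lam μ) →L[ℂ] Kt B (lam μ)} (hY : ∀ u ∈ US B μ, ∀ y, u (Y y) = Y (u y)) (κ : Kap geo)
    (y : Kt B (lam μ)) : Mk B μ κ (Y y) = Y (Mk B μ κ y) := by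
  -- real functions with values in `[-1, 1]`
  have h1 : ∀ κ : Kap geo, (∀ g s, ∃ r : ℝ, |r| ≤ 1 ∧ κ.k g s = r) → ∀ y, Mk B μ κ (Y y) = Y (Mk B μ κ y) := by
    intro κ hκ y
    choose r hr hr' using hκ
    have hre : ∀ g s, r g s = (κ.k g s).re := fun g s => by rw [hr', Complex.ofReal_re]
    let u : Kap geo :=
      { k := fun g s => κ.k g s + Complex.I * ((Real.sqrt (1 - (κ.k g s).re ^ 2) : ℝ) : ℂ)
        cont := κ.cont.add (continuous_const.mul (Complex.continuous_ofReal.comp (Continuous.sqrt (continuous_const.sub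
          ((Complex.continuous_re.comp κ.cont).pow 2)))))
        inv := fun g q s => by rw [κ.inv]
        bdd := ⟨1 + 1, by norm_num, fun g s => by
          refine (norm_add_le _ _).trans (add_le_add ?_ ?_)
          · rw [hr', Complex.norm_real]
            exact hr g s
          · rw [norm_mul, Complex.norm_I, one_mul, Complex.norm_real, Real.norm_of_nonneg (Real.sqrt_nonneg _)]
            refine Real.sqrt_le_iff.2 ⟨zero_le_one, ?_⟩
            have := sq_nonneg (κ.k g s).re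
            linarith⟩ }
    have hu : ∀ g s, ‖u.k g s‖ = 1 := by
      intro g s
      have h2 : (κ.k g s).re ^ 2 ≤ 1 := by
        rw [← hre]
        exact (sq_le_one_iff_abs_le_one _).2 (hr g s)
      have h3 : ‖u.k g s‖ ^ 2 = 1 := by
        rw [← Complex.normSq_eq_norm_sq]
        show Complex.normSq (κ.k g s + Complex.I * ((Real.sqrt (1 - (κ.k g s).re ^ 2) : ℝ) : ℂ)) = 1
        rw [mul_comm Complex.I]
        have h4 : (κ.k g s) = (((κ.k g s).re : ℝ) : ℂ) := by rw [← hre, ← hr']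
        rw [h4, Complex.normSq_add_mul_I, Complex.ofReal_re, Real.sq_sqrt (by linarith)]
        ring
      have h4 := norm_nonneg (u.k g s)
      nlinarith
    have h2 : ∀ y, Mk B μ κ y = ∑ i : Fin 2, ((1 / 2 : ℂ)) • Mk B μ (if i = 0 then u else u.conj) y := by
      intro y
      refine Mk_sum B μ Finset.univ (fun _ => (1 / 2 : ℂ)) (fun i : Fin 2 => if i = 0 then u else u.conj) κ (fun g s => ?_) y
      rw [Fin.sum_univ_two]
      simp only [if_true, one_ne_zero, if_false, Fin.isValue]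
      show κ.k g s = 1 / 2 * (κ.k g s + Complex.I * ((Real.sqrt (1 - (κ.k g s).re ^ 2) : ℝ) : ℂ)) +
        1 / 2 * starRingEnd ℂ (κ.k g s + Complex.I * ((Real.sqrt (1 - (κ.k g s).re ^ 2) : ℝ) : ℂ))
      rw [map_add, map_mul, Complex.conj_I, Complex.conj_ofReal, hr' g s, Complex.conj_ofReal]
      ring
    have hu' : ∀ g s, ‖u.conj.k g s‖ = 1 := fun g s => by
      show ‖starRingEnd ℂ (u.k g s)‖ = 1
      rw [RCLike.norm_conj, hu]
    rw [h2, h2, map_sum]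
    refine Finset.sum_congr rfl fun i _ => ?_
    rw [map_smul]
    congr 1
    split_ifs
    · exact hY (Uk B μ u hu) ⟨u, hu, rfl⟩ y
    · exact hY (Uk B μ u.conj hu') ⟨u.conj, hu', rfl⟩ y
  -- the general case
  obtain ⟨C, hC0, hC⟩ := κ.bdd
  have hC1 : (0 : ℝ) < C + 1 := by linarith
  let κr : Kap geo :=
    { k := fun g s => (((κ.k g s).re / (C + 1) : ℝ) : ℂ)
      cont := Complex.continuous_ofReal.comp ((Complex.continuous_re.comp κ.cont).div_const _)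
      inv := fun g q s => by rw [κ.inv]
      bdd := ⟨1, zero_le_one, fun g s => by
        rw [Complex.norm_real, Real.norm_eq_abs, abs_div, abs_of_pos hC1, div_le_one hC1]
        exact (Complex.abs_re_le_norm _).trans ((hC g s).trans (by linarith))⟩ }
  let κi : Kap geo :=
    { k := fun g s => (((κ.k g s).im / (C + 1) : ℝ) : ℂ)
      cont := Complex.continuous_ofReal.comp ((Complex.continuous_im.comp κ.cont).div_const _)
      inv := fun g q s => by rw [κ.inv]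
      bdd := ⟨1, zero_le_one, fun g s => by
        rw [Complex.norm_real, Real.norm_eq_abs, abs_div, abs_of_pos hC1, div_le_one hC1]
        exact (Complex.abs_im_le_norm _).trans ((hC g s).trans (by linarith))⟩ }
  have h2 : ∀ y, Mk B μ κ y = ∑ i : Fin 2, (if i = 0 then ((C + 1 : ℝ) : ℂ) else ((C + 1 : ℝ) : ℂ) * Complex.I) •
      Mk B μ (if i = 0 then κr else κi) y := by
    intro y
    refine Mk_sum B μ Finset.univ (fun i : Fin 2 => if i = 0 then ((C + 1 : ℝ) : ℂ) else ((C + 1 : ℝ) : ℂ) * Complex.I)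
      (fun i : Fin 2 => if i = 0 then κr else κi) κ (fun g s => ?_) y
    rw [Fin.sum_univ_two]
    simp only [if_true, one_ne_zero, if_false, Fin.isValue]
    show κ.k g s = ((C + 1 : ℝ) : ℂ) * (((κ.k g s).re / (C + 1) : ℝ) : ℂ) +
      ((C + 1 : ℝ) : ℂ) * Complex.I * (((κ.k g s).im / (C + 1) : ℝ) : ℂ)
    have h5 : ((C + 1 : ℝ) : ℂ) ≠ 0 := Complex.ofReal_ne_zero.2 hC1.ne'
    rw [Complex.ofReal_div, Complex.ofReal_div, mul_div_cancel₀ _ h5, mul_right_comm, mul_div_cancel₀ _ h5]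
    conv_lhs => rw [← Complex.re_add_im (κ.k g s)]
  rw [h2, h2, map_sum]
  refine Finset.sum_congr rfl fun i _ => ?_
  rw [map_smul]
  congr 1
  split_ifs
  · refine h1 κr (fun g s => ⟨(κ.k g s).re / (C + 1), ?_, rfl⟩) y
    rw [abs_div, abs_of_pos hC1, div_le_one hC1]
    exact (Complex.abs_re_le_norm _).trans ((hC g s).trans (by linarith))
  · refine h1 κi (fun g s => ⟨(κ.k g s).im / (C + 1), ?_, rfl⟩) y
    rw [abs_div, abs_of_pos hC1, div_le_one hC1]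
    exact (Complex.abs_im_le_norm _).trans ((hC g s).trans (by linarith))

/-- The translated function. -/
def Kap.act (κ : Kap geo) (g₀ : 𝔾) : Kap geo where
  k g s := κ.k (g₀ * g) s
  cont := κ.cont.comp ((continuous_const.mul continuous_fst).prodMk continuous_snd)
  inv g q s := by rw [← mul_assoc, κ.inv]
  bdd := by
    obtain ⟨C, h0, hC⟩ := κ.bdd
    exact ⟨C, h0, fun g s => hC _ s⟩

theorem WK_Mk (k : G) (κ : Kap geo) (y : Kt B (lam μ)) :
    WK B (lam μ) k (Mk B μ κ y) = Mk B μ (TZ.Kap.act κ (B.ir k)⁻¹) (WK B (lam μ) k y) := by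
  rw [Mk_apply, WK_mulF]
  refine mulF_congr B (fun g w => ?_) _
  apply Lp.ext
  filter_upwards [mulK_apply μ (TZ.Kap.act κ (B.ir k)⁻¹) g w, mulK_apply μ κ ((B.ir k)⁻¹ * g) w] with s h1 h2
  rw [h1]
  exact h2

/-- The multipliers of the average over `G`. -/
theorem mult_am (ho : IsOpenMap geo.nb) (am : Amn B) (𝒯 : Set (Kt B (lam μ) ≃ₗᵢ[ℂ] Kt B (lam μ)))
    (h𝒯 : ∀ T ∈ 𝒯, ∀ κ y, Mk B μ κ (T y) = T (Mk B μ κ y)) :
    ∀ (Q : Finset G) (ε : ℝ), 0 < ε → ∃ (S : Finset G) (m : G → (Kt B (lam μ) →L[ℂ] Kt B (lam μ))),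
      (∀ T ∈ 𝒯, ∀ t x, m t (T x) = T (m t x)) ∧ (∀ t, t ∉ S → m t = 0) ∧ (∀ x, ∑ t ∈ S, ‖m t x‖ ^ 2 = ‖x‖ ^ 2) ∧
      ∀ h ∈ Q, ∀ x, ∀ S' : Finset G,
        ∑ t ∈ S', ‖m t (WK B (lam μ) h x) - WK B (lam μ) h (m (h⁻¹ * t) x)‖ ^ 2 ≤ ε ^ 2 * ‖x‖ ^ 2 := by
  classical
  intro Q ε hε
  obtain ⟨S, p, p1, p2, p3, p4, p5, p6⟩ := am Q ε hε
  have hle : ∀ t g, p t g ≤ 1 := by
    intro t g
    by_cases ht : t ∈ S
    · have h1 := Finset.single_le_sum (f := fun t => p t g ^ 2) (fun i _ => sq_nonneg _) ht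
      rw [p4 g] at h1
      exact (sq_le_one_iff₀ (p2 t g)).1 h1
    · rw [p3 t ht g]
      exact zero_le_one
  have hAd : ∀ t, Ad geo (p t) := fun t => ⟨p1 t, ⟨1, zero_le_one, fun g => by
    rw [abs_of_nonneg (p2 t g)]
    exact hle t g⟩, fun g q hq => p5 t g q hq⟩
  refine ⟨S, fun t => Mk B μ (kapOf ho (hAd t)), fun T hT t x => h𝒯 T hT _ x, fun t ht => ?_, fun x => ?_, fun h hh x S' => ?_⟩
  · ext y
    have h1 := Mk_sum B μ (∅ : Finset Unit) (fun _ => 0) (fun _ => kapOf ho (hAd t)) (kapOf ho (hAd t)) (fun g s => by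
      rw [kapOf_k, p3 t ht, Finset.sum_empty, Complex.ofReal_zero]) y
    rw [Finset.sum_empty] at h1
    rw [h1]
    rfl
  · have h1 := sum_Mk B μ S (fun t => kapOf ho (hAd t)) (C := 1) (fun g s => by
      rw [one_pow, ← p4 (g * qs geo s)]
      refine Finset.sum_congr rfl fun t _ => ?_
      rw [kapOf_k, Complex.norm_real, Real.norm_eq_abs, sq_abs]) x
    rw [one_pow, one_mul] at h1
    exact h1
  · -- the errors are multiplications
    let e : G → Kap geo := fun t =>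
      { k := fun g s => (kapOf ho (hAd t)).k g s - (kapOf ho (hAd (h⁻¹ * t))).k ((B.ir h)⁻¹ * g) s
        cont := (kapOf ho (hAd t)).cont.sub (TZ.Kap.act (kapOf ho (hAd (h⁻¹ * t))) (B.ir h)⁻¹).cont
        inv := fun g q s => by
          rw [(kapOf ho (hAd t)).inv, ← mul_assoc, (kapOf ho (hAd (h⁻¹ * t))).inv]
        bdd := ⟨1 + 1, by norm_num, fun g s => by
          refine (norm_sub_le _ _).trans (add_le_add ?_ ?_)
          · rw [kapOf_k, Complex.norm_real, Real.norm_of_nonneg (p2 _ _)]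
            exact hle _ _
          · rw [kapOf_k, Complex.norm_real, Real.norm_of_nonneg (p2 _ _)]
            exact hle _ _⟩ }
    have h1 : ∀ t, Mk B μ (kapOf ho (hAd t)) (WK B (lam μ) h x) - WK B (lam μ) h (Mk B μ (kapOf ho (hAd (h⁻¹ * t))) x) =
        Mk B μ (e t) (WK B (lam μ) h x) := by
      intro t
      rw [WK_Mk]
      have h2 := Mk_sum B μ (Finset.univ : Finset (Fin 2)) (fun i : Fin 2 => if i = 0 then 1 else -1)
        (fun i : Fin 2 => if i = 0 then kapOf ho (hAd t) else TZ.Kap.act (kapOf ho (hAd (h⁻¹ * t))) (B.ir h)⁻¹) (e t)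
        (fun g s => by
          rw [Fin.sum_univ_two]
          simp only [if_true, one_ne_zero, if_false, Fin.isValue]
          show (kapOf ho (hAd t)).k g s - (kapOf ho (hAd (h⁻¹ * t))).k ((B.ir h)⁻¹ * g) s =
            1 * (kapOf ho (hAd t)).k g s + -1 * (kapOf ho (hAd (h⁻¹ * t))).k ((B.ir h)⁻¹ * g) s
          ring) (WK B (lam μ) h x)
      rw [h2, Fin.sum_univ_two]
      simp only [if_true, one_ne_zero, if_false, Fin.isValue]
      rw [one_smul, neg_one_smul, sub_eq_add_neg]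
    have h2 := sum_Mk_le B μ S' e (C := ε) (fun g s => by
      have h3 := p6 h hh ((B.ir h)⁻¹ * (g * qs geo s)) S'
      rw [mul_inv_cancel_left] at h3
      refine le_trans (le_of_eq (Finset.sum_congr rfl fun t _ => ?_)) h3
      show ‖(kapOf ho (hAd t)).k g s - (kapOf ho (hAd (h⁻¹ * t))).k ((B.ir h)⁻¹ * g) s‖ ^ 2 = _
      rw [kapOf_k, kapOf_k, ← Complex.ofReal_sub, Complex.norm_real, Real.norm_eq_abs, sq_abs, mul_assoc]) (WK B (lam μ) h x)
    rw [LinearIsometryEquiv.norm_map] at h2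
    refine le_trans (le_of_eq ?_) h2
    exact Finset.sum_congr rfl fun t _ => by rw [h1 t]

end lm

section main

variable {L0 Y : Type} [NormedAddCommGroup L0] [InnerProductSpace ℂ L0] [CompleteSpace L0]

/-- Compression of diagonal operators by an isometry. -/
theorem exists_cmp {K : Type} [NormedAddCommGroup K] [InnerProductSpace ℂ K] [CompleteSpace K] (J : K →ₗᵢ[ℂ] Lv Y L0) :
    ∃ Ψ : (L0 →L[ℂ] L0) →ₗ[ℂ] (K →L[ℂ] K), (∀ T, ‖Ψ T‖ ≤ ‖T‖) ∧ ∀ (T : L0 →L[ℂ] L0) (x y : K),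
      HasSum (fun i => (inner ℂ (T (J x i)) (J y i) : ℂ)) (inner ℂ (Ψ T x) y) := by
  have hb : ∀ (T : L0 →L[ℂ] L0) (i : Y) (x : L0), ‖T x‖ ≤ ‖T‖ * ‖x‖ := fun T _ x => T.le_opNorm x
  let Ψ0 : (L0 →L[ℂ] L0) → (K →L[ℂ] K) := fun T =>
    (ContinuousLinearMap.adjoint J.toContinuousLinearMap).comp ((dg fun _ : Y => T).comp J.toContinuousLinearMap)
  have h0 : ∀ (T : L0 →L[ℂ] L0) (x y : K), HasSum (fun i => (inner ℂ (T (J x i)) (J y i) : ℂ)) (inner ℂ (Ψ0 T x) y) := by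
    intro T x y
    have h1 : (inner ℂ (Ψ0 T x) y : ℂ) = inner ℂ (dg (fun _ : Y => T) (J x)) (J y) := by
      show (inner ℂ (ContinuousLinearMap.adjoint J.toContinuousLinearMap (dg (fun _ : Y => T) (J x))) y : ℂ) = _
      rw [ContinuousLinearMap.adjoint_inner_left]
      rfl
    rw [h1]
    have h2 := lv_inner (dg (fun _ : Y => T) (J x)) (J y)
    have h3 : ∀ i, dg (fun _ : Y => T) (J x) i = T (J x i) := fun i => dg_apply (hb T) (J x) i
    simp only [h3] at h2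
    exact h2
  have hn : ∀ T, ‖Ψ0 T‖ ≤ ‖T‖ := by
    intro T
    refine ContinuousLinearMap.opNorm_le_bound _ (norm_nonneg _) fun x => ?_
    have hJ : ‖ContinuousLinearMap.adjoint J.toContinuousLinearMap‖ ≤ 1 := by
      rw [LinearIsometryEquiv.norm_map]
      exact J.norm_toContinuousLinearMap_le
    show ‖ContinuousLinearMap.adjoint J.toContinuousLinearMap (dg (fun _ : Y => T) (J x))‖ ≤ _
    refine (ContinuousLinearMap.le_of_opNorm_le _ hJ _).trans ?_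
    rw [one_mul, ← J.norm_map x]
    exact norm_dg_le (norm_nonneg _) (hb T) (J x)
  refine ⟨{ toFun := Ψ0, map_add' := fun T T' => ?_, map_smul' := fun c T => ?_ }, hn, h0⟩
  · ext x
    refine ext_inner_right ℂ fun y => ?_
    refine (h0 (T + T') x y).unique ?_
    have h1 := (h0 T x y).add (h0 T' x y)
    rw [add_apply, inner_add_left]
    convert h1 using 1
    funext i
    rw [add_apply, inner_add_left]
  · ext x
    refine ext_inner_right ℂ fun y => ?_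
    refine (h0 (c • T) x y).unique ?_
    have h1 := (h0 T x y).mul_left (starRingEnd ℂ c)
    rw [RingHom.id_apply, smul_apply, inner_smul_left]
    have e : (fun i => (inner ℂ ((c • T) (J x i)) (J y i) : ℂ)) = fun i => starRingEnd ℂ c * inner ℂ (T (J x i)) (J y i) := by
      funext i
      rw [smul_apply, inner_smul_left]
    rw [e]
    exact h1

variable [MeasurableSpace 𝕊] [BorelSpace 𝕊]
  [SecondCountableTopology 𝕊] [LocallyCompactSpace 𝕊] [T2Space 𝕊] (μ : Measure 𝕊) [μ.IsHaarMeasure] [μ.IsMulRightInvariant]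

/-- **Operators in the Levi algebra.** -/
theorem exists_XiJ (ho : IsOpenMap geo.nb) (am : Amn B) (V0 : S' →* (L0 ≃ₗᵢ[ℂ] L0))
    (c0 : (H ≃ₗᵢ[ℂ] H) × (U ≃ₗᵢ[ℂ] U) → (L0 ≃ₗᵢ[ℂ] L0)) (J : H →ₗᵢ[ℂ] Lv Y L0)
    (hJV : ∀ (s : S') (x : H) (y : Y), J (B.V s x) y = V0 s (J x y))
    (hJc : ∀ c ∈ B.CC, ∀ (x : H) (y : Y), J (c.1 x) y = c0 c (J x y)) :
    ∃ Ξ : (L0 →L[ℂ] L0) →ₗ[ℂ] (Kt B (lam μ) →L[ℂ] Kt B (lam μ)), (∀ T, ‖Ξ T‖ ≤ ‖T‖) ∧
      (Ξ (ContinuousLinearMap.id ℂ L0) = ContinuousLinearMap.id ℂ _) ∧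
      (∀ T : L0 →L[ℂ] L0, (∀ x y, (inner ℂ (T x) y : ℂ) = inner ℂ x (T y)) → ∀ x y, (inner ℂ (Ξ T x) y : ℂ) = inner ℂ x (Ξ T y)) ∧
      (∀ T : L0 →L[ℂ] L0, (∀ x, 0 ≤ (inner ℂ x (T x) : ℂ).re) → ∀ x, 0 ≤ (inner ℂ x (Ξ T x) : ℂ).re) ∧
      (∀ (s : S') (T : L0 →L[ℂ] L0), Ξ (cn (V0 s) T) = cn (Vt B (lam μ) s) (Ξ T)) ∧
      ∀ T : L0 →L[ℂ] L0, (∀ c ∈ B.CC, ∀ x, c0 c (T x) = T (c0 c x)) → Ξ T ∈ JJ μ B := by
  classical
  -- the isometry of `Kt`
  let sO : S' ⊕ ({c // c ∈ B.CC} × Bool) → (L0 →L[ℂ] L0) :=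
    Sum.elim (fun s => ((V0 s).toContinuousLinearEquiv : L0 →L[ℂ] L0)) (fun c =>
      if c.2 then ((c0 c.1.1).toContinuousLinearEquiv : L0 →L[ℂ] L0) else (((c0 c.1.1)⁻¹ : L0 ≃ₗᵢ[ℂ] L0).toContinuousLinearEquiv : L0 →L[ℂ] L0))
  let k0 : S' ⊕ ({c // c ∈ B.CC} × Bool) → (H →L[ℂ] H) :=
    Sum.elim (fun s => ((B.V s).toContinuousLinearEquiv : H →L[ℂ] H)) (fun c =>
      if c.2 then ((c.1.1.1).toContinuousLinearEquiv : H →L[ℂ] H) else (((c.1.1.1)⁻¹ : H ≃ₗᵢ[ℂ] H).toContinuousLinearEquiv : H →L[ℂ] H))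
  let kO : S' ⊕ ({c // c ∈ B.CC} × Bool) → (Kt B (lam μ) →L[ℂ] Kt B (lam μ)) :=
    Sum.elim (fun s => ((Vt B (lam μ) s).toContinuousLinearEquiv : Kt B (lam μ) →L[ℂ] Kt B (lam μ))) (fun c =>
      if c.2 then ((lift B (lam μ) c.1.1.1).toContinuousLinearEquiv : Kt B (lam μ) →L[ℂ] Kt B (lam μ))
      else (((lift B (lam μ) c.1.1.1)⁻¹ : Kt B (lam μ) ≃ₗᵢ[ℂ] Kt B (lam μ)).toContinuousLinearEquiv : Kt B (lam μ) →L[ℂ] Kt B (lam μ)))
  let ιO : S' ⊕ ({c // c ∈ B.CC} × Bool) → S' ⊕ ({c // c ∈ B.CC} × Bool) :=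
    Sum.elim (fun s => Sum.inl s⁻¹) (fun c => Sum.inr (c.1, !c.2))
  have adjU : ∀ {M : Type} [NormedAddCommGroup M] [InnerProductSpace ℂ M] (u : M ≃ₗᵢ[ℂ] M) (x y : M),
      (inner ℂ (u x) y : ℂ) = inner ℂ x (u⁻¹ y) := by
    intro M _ _ u x y
    have h1 := LinearIsometryEquiv.inner_map_map u x (u⁻¹ y)
    rw [← h1]
    congr 1
    exact (u.apply_symm_apply y).symm
  have adjU' : ∀ {M : Type} [NormedAddCommGroup M] [InnerProductSpace ℂ M] (u : M ≃ₗᵢ[ℂ] M) (x y : M),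
      (inner ℂ (u⁻¹ x) y : ℂ) = inner ℂ x (u y) := by
    intro M _ _ u x y
    have h1 := adjU u⁻¹ x y
    rwa [inv_inv] at h1
  obtain ⟨Y', JK, hJK⟩ := span_J sO k0 kO ιO
    (by
      rintro (s | ⟨c, b⟩) x y
      · show (inner ℂ (V0 s x) y : ℂ) = inner ℂ x (V0 s⁻¹ y)
        rw [map_inv]
        exact adjU _ _ _
      · rcases b with _ | _
        · exact adjU' (c0 c.1) x y
        · exact adjU (c0 c.1) x y)
    (by
      rintro (s | ⟨c, b⟩) x y
      · show (inner ℂ (B.V s x) y : ℂ) = inner ℂ x (B.V s⁻¹ y)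
        rw [map_inv]
        exact adjU _ _ _
      · rcases b with _ | _
        · exact adjU' c.1.1 x y
        · exact adjU c.1.1 x y)
    (by
      rintro (s | ⟨c, b⟩) x y
      · show (inner ℂ (Vt B (lam μ) s x) y : ℂ) = inner ℂ x (Vt B (lam μ) s⁻¹ y)
        rw [map_inv]
        exact adjU _ _ _
      · rcases b with _ | _
        · exact adjU' (lift B (lam μ) c.1.1) x y
        · exact adjU (lift B (lam μ) c.1.1) x y)
    J
    (by
      rintro (s | ⟨c, b⟩) x y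
      · exact hJV s x y
      · rcases b with _ | _
        · show J (c.1.1⁻¹ x) y = (c0 c.1)⁻¹ (J x y)
          have h1 := hJc c.1 c.2 (c.1.1⁻¹ x) y
          have h2 : c.1.1 (c.1.1⁻¹ x) = x := app_inv _ _
          rw [h2] at h1
          rw [h1]
          exact ((c0 c.1).symm_apply_apply _).symm
        · exact hJc c.1 c.2 x y)
    (fun ξ hξ => by
      refine tot_tau B (lam μ) ξ fun q => ?_
      have h1 := hξ (tau B q.1) (by
        rintro (s | ⟨c, b⟩) x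
        · show tau B q.1 (B.V s x) = Vt B (lam μ) s (tau B q.1 x)
          rw [Vt_apply, lift_tau B (lam μ) (B.cphi_V s)]
        · rcases b with _ | _
          · show tau B q.1 (c.1.1⁻¹ x) = (lift B (lam μ) c.1.1)⁻¹ (tau B q.1 x)
            rw [lift_inv_tau B (B.cphi_CC c.2)]
          · show tau B q.1 (c.1.1 x) = lift B (lam μ) c.1.1 (tau B q.1 x)
            rw [lift_tau B (lam μ) (B.cphi_CC c.2)]) q.2
      rw [← inner_conj_symm, h1, map_zero])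
  have hJV' : ∀ (s : S') x y, JK (Vt B (lam μ) s x) y = V0 s (JK x y) := fun s x y => hJK (Sum.inl s) x y
  have hJc' : ∀ c ∈ B.CC, ∀ x y, JK (lift B (lam μ) c.1 x) y = c0 c (JK x y) := fun c hc x y =>
    hJK (Sum.inr (⟨c, hc⟩, true)) x y
  -- the compression
  obtain ⟨Ψ, hΨn, hΨ⟩ := exists_cmp JK
  have hΨcn : ∀ (R : Kt B (lam μ) ≃ₗᵢ[ℂ] Kt B (lam μ)) (R0 : L0 ≃ₗᵢ[ℂ] L0), (∀ x y, JK (R x) y = R0 (JK x y)) →
      ∀ T, Ψ (cn R0 T) = cn R (Ψ T) := by
    intro R R0 hR T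
    have hR' : ∀ x y, JK (R⁻¹ x) y = R0⁻¹ (JK x y) := fun x y => by
      have h1 := hR (R⁻¹ x) y
      rw [app_inv] at h1
      rw [h1, inv_app]
    ext x
    refine ext_inner_right ℂ fun y => ?_
    refine (hΨ (cn R0 T) x y).unique ?_
    have h1 := hΨ T (R⁻¹ x) (R⁻¹ y)
    have h2 : (inner ℂ (cn R (Ψ T) x) y : ℂ) = inner ℂ (Ψ T (R⁻¹ x)) (R⁻¹ y) := by
      rw [cn_apply, ← LinearIsometryEquiv.inner_map_map R (Ψ T (R⁻¹ x)) (R⁻¹ y), app_inv]
    rw [h2]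
    convert h1 using 1
    funext i
    rw [cn_apply, hR', hR', ← LinearIsometryEquiv.inner_map_map R0 (T _), app_inv]
  -- the expectation
  obtain ⟨Φ1, hΦ1, hΦ1u, hΦ1cn⟩ := exists_exp (US B μ) fun u hu v hv => US_comm B μ hu hv
  -- the set of unitaries which commute with the multiplications
  let 𝒯 : Set (Kt B (lam μ) ≃ₗᵢ[ℂ] Kt B (lam μ)) := {T | ∀ κ y, Mk B μ κ (T y) = T (Mk B μ κ y)}
  have hU𝒯 : ∀ u ∈ US B μ, u ∈ 𝒯 := by
    rintro u ⟨κ, hκ, rfl⟩ κ' y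
    show Mk B μ κ' (Mk B μ κ y) = Mk B μ κ (Mk B μ κ' y)
    rw [← Mk_mul B μ κ κ' (κ.mul κ') (fun _ _ => rfl), ← Mk_mul B μ κ' κ (κ.mul κ') (fun _ _ => mul_comm _ _)]
  have hV𝒯 : ∀ s : S', Vt B (lam μ) s ∈ 𝒯 := by
    intro s κ y
    rw [Vt_apply, Vt_apply, Mk_apply, Mk_apply, mulF_lift B _ (B.cphi_V s)]
  have hc𝒯 : ∀ c ∈ B.CC, lift B (lam μ) c.1 ∈ 𝒯 := by
    intro c hc κ y
    rw [Mk_apply, Mk_apply, mulF_lift B _ (B.cphi_CC hc)]
  have h𝒯U : ∀ T ∈ 𝒯, ∀ u ∈ US B μ, T * u = u * T := by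
    rintro T hT u ⟨κ, hκ, rfl⟩
    ext y
    exact (hT κ y).symm
  obtain ⟨Φ2, hΦ2, hΦ2B, hΦ2T, hΦ2cn⟩ := exists_am (WK B (lam μ)) 𝒯 (mult_am B μ ho am 𝒯 fun T hT => hT)
  have hone : Ψ (ContinuousLinearMap.id ℂ L0) = ContinuousLinearMap.id ℂ _ := by
    ext x
    refine ext_inner_right ℂ fun y => ?_
    refine (hΨ _ x y).unique ?_
    have h1 := lv_inner (JK x) (JK y)
    rw [JK.inner_map_map] at h1
    exact h1
  have hcomm : ∀ T : L0 →L[ℂ] L0, (∀ c ∈ B.CC, ∀ x, c0 c (T x) = T (c0 c x)) → ∀ c ∈ B.CC,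
      cn (lift B (lam μ) c.1) (Ψ T) = Ψ T := by
    intro T hT c hc
    rw [← hΨcn (lift B (lam μ) c.1) (c0 c) (hJc' c hc)]
    congr 1
    exact cn_eq.2 (hT c hc)
  refine ⟨Φ2.comp (Φ1.comp Ψ), fun T => ?_, ?_, fun T hT => ?_, fun T hT => ?_, fun s T => ?_, fun T hT => ?_⟩
  · exact (hΦ2.norm _).trans ((hΦ1.norm _).trans (hΨn T))
  · rw [LinearMap.comp_apply, LinearMap.comp_apply, hone, hΦ1.one, hΦ2.one]
  · refine hΦ2.symm _ (hΦ1.symm _ fun x y => ?_)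
    refine (hΨ T x y).unique ?_
    have h1 := hΨ T y x
    have h2 := Complex.conjCLE.toContinuousLinearMap.hasSum (h1 : HasSum _ _)
    have h3 : (Complex.conjCLE.toContinuousLinearMap (inner ℂ (Ψ T y) x : ℂ)) = inner ℂ x (Ψ T y) := inner_conj_symm _ _
    rw [h3] at h2
    convert h2 using 1
    funext i
    show (inner ℂ (T (JK x i)) (JK y i) : ℂ) = starRingEnd ℂ (inner ℂ (T (JK y i)) (JK x i))
    rw [inner_conj_symm, hT]
  · refine hΦ2.pos _ (hΦ1.pos _ fun x => ?_)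
    have h1 := hΨ T x x
    have h2 := Complex.reCLM.hasSum (h1 : HasSum _ _)
    have h3 : (inner ℂ x (Ψ T x) : ℂ).re = Complex.reCLM (inner ℂ (Ψ T x) x : ℂ) := by
      rw [← inner_conj_symm, Complex.conj_re]
      rfl
    rw [h3]
    refine h2.nonneg fun i => ?_
    show 0 ≤ (inner ℂ (T (JK x i)) (JK x i) : ℂ).re
    rw [← inner_conj_symm, Complex.conj_re]
    exact hT _
  · show Φ2 (Φ1 (Ψ (cn (V0 s) T))) = cn (Vt B (lam μ) s) (Φ2 (Φ1 (Ψ T)))
    rw [hΨcn (Vt B (lam μ) s) (V0 s) (hJV' s), hΦ1cn _ (h𝒯U _ (hV𝒯 s)), hΦ2cn _ (hV𝒯 s)]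
    intro g
    ext y
    show Vt B (lam μ) s (WK B (lam μ) g y) = WK B (lam μ) g (Vt B (lam μ) s y)
    rw [Vt_apply, Vt_apply, WK_lift B (B.cphi_V s) (B.VW s)]
  · show Φ2 (Φ1 (Ψ T)) ∈ JJ μ B
    have h1 : ∀ c ∈ B.CC, cn (lift B (lam μ) c.1) (Φ1 (Ψ T)) = Φ1 (Ψ T) := by
      intro c hc
      rw [← hΦ1cn _ (h𝒯U _ (hc𝒯 c hc)), hcomm T hT c hc]
    have h2 : ∀ c ∈ B.CC, cn (lift B (lam μ) c.1) (Φ2 (Φ1 (Ψ T))) = Φ2 (Φ1 (Ψ T)) := by
      intro c hc
      rw [← hΦ2cn _ (hc𝒯 c hc), h1 c hc]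
      intro g
      ext y
      show lift B (lam μ) c.1 (WK B (lam μ) g y) = WK B (lam μ) g (lift B (lam μ) c.1 y)
      rw [WK_lift B (B.cphi_CC hc) (B.CC_W c hc)]
    have h3 : ∀ u ∈ US B μ, cn u (Φ2 (Φ1 (Ψ T))) = Φ2 (Φ1 (Ψ T)) := by
      intro u hu
      refine hΦ2T u (hU𝒯 u hu) _ fun g => ?_
      -- conjugation of `u` by `WK g`
      obtain ⟨κ, hκ, rfl⟩ := hu
      have hκ' : ∀ g' s, ‖(TZ.Kap.act κ (B.ir g)).k g' s‖ = 1 := fun g' s => hκ _ _
      have h4 : Uk B μ κ hκ * WK B (lam μ) g = WK B (lam μ) g * Uk B μ (TZ.Kap.act κ (B.ir g)) hκ' := by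
        ext y
        show Mk B μ κ (WK B (lam μ) g y) = WK B (lam μ) g (Mk B μ (TZ.Kap.act κ (B.ir g)) y)
        rw [WK_Mk]
        refine mulF_congr B (fun g' w => ?_) _
        apply Lp.ext
        filter_upwards [mulK_apply μ κ g' w, mulK_apply μ (TZ.Kap.act (TZ.Kap.act κ (B.ir g)) (B.ir g)⁻¹) g' w] with s h5 h6
        rw [h5, h6]
        show κ.k g' s * _ = κ.k (B.ir g * ((B.ir g)⁻¹ * g')) s * _
        rw [mul_inv_cancel_left]
      rw [← cn_mul, h4, cn_mul, hΦ1u _ ⟨_, hκ', rfl⟩]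
    rw [mem_JJ]
    refine ⟨fun k y => ?_, fun c hc y => ?_, fun κ y => ?_⟩
    · exact (cn_eq.1 (hΦ2B k (Φ1 (Ψ T))) y).symm
    · exact (cn_eq.1 (h2 c hc) y).symm
    · exact (comm_Mk B μ (fun u hu y => cn_eq.1 (h3 u hu) y) κ y).symm

end main

end Pool.Agent.Helper55.TZ
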