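import Pool.Agent.Helper35.FP.JL
import Pool.Agent.Helper55.TZ.ThetaJ
import Pool.Agent.Helper55.TZ.MulX

/-!
# Project TZ (MP_0f6f3f_an): ping-pong operators in the Levi algebra

`exists_PP`: an observable on `L0` over the `S'`-space `Ω` and sets `D i` of `Ω` such that each point is in at most `m` of the `D i` and in at most `m` of the `s i (Ω \ D i)` give `PP (levOf μ B hQ hK) m k s`.
-/

set_option autoImplicit false
set_option linter.unusedSectionVars false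
set_option linter.unusedVariables false

open Filter Topology MeasureTheory

namespace Pool.Agent.Helper55.TZ

open Pool.Agent.Helper84.NI Pool.Agent.Helper84.GVN Pool.Agent.Helper84.FR
open Pool.Agent.Helper35.FP Pool.Agent.Helper55.FP
open Pool.Agent.Helper43.TZ (PP cj cj_apply Lev)

variable {𝔾 𝕊 : Type} [Group 𝔾] [TopologicalSpace 𝔾] [IsTopologicalGroup 𝔾] [Group 𝕊] [TopologicalSpace 𝕊] [IsTopologicalGroup 𝕊]
  {𝕂 : Subgroup 𝕊} {geo : Geo 𝔾 𝕊 𝕂} {G S' H U : Type} [Group G] [Group S'] [TopologicalSpace S'] [IsTopologicalGroup S']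
  [NormedAddCommGroup H] [InnerProductSpace ℂ H] [CompleteSpace H]
  [NormedAddCommGroup U] [InnerProductSpace ℂ U] [CompleteSpace U]
variable {L0 Y : Type} [NormedAddCommGroup L0] [InnerProductSpace ℂ L0] [CompleteSpace L0]
variable [MeasurableSpace 𝕊] [BorelSpace 𝕊]
  [SecondCountableTopology 𝕊] [LocallyCompactSpace 𝕊] [T2Space 𝕊] (μ : Measure 𝕊) [μ.IsHaarMeasure] [μ.IsMulRightInvariant]
variable (B : BD geo G S' H U)

theorem pos_of {K : Type} [NormedAddCommGroup K] [InnerProductSpace ℂ K] [CompleteSpace K] {T : K →L[ℂ] K}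
    (h1 : ∀ x y, (inner ℂ (T x) y : ℂ) = inner ℂ x (T y)) (h2 : ∀ x, 0 ≤ (inner ℂ x (T x) : ℂ).re) : 0 ≤ T := by
  rw [ContinuousLinearMap.nonneg_iff_isPositive]
  refine ⟨fun x y => h1 x y, fun x => ?_⟩
  have h3 := h2 x
  rw [← inner_conj_symm, Complex.conj_re] at h3
  exact h3

open Classical in
/-- The indicator function. -/
noncomputable def i1 {Ω : Type} (D : Set Ω) (ω : Ω) : ℝ := if ω ∈ D then 1 else 0

theorem i1_nonneg {Ω : Type} (D : Set Ω) (ω : Ω) : 0 ≤ i1 D ω := by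
  unfold i1
  split_ifs <;> norm_num

theorem i1_le {Ω : Type} (D : Set Ω) (ω : Ω) : i1 D ω ≤ 1 := by
  unfold i1
  split_ifs <;> norm_num

theorem bmf_i1 {Ω : Type} [MeasurableSpace Ω] {D : Set Ω} (hD : MeasurableSet D) : BMf (i1 D) := by
  refine ⟨?_, 1, fun ω => ?_⟩
  · unfold i1
    exact Measurable.ite hD measurable_const measurable_const
  · rw [abs_of_nonneg (i1_nonneg D ω)]
    exact i1_le D ω

theorem BMf.const {Ω : Type} [MeasurableSpace Ω] (c : ℝ) : BMf fun _ : Ω => c := ⟨measurable_const, |c|, fun _ => le_rfl⟩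

theorem BMf.add {Ω : Type} [MeasurableSpace Ω] {f f' : Ω → ℝ} (hf : BMf f) (hf' : BMf f') : BMf fun ω => f ω + f' ω := by
  obtain ⟨h1, C, hC⟩ := hf
  obtain ⟨h2, C', hC'⟩ := hf'
  exact ⟨h1.add h2, C + C', fun ω => (abs_add_le _ _).trans (add_le_add (hC ω) (hC' ω))⟩

theorem BMf.smul {Ω : Type} [MeasurableSpace Ω] {f : Ω → ℝ} (hf : BMf f) (c : ℝ) : BMf fun ω => c * f ω := by
  obtain ⟨h1, C, hC⟩ := hf
  exact ⟨h1.const_mul c, |c| * C, fun ω => by
    rw [abs_mul]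
    exact mul_le_mul_of_nonneg_left (hC ω) (abs_nonneg _)⟩

theorem BMf.sum {Ω : Type} [MeasurableSpace Ω] {ι : Type} (s : Finset ι) {f : ι → Ω → ℝ} (hf : ∀ i ∈ s, BMf (f i)) :
    BMf fun ω => ∑ i ∈ s, f i ω := by
  classical
  induction s using Finset.induction_on with
  | empty => simpa using BMf.const (Ω := Ω) 0
  | insert a s ha ih =>
    simp only [Finset.sum_insert ha]
    exact (hf a (Finset.mem_insert_self _ _)).add (ih fun i hi => hf i (Finset.mem_insert_of_mem hi))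

section obs

variable {V0 : S' →* (L0 ≃ₗᵢ[ℂ] L0)} {𝒞 : Set (L0 ≃ₗᵢ[ℂ] L0)} {Ω : Type} [MulAction S' Ω] [MeasurableSpace Ω]

theorem Obs.zero (O : Obs S' Ω L0 V0 𝒞) : O.m (fun _ => 0) = 0 := by
  have h := O.smul 0 (fun _ => 1) (BMf.const 1)
  simp only [zero_mul, Complex.ofReal_zero, zero_smul] at h
  exact h

theorem Obs.sum (O : Obs S' Ω L0 V0 𝒞) {ι : Type} (s : Finset ι) {f : ι → Ω → ℝ} (hf : ∀ i ∈ s, BMf (f i)) :
    O.m (fun ω => ∑ i ∈ s, f i ω) = ∑ i ∈ s, O.m (f i) := by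
  classical
  induction s using Finset.induction_on with
  | empty => simpa using O.zero
  | insert a s ha ih =>
    simp only [Finset.sum_insert ha]
    rw [O.add _ _ (hf a (Finset.mem_insert_self _ _)) (BMf.sum s fun i hi => hf i (Finset.mem_insert_of_mem hi)),
      ih fun i hi => hf i (Finset.mem_insert_of_mem hi)]

theorem Obs.sub (O : Obs S' Ω L0 V0 𝒞) {f f' : Ω → ℝ} (hf : BMf f) (hf' : BMf f') : O.m (fun ω => f ω - f' ω) = O.m f - O.m f' := by
  have h1 : (fun ω => f ω - f' ω) = fun ω => f ω + (-1) * f' ω := funext fun ω => by ring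
  rw [h1, O.add _ _ hf (hf'.smul (-1)), O.smul _ _ hf']
  push_cast
  rw [neg_one_smul, sub_eq_add_neg]

end obs

open Classical in
/-- **Ping-pong operators.** -/
theorem exists_PP [LocallyCompactSpace 𝔾] [T2Space 𝔾] (hQ : IsClosed (geo.Q : Set 𝔾)) (hK : IsCompact (𝕂 : Set 𝕊))
    (ho : IsOpenMap geo.nb) (am : Amn B) (V0 : S' →* (L0 ≃ₗᵢ[ℂ] L0))
    (c0 : (H ≃ₗᵢ[ℂ] H) × (U ≃ₗᵢ[ℂ] U) → (L0 ≃ₗᵢ[ℂ] L0)) (J : H →ₗᵢ[ℂ] Lv Y L0)
    (hJV : ∀ (s : S') (x : H) (y : Y), J (B.V s x) y = V0 s (J x y))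
    (hJc : ∀ c ∈ B.CC, ∀ (x : H) (y : Y), J (c.1 x) y = c0 c (J x y))
    {Ω : Type} [MulAction S' Ω] [MeasurableSpace Ω] [MeasurableConstSMul S' Ω] (O : Obs S' Ω L0 V0 (c0 '' B.CC))
    {k : ℕ} (s : Fin k → S') (D : Fin k → Set Ω) (hD : ∀ i, MeasurableSet (D i)) (m : ℕ)
    (h1 : ∀ ω, (Finset.univ.filter fun i => ω ∈ D i).card ≤ m)
    (h2 : ∀ ω, (Finset.univ.filter fun i => (s i)⁻¹ • ω ∉ D i).card ≤ m) :
    Nonempty (PP (levOf μ B hQ hK) m k s) := by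
  obtain ⟨Ξ, hΞn, hΞ1, hΞs, hΞp, hΞV, hΞJ⟩ := exists_XiJ B μ ho am V0 c0 J hJV hJc
  have hone : (1 : Kt B (lam μ) →L[ℂ] Kt B (lam μ)) = Ξ (O.m fun _ => 1) := by
    rw [O.one, hΞ1]
    rfl
  have hmem : ∀ f : Ω → ℝ, BMf f → Ξ (O.m f) ∈ (levOf μ B hQ hK).J := by
    intro f hf
    refine (mem_cent μ B).2 (hΞJ _ fun c hc x => ?_)
    exact O.comm (c0 c) ⟨c, hc, rfl⟩ f hf x
  have hnn : ∀ f : Ω → ℝ, BMf f → (∀ ω, 0 ≤ f ω) → 0 ≤ Ξ (O.m f) := by
    intro f hf h0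
    exact pos_of (hΞs _ (O.symm f hf)) (hΞp _ (O.pos f hf h0))
  have hle : ∀ f f' : Ω → ℝ, BMf f → BMf f' → (∀ ω, f ω ≤ f' ω) → Ξ (O.m f) ≤ Ξ (O.m f') := by
    intro f f' hf hf' h0
    rw [← sub_nonneg, ← map_sub, ← O.sub hf' hf]
    exact hnn _ (by
      have := hf'.add (hf.smul (-1))
      refine ⟨?_, ?_⟩
      · exact hf'.1.sub hf.1
      · obtain ⟨C, hC⟩ := this.2
        refine ⟨C, fun ω => ?_⟩
        have h3 : |f' ω + -1 * f ω| ≤ C := hC ω
        show |f' ω - f ω| ≤ C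
        rwa [neg_one_mul, ← sub_eq_add_neg] at h3) fun ω => sub_nonneg.2 (h0 ω)
  -- the functions
  let fp : Fin k → Ω → ℝ := fun i => i1 (D i)
  let fq : Fin k → Ω → ℝ := fun i ω => 1 - i1 (D i) ((s i)⁻¹ • ω)
  have hfp : ∀ i, BMf (fp i) := fun i => bmf_i1 (hD i)
  have hfq0 : ∀ i, BMf fun ω => i1 (D i) ((s i)⁻¹ • ω) := fun i =>
    ⟨(bmf_i1 (hD i)).1.comp (measurable_const_smul (s i)⁻¹), by
      obtain ⟨C, hC⟩ := (bmf_i1 (hD i)).2
      exact ⟨C, fun ω => hC _⟩⟩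
  have hfq : ∀ i, BMf (fq i) := fun i => ⟨measurable_const.sub (hfq0 i).1, 1, fun ω => by
    rw [abs_of_nonneg (sub_nonneg.2 (i1_le _ _))]
    linarith [i1_nonneg (D i) ((s i)⁻¹ • ω)]⟩
  have hm : ∀ c : ℝ, Ξ (O.m fun _ => c) = (c : ℂ) • (1 : Kt B (lam μ) →L[ℂ] Kt B (lam μ)) := by
    intro c
    have h3 := O.smul c (fun _ => 1) (BMf.const 1)
    simp only [mul_one] at h3
    rw [h3, map_smul, ← hone]
  refine ⟨⟨fun i => Ξ (O.m (fp i)), fun i => Ξ (O.m (fq i)), fun i => hmem _ (hfp i), fun i => hmem _ (hfq i),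
    fun i => hnn _ (hfp i) fun ω => i1_nonneg _ _, fun i => hnn _ (hfq i) fun ω => sub_nonneg.2 (i1_le _ _), fun i => ?_, ?_, ?_,
    fun i => ?_⟩⟩
  · rw [hone]
    exact hle _ _ (hfp i) (BMf.const 1) fun ω => i1_le _ _
  · rw [← map_sum, ← O.sum Finset.univ fun i _ => hfp i]
    have h3 := hm (m : ℝ)
    push_cast at h3
    rw [← h3]
    refine hle _ _ (BMf.sum _ fun i _ => hfp i) (BMf.const _) fun ω => ?_
    have h4 : ∑ i, fp i ω = ((Finset.univ.filter fun i => ω ∈ D i).card : ℝ) := by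
      rw [Finset.card_filter]
      push_cast
      exact Finset.sum_congr rfl fun i _ => rfl
    rw [h4]
    exact_mod_cast h1 ω
  · rw [← map_sum, ← O.sum Finset.univ fun i _ => hfq i]
    have h3 := hm (m : ℝ)
    push_cast at h3
    rw [← h3]
    refine hle _ _ (BMf.sum _ fun i _ => hfq i) (BMf.const _) fun ω => ?_
    have h4 : ∑ i, fq i ω = ((Finset.univ.filter fun i => (s i)⁻¹ • ω ∉ D i).card : ℝ) := by
      rw [Finset.card_filter]
      push_cast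
      refine Finset.sum_congr rfl fun i _ => ?_
      show 1 - i1 (D i) ((s i)⁻¹ • ω) = _
      unfold i1
      by_cases h : (s i)⁻¹ • ω ∈ D i
      · rw [if_pos h, if_neg (fun h' => h' h)]
        norm_num
      · rw [if_neg h, if_pos h]
        norm_num
    rw [h4]
    exact_mod_cast h2 ω
  · show cj (Vt B (lam μ) (s i)) (1 - Ξ (O.m (fp i))) = Ξ (O.m (fq i))
    have h3 : cj (Vt B (lam μ) (s i)) (1 - Ξ (O.m (fp i))) = cn (Vt B (lam μ) (s i)) (Ξ (O.m fun ω => 1 - fp i ω)) := by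
      rw [hone, ← map_sub, ← O.sub (BMf.const 1) (hfp i)]
      rfl
    have h4 : BMf fun ω => 1 - fp i ω := by
      refine ⟨measurable_const.sub (hfp i).1, 1, fun ω => ?_⟩
      rw [abs_of_nonneg (sub_nonneg.2 (i1_le _ _))]
      linarith [i1_nonneg (D i) ω]
    rw [h3, ← hΞV, O.cov (s i) _ h4]

end Pool.Agent.Helper55.TZ
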