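import Pool.Agent.Helper78.BI.Inst
import Pool.Agent.Helper9.S3X.XJ
import Pool.Agent.Helper55.TZ.PPx
import Pool.Agent.Helper55.TZ.Am
import Pool.Agent.Helper43.TZ.Src
import Pool.Agent.Helper43.TZ.Main

/-!
# Project TZ (MP_0f6f3f_an): the ping-pong operators of the boundary data

`pullBD`: the boundary data of a homomorphism `S' → S''`. `hpp_of`: the hypothesis `hpp` of `Helper43.TZ.main` for the boundary data `bdOf` (`Helper78/BI/Inst.lean`) and a direction `D : Dir G1 F par d`.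
`contra_bd`: the contradiction if `dim S2 < d`.
-/

set_option autoImplicit false
set_option linter.unusedSectionVars false

open Filter Topology MeasureTheory

namespace Pool.Agent.Helper55.TZ

open Pool.Agent.Helper84 Pool.Agent.Helper84.GN Pool.Agent.Helper84.GN.S3 Pool.Agent.Helper84.GN.S3.X
open Pool.Agent.Helper84.NI Pool.Agent.Helper84.GVN Pool.Agent.Helper90.RK Pool.Agent.Helper9
open Pool.Agent.Helper96.RK Pool.Agent.Helper66.FR Pool.Agent.Helper84.FR Pool.Agent.Helper55.FR Pool.Agent.Helper78.BM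
open Pool.Agent.Helper35.FP Pool.Agent.Helper55.FP Pool.Agent.Helper78.BI
open Pool.Agent.Helper43.TZ (PP Dir Siz Lev)

section Dense

variable {G Λ : Type} [Group G] [Group Λ]

theorem jjR_dl (E : Emb Λ G) (l : Λ) (x : G) : jjR E l (dl x) = lamU x (jjR E l (dl 1)) := by
  have h1 : (dl x : L2 G) = lamU x (dl 1) := by rw [lamU_dl, mul_one]
  rw [h1]
  exact CommR.jjU_lam (E.conj.comm l) x _

theorem inner_jjR (E : Emb Λ G) {l m : Λ} (h : l ≠ m) : (inner ℂ (jjR E l (dl 1)) (jjR E m (dl 1)) : ℂ) = 0 := by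
  have h1 : jjR E m (dl 1) = jjR E l (jjR E (l⁻¹ * m) (dl 1)) := by
    change _ = (jjR E l * jjR E (l⁻¹ * m)) (dl 1)
    rw [← map_mul, mul_inv_cancel_left]
  rw [h1, LinearIsometryEquiv.inner_map_map]
  have h2 : (inner ℂ (dl 1 : L2 G) (jjR E (l⁻¹ * m) (dl 1)) : ℂ) = jjR E (l⁻¹ * m) (dl 1) 1 := by
    rw [inner_dl_left]
  rw [h2]
  have h3 : jjR E (l⁻¹ * m) (dl 1) 1 = (starRingEnd ℂ) (cf (E.conj.U (l⁻¹ * m)) (1 : G)⁻¹) := jjU_dl_one _ 1
  rw [h3, inv_one, E.conj.tr _ fun h4 => h (inv_mul_eq_one.1 h4), map_zero]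

theorem bdd_dl (E : Emb Λ G) (x : G) : Bdd (jjR E) 1 (dl x : L2 G) := by
  classical
  refine ⟨zero_le_one, fun s a => ?_⟩
  have h1 : ∑ g ∈ s, a g • jjR E g (dl x) = lamU x (∑ g ∈ s, a g • jjR E g (dl 1)) := by
    rw [map_sum]
    refine Finset.sum_congr rfl fun g _ => ?_
    rw [jjR_dl, map_smul]
  rw [h1, LinearIsometryEquiv.norm_map, one_pow, one_mul]
  have h2 : (inner ℂ (∑ g ∈ s, a g • jjR E g (dl 1)) (∑ g ∈ s, a g • jjR E g (dl 1)) : ℂ) = ((∑ g ∈ s, ‖a g‖ ^ 2 : ℝ) : ℂ) := by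
    rw [sum_inner]
    push_cast
    refine Finset.sum_congr rfl fun g hg => ?_
    rw [inner_sum, Finset.sum_eq_single g]
    · rw [inner_smul_left, inner_smul_right, LinearIsometryEquiv.inner_map_map, inner_self_eq_norm_sq_to_K, norm_dl]
      rw [← mul_assoc, Complex.conj_mul']
      simp
    · intro m _ hm
      rw [inner_smul_left, inner_smul_right, inner_jjR E hm.symm, mul_zero, mul_zero]
    · intro h
      exact absurd hg h
  rw [inner_self_eq_norm_sq_to_K] at h2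
  refine le_of_eq (Complex.ofReal_injective ?_)
  rw [Complex.ofReal_pow]
  exact h2

theorem dense_jjR (E : Emb Λ G) : Dense (BddSub (jjR E) : Set (L2 G)) := by
  intro v
  refine mem_closure_of_tendsto (hasSum_dl v) (Eventually.of_forall fun s => ?_)
  exact Submodule.sum_mem _ fun x _ => Submodule.smul_mem _ _ ⟨1, bdd_dl E x⟩

end Dense

section Pull

variable {𝔾 𝕊 : Type} [Group 𝔾] [TopologicalSpace 𝔾] [Group 𝕊] [TopologicalSpace 𝕊] {𝕂 : Subgroup 𝕊} {geo : Geo 𝔾 𝕊 𝕂}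
  {G S' S'' H U : Type} [Group G] [Group S'] [TopologicalSpace S'] [Group S''] [TopologicalSpace S'']
  [NormedAddCommGroup H] [InnerProductSpace ℂ H] [CompleteSpace H]
  [NormedAddCommGroup U] [InnerProductSpace ℂ U] [CompleteSpace U]

/-- The boundary data of a homomorphism. -/
noncomputable def pullBD (B : BD geo G S'' H U) (φ : S' →* S'') (hφ : Continuous φ) : BD geo G S' H U :=
  { B with
    V := B.V.comp φ
    VW := fun s => B.VW (φ s)
    VΦ := fun s => B.VΦ (φ s)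
    Vc := fun x => (B.Vc x).comp hφ
    VCC := fun s => B.VCC (φ s) }

end Pull

section Bd

variable {G1 X G Λ : Type} [Group G1] [TopologicalSpace G1] [IsTopologicalGroup G1] [MeasurableSpace X] [MulAction G1 X]
  [MeasurableConstSMul G1 X] [Group G] [Group Λ] [Countable Λ] {ν : Measure X} [SMulInvariantMeasure G1 X ν]
  [IsProbabilityMeasure ν] {a : Cocy G1 X Λ} {E : Emb Λ G} {R : Reg G} {b : ℕ → G1}

open Classical in
/-- The unitaries of the source which correspond to the unitaries `CCs`. -/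
noncomputable def c0X (ν : Measure X) [SMulInvariantMeasure G1 X ν] [IsProbabilityMeasure ν] (a : Cocy G1 X Λ) (E : Emb Λ G)
    (R : Reg G) (b : ℕ → G1) (c : (XL ν (L2 G) ≃ₗᵢ[ℂ] XL ν (L2 G)) × (XUa ν R ≃ₗᵢ[ℂ] XUa ν R)) :
    XL ν (L2 Λ) ≃ₗᵢ[ℂ] XL ν (L2 Λ) :=
  if h : ∃ q ∈ Ctr b, c = (vgR ν a (jjR E) q, sSE ν R fun n => b n * q * (b n)⁻¹) then vrep ν a h.choose
  else if h : ∃ (D : Set X) (hD : MeasurableSet D), c = (refl (pv0 ν (L2 G)) D hD, refl (pyU ν b R) D hD) then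
    refl (pv0 ν (L2 Λ)) h.choose h.choose_spec.choose
  else 1

theorem c0X_spec {c : (XL ν (L2 G) ≃ₗᵢ[ℂ] XL ν (L2 G)) × (XUa ν R ≃ₗᵢ[ℂ] XUa ν R)} (hc : c ∈ CCs ν a E R b) :
    (∃ q ∈ Ctr b, (∀ φ, c.1 φ = vg ν a (jjR E) q φ) ∧ ∀ φ, c0X ν a E R b c φ = vop ν a q φ) ∨
      ∃ D : Set X, MeasurableSet D ∧ (∀ φ, c.1 φ = φ - (2 : ℂ) • xE ν (L2 G) D φ) ∧
        ∀ φ, c0X ν a E R b c φ = φ - (2 : ℂ) • xE ν (L2 Λ) D φ := by
  by_cases h : ∃ q ∈ Ctr b, c = (vgR ν a (jjR E) q, sSE ν R fun n => b n * q * (b n)⁻¹)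
  · left
    refine ⟨h.choose, h.choose_spec.1, fun φ => ?_, fun φ => ?_⟩
    · conv_lhs => rw [h.choose_spec.2]
      rfl
    · unfold c0X
      rw [dif_pos h]
      rfl
  · right
    have h' : ∃ (D : Set X) (hD : MeasurableSet D), c = (refl (pv0 ν (L2 G)) D hD, refl (pyU ν b R) D hD) :=
      hc.resolve_left h
    refine ⟨h'.choose, h'.choose_spec.choose, fun φ => ?_, fun φ => ?_⟩
    · conv_lhs => rw [h'.choose_spec.choose_spec]
      rfl
    · unfold c0X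
      rw [dif_neg h, dif_pos h']
      rfl

theorem card_le_of_ncard {k : ℕ} (p : Fin k → Prop) [DecidablePred p] {m : ℕ} (h : {l | p l}.ncard ≤ m) :
    (Finset.univ.filter p).card ≤ m := by
  have h1 : {l | p l} = ((Finset.univ.filter p : Finset (Fin k)) : Set (Fin k)) := by
    ext l
    simp
  rwa [h1, Set.ncard_coe_finset] at h

variable {N : ℕ} {q : Fin N} {P : PH G N} {s : Sg N q} {S : Sv P}

/-- The homomorphism of the Levi group of a direction to the centraliser. -/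
def jcen {F1 : Subgroup G1} {par : G1 → ℝ} {d : ℕ} (D : Dir G1 F1 par d) (hbF : ∀ n, b n ∈ F1) : D.S' →* cen b where
  toFun g := ⟨D.ι g, mem_cen.2 fun n => (D.cm g (b n) (hbF n)).symm⟩
  map_one' := Subtype.ext (map_one D.ι)
  map_mul' g h := Subtype.ext (map_mul D.ι g h)

theorem continuous_jcen {F1 : Subgroup G1} {par : G1 → ℝ} {d : ℕ} (D : Dir G1 F1 par d) (hbF : ∀ n, b n ∈ F1) :
    Continuous (jcen D hbF) := Continuous.subtype_mk (f := fun g => D.ι g) D.ιc _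

/-- The boundary data over the Levi group of a direction. -/
noncomputable def bdD (F : Fra s S) (T : Str S) (hb : ∀ i, T.b i = if q < i then 1 else 0)
    (B : BMap ν a E (Pool.Agent.Helper84.GN.toReg T) (posPD S T.b) b)
    (h3 : Tendsto (fun g : G1 => ν {x | a.a g x ≠ 1}) (𝓝 1) (𝓝 0)) (hK : Kcont G1 ν) (hE : ErgU ν a E (Ctr b))
    {F1 : Subgroup G1} {par : G1 → ℝ} {d : ℕ} (D : Dir G1 F1 par d) (hbF : ∀ n, b n ∈ F1) :
    BD s.geo G D.S' (XL ν (L2 G)) (XUa ν (Pool.Agent.Helper84.GN.toReg T)) :=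
  pullBD (bdOf F T hb B h3 hK hE) (jcen D hbF) (continuous_jcen D hbF)

variable [MeasurableSpace s.SL] [BorelSpace s.SL] [SecondCountableTopology s.SL] [LocallyCompactSpace s.SL] [T2Space s.SL]
  (μ : Measure s.SL) [μ.IsHaarMeasure] [μ.IsMulRightInvariant] [LocallyCompactSpace s.GG] [T2Space s.GG]

/-- **Ping-pong operators of the boundary data.** -/
theorem hpp_of {Γ : Subgroup G1} [Countable Γ] {a : Cocy G1 X Γ} {E : Emb Γ G}
    (hQ : IsClosed (s.geo.Q : Set s.GG)) (hKG : IsCompact (s.KG : Set s.SL))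
    (hU : ∀ g : s.M, Lb q (s.mt g) → ∃ e : ℝ, 0 < e ∧
      ((Ee q * s.mt g * Ee q).conjTranspose) * (Ee q * s.mt g * Ee q) = (e : ℂ) • Ee q)
    (F : Fra s S) (T : Str S) (hb : ∀ i, T.b i = if q < i then 1 else 0)
    (B : BMap ν a E (Pool.Agent.Helper84.GN.toReg T) (posPD S T.b) b)
    (h3 : Tendsto (fun g : G1 => ν {x | a.a g x ≠ 1}) (𝓝 1) (𝓝 0)) (hK : Kcont G1 ν) (hE : ErgU ν a E (Ctr b))
    {F1 : Subgroup G1} {par : G1 → ℝ} {d : ℕ} (D : Dir G1 F1 par d) (hbF : ∀ n, b n ∈ F1)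
    (hbp : Tendsto (fun n => par (b n)) (hyperfilter ℕ : Filter ℕ) atTop)
    (σ : X → G1) (hσ : ∀ B : Set G1, MeasurableSet[borel G1] B → MeasurableSet (σ ⁻¹' B))
    (hσa : ∀ (g : G1) (x : X), g * σ x = σ (g • x) * (a.a g x : G1)) :
    ∀ t ∈ D.fam.Sg, ∀ Nn : Subgroup D.S', Nn.Normal → t ∈ Nn → ∀ k : ℕ, ∃ g : Fin k → D.S', (∀ i, g i ∈ Nn) ∧
      Nonempty (PP (levOf μ (bdD F T hb B h3 hK hE D hbF) hQ hKG) D.mult k g) := by
  classical
  intro t ht Nn hN htN k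
  obtain ⟨g, W, hg, hW, h1, h2⟩ := D.pp t ht k
  refine ⟨g, fun i => (Subgroup.normalClosure_le_normal (Set.singleton_subset_iff.2 htN)) (hg i), ?_⟩
  obtain ⟨Y, J, hJV, hJE⟩ := exists_XJ (μ := ν) (jjR E) (dense_jjR E) a
  -- the map to the boundary
  let κ : X → Γ → D.Ω := fun x l => D.κ (σ x * (l : G1))
  have hκ : ∀ l, Measurable fun x => κ x l := by
    intro l A hA
    have h4 : MeasurableSet[borel G1] ((fun g : G1 => g * (l : G1)) ⁻¹' (D.κ ⁻¹' A)) := by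
      have h5 : Measurable[borel G1, borel G1] (fun g : G1 => g * (l : G1)) := (continuous_mul_const (l : G1)).borel_measurable
      exact h5 (D.κm A hA)
    exact hσ _ h4
  have hκS : ∀ (z : D.S') x l, κ (D.ι z • x) (a.a (D.ι z) x * l) = z • κ x l := by
    intro z x l
    change D.κ (σ (D.ι z • x) * ((a.a (D.ι z) x * l : Γ) : G1)) = z • D.κ (σ x * (l : G1))
    rw [Subgroup.coe_mul, ← mul_assoc, ← hσa, mul_assoc, D.κs]
  have hκq : ∀ u ∈ Ctr b, ∀ x l, κ (u • x) (a.a u x * l) = κ x l := by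
    intro u hu x l
    change D.κ (σ (u • x) * ((a.a u x * l : Γ) : G1)) = D.κ (σ x * (l : G1))
    rw [Subgroup.coe_mul, ← mul_assoc, ← hσa, mul_assoc]
    exact D.κq b (hyperfilter ℕ : Filter ℕ) hbF hbp u hu _
  have O : Obs D.S' D.Ω (XL ν (L2 Γ)) ((vrep ν a).comp D.ι)
      (c0X ν a E (Pool.Agent.Helper84.GN.toReg T) b '' CCs ν a E (Pool.Agent.Helper84.GN.toReg T) b) := by
    refine obsX ν a D.ι κ hκ hκS _ ?_
    rintro _ ⟨c, hc, rfl⟩
    rcases c0X_spec hc with ⟨u, hu, -, h4⟩ | ⟨A, hA, -, h4⟩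
    · exact Or.inl ⟨u, hκq u hu, h4⟩
    · exact Or.inr ⟨A, hA, h4⟩
  exact exists_PP μ (bdD F T hb B h3 hK hE D hbF) hQ hKG (isOpenMap_nb s) (amn_geo s hU F _ rfl)
    ((vrep ν a).comp D.ι) (c0X ν a E (Pool.Agent.Helper84.GN.toReg T) b) J (fun z x y => hJV (D.ι z) x y) (by
      intro c hc x y
      rcases c0X_spec hc with ⟨u, hu, h4, h5⟩ | ⟨A, hA, h4, h5⟩
      · rw [h4, h5, hJV]
      · rw [h4, h5, map_sub, map_smul, ← hJE A hA]
        rfl) O g W hW D.mult (fun ω => card_le_of_ncard _ (h1 ω)) (fun ω => card_le_of_ncard _ (h2 ω))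

/-- **The contradiction.** -/
theorem contra_bd {Γ : Subgroup G1} [Countable Γ] {a : Cocy G1 X Γ} {E : Emb Γ G}
    (hQ : IsClosed (s.geo.Q : Set s.GG)) (hKG : IsCompact (s.KG : Set s.SL))
    (hU : ∀ g : s.M, Lb q (s.mt g) → ∃ e : ℝ, 0 < e ∧
      ((Ee q * s.mt g * Ee q).conjTranspose) * (Ee q * s.mt g * Ee q) = (e : ℂ) • Ee q)
    (F : Fra s S) (T : Str S) (hb : ∀ i, T.b i = if q < i then 1 else 0)
    (B : BMap ν a E (Pool.Agent.Helper84.GN.toReg T) (posPD S T.b) b)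
    (h3 : Tendsto (fun g : G1 => ν {x | a.a g x ≠ 1}) (𝓝 1) (𝓝 0)) (hK : Kcont G1 ν) (hE : ErgU ν a E (Ctr b))
    {F1 : Subgroup G1} {par : G1 → ℝ} {d : ℕ} (D : Dir G1 F1 par d) (hbF : ∀ n, b n ∈ F1)
    (hbp : Tendsto (fun n => par (b n)) (hyperfilter ℕ : Filter ℕ) atTop)
    (σ : X → G1) (hσ : ∀ B : Set G1, MeasurableSet[borel G1] B → MeasurableSet (σ ⁻¹' B))
    (hσa : ∀ (g : G1) (x : X), g * σ x = σ (g • x) * (a.a g x : G1))
    (z : Siz s.SL μ) (hd : z.d < d) : False :=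
  Pool.Agent.Helper43.TZ.main (levOf μ (bdD F T hb B h3 hK hE D hbF) hQ hKG) z D.fam (by rwa [D.famd]) D.mult
    (hpp_of μ hQ hKG hU F T hb B h3 hK hE D hbF hbp σ hσ hσa)

end Bd

end Pool.Agent.Helper55.TZ
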