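import Pool.Agent.Helper78.BI.ErgD
import Pool.Agent.Helper78.BI.Top
import Pool.Agent.Helper78.BI.Start
import Pool.Agent.Helper9.FP.Siz
import Pool.Agent.Helper55.TZ.Bri
import Pool.Agent.Helper55.TZ.Coc3

/-!
# Project TZ (MP_0f6f3f_an): assembly

`tz_main`: a lattice `Γ1` of a group `G1` with the two directions `Dir G1 F par d`, `Dir G1 F (-par) d`, a group `Γ2` with a proper map `P` to the matrices of the real form `s` (`r + 1` nontrivial gaps, `SepA` for the last one `q`): there is no full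
embedding `E` of `L(Γ1)` in `L(Γ2)` if `dim SL < d`.
-/

set_option autoImplicit false
set_option linter.unusedSectionVars false

open Filter Topology MeasureTheory

namespace Pool.Agent.Helper55.TZ

open Pool.Agent.Helper84 Pool.Agent.Helper84.GN Pool.Agent.Helper84.GN.S3 Pool.Agent.Helper84.GN.S3.X
open Pool.Agent.Helper84.NI Pool.Agent.Helper84.GVN Pool.Agent.Helper90.RK Pool.Agent.Helper9
open Pool.Agent.Helper96.RK Pool.Agent.Helper66.FR Pool.Agent.Helper84.FR Pool.Agent.Helper55.FR Pool.Agent.Helper78.BM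
open Pool.Agent.Helper35.FP Pool.Agent.Helper55.FP Pool.Agent.Helper78.BI Pool.Agent.Helper9.QH Pool.Agent.Helper43.TH
open Pool.Agent.Helper43.TZ (PP Dir Siz Lev)
open Pool.Agent.Helper43.TA (TwoF Dat)

/-- **The main theorem.** -/
theorem tz_main {G1 : Type} [Group G1] [TopologicalSpace G1] [IsTopologicalGroup G1] [LocallyCompactSpace G1]
    [SecondCountableTopology G1] [T2Space G1] {Γ1 : Subgroup G1} (hL : Pool.Agent.Helper96.FR.Lattice Γ1)
    -- the source
    {F : Subgroup G1} {par : G1 → ℝ} {r d : ℕ} (hT : TwoF r F) (D1 : Dir G1 F par d) (D2 : Dir G1 F (fun g => -par g) d)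
    (hpi : ∀ g ∈ F, par g⁻¹ = -par g) {f : ℕ → G1} (hfF : ∀ n, f n ∈ F) (hfc : Tendsto f atTop (cocompact G1))
    (hfp : Tendsto (fun n => par (f n)) atTop atTop)
    -- the target
    {Γ2 : Type} [Group Γ2] {N : ℕ} {P : PH Γ2 N} {q p : Fin N} {s : Sg N q} {S : Sv P} (F2 : Fra s S)
    (hU : ∀ g : s.M, Lb q (s.mt g) → ∃ e : ℝ, 0 < e ∧
      ((Ee q * s.mt g * Ee q).conjTranspose) * (Ee q * s.mt g * Ee q) = (e : ℂ) • Ee q)
    {T0 : Finset (Fin N)} (hT0 : Triv S T0) (hr : r + 1 + T0.card = N) (hq : q ∉ T0) (hqm : ∀ j, j ∉ T0 → j ≤ q)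
    (hp : p ∉ T0) (hpm : ∀ j, j ∉ T0 → p ≤ j) (hpq : (p : ℕ) + q + 2 = N) (hS : SepA S q) (hq1 : (q : ℕ) + 1 < N)
    (hmk : N < 2 * ((q : ℕ) + 1)) (hd : Module.finrank ℝ s.low.fx - 1 < d)
    -- the embedding
    (E : Emb Γ1 Γ2) (hE : FullE E) (hicc : ∀ k : Γ2, k ≠ 1 → (Set.range fun h : Γ2 => h * k * h⁻¹).Infinite) : False := by
  classical
  have hdt : DiscreteTopology Γ1 := hL.1
  have hcount : Countable Γ1 := Pool.Agent.Helper96.FR.countable_of_discrete Γ1
  obtain ⟨X, mX, act, ν, hν, c, hmp, hme, hmul, hF2, hF3, hF4, hKc, hinv, σ, hσ, hσa⟩ := exists_cocycle3 Γ1 hL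
  have i1 : MeasurableConstSMul G1 X := ⟨fun g => (hmp g).measurable⟩
  have i2 : SMulInvariantMeasure G1 X ν := ⟨fun g s hs => (hmp g).measure_preimage hs.nullMeasurableSet⟩
  let a : Cocy G1 X Γ1 := ⟨c, fun h l => hme h {l}, hmul⟩
  obtain ⟨e, u, w, hcF, hcc, hcu, hcon, hmt⟩ := hT
  let D : Dat ν a F r :=
    { h3 := hF3
      hF2 := hF2
      hp := fun F' hF' => ⟨Pool.Agent.Helper96.FR.countable_of_discrete F', hF4 F' hF'⟩
      e := e
      u := u
      w := w
      cF := hcF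
      cc := hcc
      cu := hcu
      con := hcon
      mt := hmt }
  have hInv : InvT ν a E := invT_of hE hicc hinv
  have hb : ∀ i, (chStr S (Finset.univ.erase q) []).b i = if q < i then 1 else 0 := fun i => bJ_erase q i
  obtain ⟨μ, hμ⟩ : ∃ μ : Measure s.SL, μ.IsHaarMeasure := ⟨Measure.haar, inferInstance⟩
  have key : ∀ (b : ℕ → G1) (par' : G1 → ℝ) (D' : Dir G1 F par' d), (∀ n, b n ∈ F) →
      Tendsto (fun n => par' (b n)) (hyperfilter ℕ : Filter ℕ) atTop →
      XPpr (Pool.Agent.Helper84.GN.toReg (chStr S (Finset.univ.erase q) [])) (vec ν a E b) ≠ 0 → False := by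
    intro b par' D' hbF hbp h0
    have hEr : ErgU ν a E (Pool.Agent.Helper78.BM.Ctr b) := ergU_dir D' hInv hF3 hKc hbF hbp
    obtain ⟨B⟩ := exists_bmapG hT0 D hr hS hq1 hmk hbF hEr h0
    exact contra_bd μ s.isClosed_Q s.isCompact_KG hU F2 (chStr S (Finset.univ.erase q) []) hb B hF3 hKc hEr D' hbF hbp σ hσ hσa
      (Pool.Agent.Helper9.Lin.sizSQ (Nat.succ_ne_zero _) μ) hd
  obtain ⟨k, hk, h1 | h1⟩ := exists_start hT0 D hr hfF hfc hq hqm hp hpm hpq
  · refine key (fun n => f (k n)) par D1 (fun n => hfF _) ?_ h1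
    exact (hfp.comp (tendsto_atTop_mono hk tendsto_id)).mono_left Nat.hyperfilter_le_atTop
  · refine key (fun n => (f (k n))⁻¹) _ D2 (fun n => F.inv_mem (hfF _)) ?_ h1
    have h2 := (hfp.comp (tendsto_atTop_mono hk tendsto_id)).mono_left Nat.hyperfilter_le_atTop
    refine h2.congr fun n => ?_
    change par (f (k n)) = -par (f (k n))⁻¹
    rw [hpi _ (hfF _), neg_neg]

end Pool.Agent.Helper55.TZ
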